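import Mathlib

/-!
# Elementary disproof of PFR in torsion-free groups (S09898): definitions and module statements

Paper proof: /team-store/MP_86f7a7_ELEM_PROOF.md (helper8). Every module proves one or more `Stmt_*`.
-/

set_option autoImplicit false

namespace Pool.Agent.PFRElem

open Finset
open scoped Classical Pointwise

noncomputable section

/-- The box `[-M, M]^n`. -/
def box (n M : ℕ) : Finset (Fin n → ℤ) := Fintype.piFinset fun _ => Finset.Icc (-(M : ℤ)) M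

/-- Small residues: `|t| ≤ q / (6 L)` for the least absolute residue. -/
def small (q L : ℕ) (t : ZMod q) : Prop := 6 * (L : ℤ) * |t.valMinAbs| ≤ q

/-- `φ · x` mod `q`. -/
def dot {n : ℕ} (q : ℕ) (φ : Fin n → ZMod q) (x : Fin n → ℤ) : ZMod q :=
  ∑ k, φ k * (x k : ZMod q)

/-- The Bohr set `A_Φ` in the box (`n` constraints of width `q / (6 L)`). -/
def Bohr (n M q L : ℕ) (Φ : Fin n → Fin n → ZMod q) : Finset (Fin n → ℤ) :=
  (box n M).filter fun x => ∀ i, small q L (dot q (Φ i) x)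

/-- `L`-dissociated tuple of integer vectors. -/
def Dissoc (L : ℕ) {n m : ℕ} (x : Fin m → Fin n → ℤ) : Prop :=
  ∀ b : Fin m → ℤ, (∀ j, |b j| < L) → ∑ j, b j • x j = 0 → b = 0

/-- A weight `w` on `[-M, M]` is balanced if two different points carry mass `≥ total / (2M+1)^2`. -/
def Bal (M : ℕ) (w : ℤ → ℝ) : Prop :=
  ∃ t₁ ∈ Finset.Icc (-(M : ℤ)) M, ∃ t₂ ∈ Finset.Icc (-(M : ℤ)) M, t₁ ≠ t₂ ∧
    (∑ t ∈ Finset.Icc (-(M : ℤ)) M, w t) ≤ (2 * (M : ℝ) + 1) ^ 2 * w t₁ ∧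
    (∑ t ∈ Finset.Icc (-(M : ℤ)) M, w t) ≤ (2 * (M : ℝ) + 1) ^ 2 * w t₂

/-- All subset sums of a finite family. -/
def FS {ι V : Type*} [Fintype ι] [AddCommGroup V] (u : ι → V) : Finset V :=
  (Finset.univ : Finset (Finset ι)).image fun S => ∑ i ∈ S, u i

/-- The vector `(1, ε, x)`. -/
def vec {N n : ℕ} (p : (Fin N → Bool) × (Fin n → ℤ)) : ℚ × (Fin N → ℚ) × (Fin n → ℚ) :=
  (1, (fun i => if p.1 i then 1 else 0), fun j => (p.2 j : ℚ))

/-- The trace on the box of the union of cosets encoded by the tuple `T`. -/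
def Yset (n M N : ℕ) (T : Fin (1 + N + n) → (Fin N → Bool) × (Fin n → ℤ)) : Finset (Fin n → ℤ) :=
  (box n M).filter fun x => ∃ ε : Fin N → Bool,
    vec (ε, x) ∈ Submodule.span ℚ (Set.range fun i => vec (T i))

/-! ## Module statements -/

/-- E1a. Fourier second moment for one constraint vector (no primality needed). -/
def Stmt_E1a : Prop :=
  ∀ (n m M q L : ℕ) [NeZero q], 1 ≤ L → m * L * M < q →
    ∀ x : Fin m → Fin n → ℤ, (∀ j, x j ∈ box n M) → Dissoc L x →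
      (univ.filter fun φ : Fin n → ZMod q => ∀ j, small q L (dot q φ (x j))).card * L ^ m
        ≤ 4 ^ m * q ^ n

/-- E1b. The same for `n` independent rows (from E1a). -/
def Stmt_E1b : Prop :=
  ∀ (n m M q L : ℕ) [NeZero q], 1 ≤ L → m * L * M < q →
    ∀ x : Fin m → Fin n → ℤ, (∀ j, x j ∈ box n M) → Dissoc L x →
      (univ.filter fun Φ : Fin n → Fin n → ZMod q => ∀ j, x j ∈ Bohr n M q L Φ).card * L ^ (m * n)
        ≤ 4 ^ (m * n) * q ^ (n * n)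

/-- E2. One-dimensional anticoncentration (F3). -/
def Stmt_E2 : Prop :=
  ∀ (M : ℕ) (γ : ℝ), 0 < γ → ∃ K₀ : ℕ, ∀ K : ℕ, K₀ ≤ K → ∀ w : Fin K → ℤ → ℝ,
    (∀ j t, 0 ≤ w j t) → ∀ b : Fin K → ℤ, (∀ j, b j ≠ 0) → ∀ z : ℤ,
      K ≤ 2 * (univ.filter fun j => Bal M (w j)).card →
      (∑ t ∈ (Fintype.piFinset fun _ : Fin K => Finset.Icc (-(M : ℤ)) M).filter
          fun t => ∑ j, b j * t j = z, ∏ j, w j (t j))
        ≤ γ * ∏ j, ∑ t ∈ Finset.Icc (-(M : ℤ)) M, w j t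

/-- E3. Small ball bound in dense subsets of the box. -/
def Stmt_E3 : Prop :=
  ∀ (M D₀ : ℕ), 1024 * D₀ ^ 4 ≤ 2 * M + 1 → ∀ θ : ℝ, 0 < θ → ∃ K : ℕ, 0 < K ∧
    ∀ (n : ℕ) (X : Finset (Fin n → ℤ)), X ⊆ box n M → (2 * M + 1) ^ n ≤ D₀ ^ n * X.card →
      ∀ b : Fin K → ℤ, (∀ j, b j ≠ 0) → ∀ z : Fin n → ℤ,
        (((Fintype.piFinset fun _ : Fin K => X).filter fun x => ∑ j, b j • x j = z).card : ℝ)
          ≤ 2 * θ ^ n * (X.card : ℝ) ^ K

/-- E4. Most `m`-tuples of a dense subset of the box are `L`-dissociated, `m = τ n` (from E3). -/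
def Stmt_E4 : Prop :=
  ∀ (M D₀ L τ : ℕ), 1024 * D₀ ^ 4 ≤ 2 * M + 1 → 1 ≤ D₀ → 1 ≤ L → ∃ n₀ : ℕ, ∀ n : ℕ, n₀ ≤ n →
    ∀ X : Finset (Fin n → ℤ), X ⊆ box n M → (2 * M + 1) ^ n ≤ D₀ ^ n * X.card →
      X.card ^ (τ * n) ≤
        2 * ((Fintype.piFinset fun _ : Fin (τ * n) => X).filter fun x => Dissoc L x).card

/-- E5a. Lower bound for every `Φ`. -/
def Stmt_E5a : Prop :=
  ∀ (n M q L : ℕ) [NeZero q] (Φ : Fin n → Fin n → ZMod q), 1 ≤ L →
    (M + 1) ^ n ≤ (6 * L) ^ n * (Bohr n M q L Φ).card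

/-- E5b. Doubling for every `Φ`. -/
def Stmt_E5b : Prop :=
  ∀ (n M q L : ℕ) [NeZero q] (Φ : Fin n → Fin n → ZMod q), 1 ≤ L →
    (Bohr n M q L Φ + Bohr n M q L Φ).card ≤ 20 ^ n * (Bohr n M q L Φ).card

/-- E5c. Average size. -/
def Stmt_E5c : Prop :=
  ∀ (n M q L : ℕ) [Fact q.Prime], 1 ≤ L → M < q → 3 * L ≤ q →
    (∑ Φ : Fin n → Fin n → ZMod q, (Bohr n M q L Φ).card) * (3 * L) ^ n
      ≤ q ^ (n * n) * ((3 * L) ^ n + (2 * (2 * M + 1)) ^ n)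

/-- E6a. Deletion-contraction: at least as many subset sums as independent subfamilies. -/
def Stmt_E6a : Prop :=
  ∀ (n : ℕ) (ι : Type) [Fintype ι] (u : ι → Fin n → ℚ),
    (univ.filter fun S : Finset ι => LinearIndependent ℚ fun i : S => u i).card ≤ (FS u).card

/-- E6b. Few subset sums: some subspace of dimension `< d` contains all but fewer than `N`
members of the family (from E6a, greedy choice of independent `d`-tuples). -/
def Stmt_E6b : Prop :=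
  ∀ (n : ℕ) (ι : Type) [Fintype ι] (u : ι → Fin n → ℚ) (d N : ℕ),
    (FS u).card * d ^ d < N ^ d →
      ∃ W : Submodule ℚ (Fin n → ℚ), Module.finrank ℚ W < d ∧
        (univ.filter fun i => u i ∉ W).card < N

/-- E6c. A coset of `W` meets the box in at most `(2M+1)^(dim W)` points. -/
def Stmt_E6c : Prop :=
  ∀ (n M : ℕ) (W : Submodule ℚ (Fin n → ℚ)) (y : Fin n → ℚ),
    ((box n M).filter fun x => (fun j => (x j : ℚ)) - y ∈ W).card
      ≤ (2 * M + 1) ^ Module.finrank ℚ W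

/-- E6d. A nonempty progression is `a +` subset sums of a finite family, and has finitely many
elements. -/
def Stmt_E6d : Prop :=
  ∀ (n r : ℕ) (a : Fin n → ℤ) (v : Fin r → Fin n → ℤ) (K : Fin r → ℕ), (∀ i, 0 < K i) →
    ∃ (ι : Type) (_ : Fintype ι) (u : ι → Fin n → ℤ),
      {x : Fin n → ℤ | ∃ k : Fin r → ℕ, (∀ i, k i < K i) ∧ x = a + ∑ i, k i • v i} =
        {x : Fin n → ℤ | ∃ S : Finset ι, x = a + ∑ i ∈ S, u i}

/-- E6e. Encoding: the trace on the box of `a + FS(u_1..u_N) + W` is some `Yset` (if nonempty). -/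
def Stmt_E6e : Prop :=
  ∀ (n M N : ℕ) (W : Submodule ℚ (Fin n → ℚ)) (a : Fin n → ℚ) (u : Fin N → Fin n → ℚ),
    ((box n M).filter fun x => ∃ ε : Fin N → Bool,
      (fun j => (x j : ℚ)) - a - (∑ i, (if ε i then (1 : ℚ) else 0) • u i) ∈ W).Nonempty →
    ∃ T : Fin (1 + N + n) → (Fin N → Bool) × (Fin n → ℤ), (∀ i, (T i).2 ∈ box n M) ∧
      Yset n M N T = (box n M).filter fun x => ∃ ε : Fin N → Bool,
        (fun j => (x j : ℚ)) - a - (∑ i, (if ε i then (1 : ℚ) else 0) • u i) ∈ W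

/-- E6. Structure of progressions in the box (from E6b, E6c, E6d, E6e). -/
def Stmt_E6 : Prop :=
  ∀ (n M N d r : ℕ) (a : Fin n → ℤ) (v : Fin r → Fin n → ℤ) (K : Fin r → ℕ)
    (P : Set (Fin n → ℤ)),
    P = {x | ∃ k : Fin r → ℕ, (∀ i, k i < K i) ∧ x = a + ∑ i, k i • v i} →
    P.ncard * d ^ d < N ^ d → (P ∩ (box n M : Set (Fin n → ℤ))).Nonempty →
    ∃ T : Fin (1 + N + n) → (Fin N → Bool) × (Fin n → ℤ), (∀ i, (T i).2 ∈ box n M) ∧
      P ∩ (box n M : Set (Fin n → ℤ)) ⊆ (Yset n M N T : Set (Fin n → ℤ)) ∧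
      (Yset n M N T).card ≤ P.ncard * (2 * M + 1) ^ d

/-- E7a. Union bound for one fixed `Y` (from E1b and E4; `D₀^n H^n ≥ (2M+1)^n` is the density
assumption needed for E4). -/
def Stmt_E7a : Prop :=
  ∀ (M D₀ H L τ : ℕ), 1024 * D₀ ^ 4 ≤ 2 * M + 1 → 1 ≤ D₀ → 1 ≤ L → 2 * M + 1 ≤ D₀ * H →
    ∃ n₀ : ℕ, ∀ n : ℕ, n₀ ≤ n → ∀ (q : ℕ) [NeZero q], τ * n * L * M < q →
    ∀ Y : Finset (Fin n → ℤ), Y ⊆ box n M →
      (univ.filter fun Φ : Fin n → Fin n → ZMod q => H ^ n ≤ (Bohr n M q L Φ ∩ Y).card).card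
          * (H ^ n) ^ (τ * n) * L ^ (τ * n * n)
        ≤ 2 * Y.card ^ (τ * n) * 4 ^ (τ * n * n) * q ^ (n * n)

/-- E7. Existence of a good `Φ`: final counting statement (from E5a, E5c, E6, E7a).
For every `E ≥ 1` and arbitrarily large `n` there is a finite nonempty `A` in `ℤ^n` with
`|A + A| ≤ 20^n |A|` such that no progression `P` with `|P| ≤ E^n |A|` has `|A| ≤ E^n |A ∩ P|`. -/
def Stmt_E7 : Prop :=
  ∀ (E : ℕ), 1 ≤ E → ∃ n : ℕ, 1 ≤ n ∧ ∃ A : Finset (Fin n → ℤ), A.Nonempty ∧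
    (A + A).card ≤ 20 ^ n * A.card ∧
    ∀ (r : ℕ) (a : Fin n → ℤ) (v : Fin r → Fin n → ℤ) (K : Fin r → ℕ) (P : Set (Fin n → ℤ)),
      P = {x | ∃ k : Fin r → ℕ, (∀ i, k i < K i) ∧ x = a + ∑ i, k i • v i} →
      P.ncard ≤ E ^ n * A.card → ¬ (A.card ≤ E ^ n * ((A : Set (Fin n → ℤ)) ∩ P).ncard)

end

end Pool.Agent.PFRElem
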