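import Pool.Agent.PFRElem.Defs

/-!
# E1a, E1b: Fourier second moment
-/

set_option autoImplicit false

namespace Pool.Agent.PFRElem

open Finset
open scoped Classical Pointwise

namespace E1aAux

theorem char_sum {q : ℕ} [NeZero q] {ι : Type*} (s : Finset ι) (f : ι → ZMod q) :
    ZMod.stdAddChar (N := q) (∑ i ∈ s, f i) = ∏ i ∈ s, ZMod.stdAddChar (N := q) (f i) := by
  classical
  induction s using Finset.induction_on with
  | empty => simp
  | insert i s his ih => rw [Finset.sum_insert his, Finset.prod_insert his, AddChar.map_add_eq_mul,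
      ih]

/-- Sum of a character over all vectors. -/
theorem sum_char {q n : ℕ} [NeZero q] (v : Fin n → ZMod q) :
    ∑ φ : Fin n → ZMod q, ZMod.stdAddChar (φ ⬝ᵥ v) = if v = 0 then ((q : ℂ)) ^ n else 0 := by
  have h1 : ∀ φ : Fin n → ZMod q, ZMod.stdAddChar (φ ⬝ᵥ v) =
      ∏ i, ZMod.stdAddChar (N := q) (φ i * v i) := by
    intro φ
    unfold dotProduct
    rw [char_sum]
  simp only [h1]
  have h2 := Finset.prod_univ_sum (fun _ : Fin n => (Finset.univ : Finset (ZMod q)))
    (fun i t => ZMod.stdAddChar (N := q) (t * v i))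
  rw [Fintype.piFinset_univ] at h2
  rw [← h2]
  split_ifs with hv
  · subst hv
    simp [Finset.card_univ, ZMod.card]
  · obtain ⟨i, hi⟩ := Function.ne_iff.1 hv
    apply Finset.prod_eq_zero (Finset.mem_univ i)
    have h3 := AddChar.sum_mulShift (R := ZMod q) (R' := ℂ) (v i)
      (ZMod.isPrimitive_stdAddChar q)
    rw [if_neg (show ¬ v i = 0 from hi)] at h3
    rw [h3]
    simp

/-- Lower bound for a short exponential sum. -/
theorem short_sum {q L : ℕ} [NeZero q] {t : ZMod q}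
    (ht : 6 * (L : ℤ) * |t.valMinAbs| ≤ q) :
    (L : ℝ) / 2 ≤ ‖∑ k : Fin L, ZMod.stdAddChar (((k : ℕ) : ZMod q) * t)‖ := by
  have hq : (0 : ℝ) < q := by exact_mod_cast Nat.pos_of_ne_zero (NeZero.ne q)
  have h1 : ∀ k : Fin L, (ZMod.stdAddChar (((k : ℕ) : ZMod q) * t)) =
      Complex.exp (2 * Real.pi * Complex.I * (((k : ℕ) : ℤ) * t.valMinAbs : ℤ) / q) := by
    intro k
    rw [← ZMod.stdAddChar_coe]
    congr 1
    rw [Int.cast_mul, ZMod.coe_valMinAbs]
    push_cast
    rfl
  have h2 : ∀ k : Fin L, (1 : ℝ) / 2 ≤ (ZMod.stdAddChar (((k : ℕ) : ZMod q) * t)).re := by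
    intro k
    rw [h1 k]
    have e : (2 * Real.pi * Complex.I * (((k : ℕ) : ℤ) * t.valMinAbs : ℤ) / q : ℂ) =
        ((2 * Real.pi * ((k : ℕ) * t.valMinAbs) / q : ℝ) : ℂ) * Complex.I := by
      push_cast
      ring
    rw [e, Complex.exp_ofReal_mul_I_re]
    have h3 : |2 * Real.pi * ((k : ℕ) * (t.valMinAbs : ℝ)) / q| ≤ Real.pi / 3 := by
      rw [abs_div, abs_of_pos hq, div_le_iff₀ hq, abs_mul,
        abs_of_pos (show (0 : ℝ) < 2 * Real.pi by positivity), abs_mul, Nat.abs_cast]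
      have h4 : (6 * (L : ℝ) * |(t.valMinAbs : ℝ)|) ≤ q := by
        have := ht
        exact_mod_cast this
      have h5 : ((k : ℕ) : ℝ) ≤ L := by exact_mod_cast k.2.le
      have h6 : ((k : ℕ) : ℝ) * |(t.valMinAbs : ℝ)| ≤ L * |(t.valMinAbs : ℝ)| :=
        mul_le_mul_of_nonneg_right h5 (abs_nonneg _)
      nlinarith [Real.pi_pos]
    rw [← Real.cos_abs, ← Real.cos_pi_div_three]
    apply Real.cos_le_cos_of_nonneg_of_le_pi (abs_nonneg _) _ h3
    linarith [Real.pi_pos]
  calc (L : ℝ) / 2 = ∑ k : Fin L, (1 : ℝ) / 2 := by simp; ring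
    _ ≤ ∑ k : Fin L, (ZMod.stdAddChar (((k : ℕ) : ZMod q) * t)).re :=
        Finset.sum_le_sum fun k _ => h2 k
    _ = (∑ k : Fin L, ZMod.stdAddChar (((k : ℕ) : ZMod q) * t)).re := by
        rw [Complex.re_sum]
    _ ≤ _ := Complex.re_le_norm _

theorem fourier_count {q L n m : ℕ} [NeZero q] (hL : 1 ≤ L) (x : Fin m → Fin n → ZMod q)
    (hinj : Function.Injective
      (fun k : Fin m → Fin L => ∑ j, (((k j : ℕ) : ZMod q)) • x j)) :
    (Finset.univ.filter fun φ : Fin n → ZMod q =>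
      ∀ j, 6 * (L : ℤ) * |(φ ⬝ᵥ x j).valMinAbs| ≤ q).card * L ^ m ≤ 4 ^ m * q ^ n := by
  set F : (Fin n → ZMod q) → ℂ := fun φ =>
    ∏ j, ∑ k : Fin L, ZMod.stdAddChar (((k : ℕ) : ZMod q) * (φ ⬝ᵥ x j)) with hF
  set Y : (Fin m → Fin L) → (Fin n → ZMod q) := fun k => ∑ j, (((k j : ℕ) : ZMod q)) • x j with hY
  have hF1 : ∀ φ, F φ = ∑ k : Fin m → Fin L, ZMod.stdAddChar (φ ⬝ᵥ Y k) := by
    intro φ
    have h2 := Finset.prod_univ_sum (fun _ : Fin m => (Finset.univ : Finset (Fin L)))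
      (fun j k => ZMod.stdAddChar (((k : ℕ) : ZMod q) * (φ ⬝ᵥ x j)))
    rw [Fintype.piFinset_univ] at h2
    rw [hF]
    simp only
    rw [h2]
    refine Finset.sum_congr rfl fun k _ => ?_
    rw [← char_sum]
    congr 1
    rw [hY]
    simp only
    rw [dotProduct_sum]
    refine Finset.sum_congr rfl fun j _ => ?_
    rw [dotProduct_smul, smul_eq_mul]
  -- second moment
  have hsum : ∑ φ, ‖F φ‖ ^ 2 = (q : ℝ) ^ n * L ^ m := by
    have h1 : ∀ φ, ((‖F φ‖ ^ 2 : ℝ) : ℂ) = ∑ k : Fin m → Fin L, ∑ k' : Fin m → Fin L,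
        ZMod.stdAddChar (φ ⬝ᵥ (Y k - Y k')) := by
      intro φ
      rw [← Complex.normSq_eq_norm_sq, ← Complex.mul_conj, hF1 φ, map_sum,
        Finset.sum_mul_sum]
      refine Finset.sum_congr rfl fun k _ => Finset.sum_congr rfl fun k' _ => ?_
      rw [dotProduct_sub, AddChar.map_sub_eq_div, ← AddChar.map_neg_eq_conj,
        AddChar.map_neg_eq_inv, div_eq_mul_inv]
    have h2 : ((∑ φ, ‖F φ‖ ^ 2 : ℝ) : ℂ) = (q : ℂ) ^ n * L ^ m := by
      rw [Complex.ofReal_sum]
      simp only [h1]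
      rw [Finset.sum_comm]
      have h3 : ∀ k : Fin m → Fin L, ∑ φ : Fin n → ZMod q, ∑ k' : Fin m → Fin L,
          ZMod.stdAddChar (φ ⬝ᵥ (Y k - Y k')) = (q : ℂ) ^ n := by
        intro k
        rw [Finset.sum_comm]
        simp only [sum_char, sub_eq_zero]
        rw [Finset.sum_eq_single k]
        · rw [if_pos rfl]
        · intro k' _ hk'
          rw [if_neg]
          intro h
          exact hk' (hinj h).symm
        · intro h
          exact absurd (Finset.mem_univ k) h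
      simp only [h3, Finset.sum_const, Finset.card_univ, Fintype.card_fun, Fintype.card_fin,
        nsmul_eq_mul]
      push_cast
      ring
    exact_mod_cast h2
  have hL0 : (0 : ℝ) < L := by exact_mod_cast hL
  have hlow : ∀ φ : Fin n → ZMod q, (∀ j, 6 * (L : ℤ) * |(φ ⬝ᵥ x j).valMinAbs| ≤ q) →
      ((L : ℝ) ^ 2 / 4) ^ m ≤ ‖F φ‖ ^ 2 := by
    intro φ hφ
    rw [hF]
    simp only
    rw [norm_prod, ← Finset.prod_pow]
    calc ((L : ℝ) ^ 2 / 4) ^ m = ∏ j : Fin m, ((L : ℝ) / 2) ^ 2 := by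
          rw [Finset.prod_const, Finset.card_univ, Fintype.card_fin]
          congr 1
          ring
      _ ≤ _ := Finset.prod_le_prod (fun _ _ => by positivity) fun j _ =>
          pow_le_pow_left₀ (by positivity) (short_sum (hφ j)) 2
  have h3 : ((Finset.univ.filter fun φ : Fin n → ZMod q =>
      ∀ j, 6 * (L : ℤ) * |(φ ⬝ᵥ x j).valMinAbs| ≤ q).card : ℝ) * ((L : ℝ) ^ 2 / 4) ^ m ≤
      (q : ℝ) ^ n * L ^ m := by
    rw [← hsum, ← nsmul_eq_mul, ← Finset.sum_const]
    refine (Finset.sum_le_sum fun φ hφ => hlow φ (Finset.mem_filter.1 hφ).2).trans ?_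
    exact Finset.sum_le_sum_of_subset_of_nonneg (Finset.filter_subset _ _)
      fun _ _ _ => by positivity
  have h4 : ((Finset.univ.filter fun φ : Fin n → ZMod q =>
      ∀ j, 6 * (L : ℤ) * |(φ ⬝ᵥ x j).valMinAbs| ≤ q).card : ℝ) * (L : ℝ) ^ m ≤
      4 ^ m * (q : ℝ) ^ n := by
    have h5 : ((L : ℝ) ^ 2 / 4) ^ m * (4 ^ m) = (L : ℝ) ^ m * L ^ m := by
      rw [← mul_pow, ← mul_pow]
      congr 1
      ring
    have h6 : (0 : ℝ) < (L : ℝ) ^ m := by positivity
    have h7 : (0 : ℝ) < (4 : ℝ) ^ m := by positivity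
    refine le_of_mul_le_mul_right ?_ h6
    calc _ = ((Finset.univ.filter fun φ : Fin n → ZMod q =>
          ∀ j, 6 * (L : ℤ) * |(φ ⬝ᵥ x j).valMinAbs| ≤ q).card : ℝ) *
            (((L : ℝ) ^ 2 / 4) ^ m) * 4 ^ m := by
          rw [mul_assoc, mul_assoc, h5]
      _ ≤ (q : ℝ) ^ n * L ^ m * 4 ^ m := mul_le_mul_of_nonneg_right h3 h7.le
      _ = _ := by ring
  exact_mod_cast h4

end E1aAux

theorem E1a : Stmt_E1a := by
  intro n m M q L _ hL hq x hx hdis
  have hM : ∀ j i, |x j i| ≤ M := by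
    intro j i
    have h := hx j
    unfold box at h
    rw [Fintype.mem_piFinset] at h
    have := h i
    rw [Finset.mem_Icc] at this
    exact abs_le.2 this
  have hinj : Function.Injective (fun k : Fin m → Fin L =>
      ∑ j, (((k j : ℕ) : ZMod q)) • (fun i => (x j i : ZMod q))) := by
    intro k k' hkk
    simp only at hkk
    have hb : ∑ j, (((k j : ℕ) : ℤ) - ((k' j : ℕ) : ℤ)) • x j = 0 := by
      funext i
      rw [Finset.sum_apply, Pi.zero_apply]
      have h1 := congrFun hkk i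
      simp only [Finset.sum_apply, Pi.smul_apply, smul_eq_mul] at h1
      have h2 : ((∑ j, (((k j : ℕ) : ℤ) - ((k' j : ℕ) : ℤ)) * x j i : ℤ) : ZMod q) = 0 := by
        push_cast
        simp only [sub_mul, Finset.sum_sub_distrib]
        rw [h1, sub_self]
      rw [ZMod.intCast_zmod_eq_zero_iff_dvd] at h2
      simp only [Pi.smul_apply, smul_eq_mul]
      apply Int.eq_zero_of_abs_lt_dvd h2
      calc |∑ j, (((k j : ℕ) : ℤ) - ((k' j : ℕ) : ℤ)) * x j i|
          ≤ ∑ j, |(((k j : ℕ) : ℤ) - ((k' j : ℕ) : ℤ)) * x j i| := Finset.abs_sum_le_sum_abs _ _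
        _ ≤ ∑ j : Fin m, (L : ℤ) * M := by
            refine Finset.sum_le_sum fun j _ => ?_
            rw [abs_mul]
            refine mul_le_mul ?_ (hM j i) (abs_nonneg _) (by positivity)
            have h3 := (k j).2
            have h4 := (k' j).2
            rw [abs_le]
            constructor <;> omega
        _ = m * L * M := by
            rw [Finset.sum_const, Finset.card_univ, Fintype.card_fin, nsmul_eq_mul]
            ring
        _ < q := by exact_mod_cast hq
    have h0 := hdis (fun j => ((k j : ℕ) : ℤ) - ((k' j : ℕ) : ℤ)) (fun j => by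
      have h3 := (k j).2
      have h4 := (k' j).2
      rw [abs_lt]
      constructor <;> omega) hb
    funext j
    have h1 := congrFun h0 j
    simp only [Pi.zero_apply] at h1
    apply Fin.ext
    omega
  have h := E1aAux.fourier_count hL (fun j i => (x j i : ZMod q)) hinj
  have e : (univ.filter fun φ : Fin n → ZMod q => ∀ j, small q L (dot q φ (x j))) =
      (univ.filter fun φ : Fin n → ZMod q =>
        ∀ j, 6 * (L : ℤ) * |(φ ⬝ᵥ (fun i => (x j i : ZMod q))).valMinAbs| ≤ q) := by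
    ext φ
    simp only [Finset.mem_filter]
    exact Iff.rfl
  rw [e]
  exact h

theorem E1b : Stmt_E1b := by
  intro n m M q L _ hL hq x hx hdis
  have h := E1a n m M q L hL hq x hx hdis
  have e : (univ.filter fun Φ : Fin n → Fin n → ZMod q => ∀ j, x j ∈ Bohr n M q L Φ) =
      Fintype.piFinset fun _ : Fin n => (univ.filter fun φ : Fin n → ZMod q =>
        ∀ j, small q L (dot q φ (x j))) := by
    ext Φ
    rw [Fintype.mem_piFinset, Finset.mem_filter]
    unfold Bohr
    simp only [Finset.mem_filter, Finset.mem_univ, true_and]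
    constructor
    · intro h i j
      exact (h j).2 i
    · intro h j
      exact ⟨hx j, fun i => h i j⟩
  rw [e, Fintype.card_piFinset, Finset.prod_const, Finset.card_univ, Fintype.card_fin]
  calc _ = ((univ.filter fun φ : Fin n → ZMod q => ∀ j, small q L (dot q φ (x j))).card *
        L ^ m) ^ n := by rw [mul_pow, ← pow_mul]
    _ ≤ (4 ^ m * q ^ n) ^ n := Nat.pow_le_pow_left h n
    _ = _ := by rw [mul_pow, ← pow_mul, ← pow_mul]

end Pool.Agent.PFRElem
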