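import Pool.Agent.PFRElem.Defs

/-!
# E2: one-dimensional anticoncentration (helper46)
-/

set_option autoImplicit false

namespace Pool.Agent.PFRElem

open Finset
open scoped Classical Pointwise

noncomputable section

namespace E2

/-- Weighted variance inequality with two distinguished points. -/
theorem var_ineq (I : Finset ℤ) (μ g : ℤ → ℝ) (hμ : ∀ t, 0 ≤ μ t) (t₁ t₂ : ℤ) (h₁ : t₁ ∈ I)
    (h₂ : t₂ ∈ I) (h : t₁ ≠ t₂) :
    (∑ t ∈ I, μ t * g t) ^ 2 + μ t₁ * μ t₂ * (g t₁ - g t₂) ^ 2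
      ≤ (∑ t ∈ I, μ t) * ∑ t ∈ I, μ t * g t ^ 2 := by
  have e1 : ∑ x ∈ I ×ˢ I, μ x.1 * μ x.2 * (g x.1 - g x.2) ^ 2
      = 2 * ((∑ t ∈ I, μ t) * (∑ t ∈ I, μ t * g t ^ 2) - (∑ t ∈ I, μ t * g t) ^ 2) := by
    have a1 : ∑ x ∈ I ×ˢ I, μ x.1 * (μ x.2 * g x.2 ^ 2)
        = (∑ t ∈ I, μ t) * (∑ t ∈ I, μ t * g t ^ 2) := by
      rw [Finset.sum_mul_sum, Finset.sum_product]
    have a2 : ∑ x ∈ I ×ˢ I, (μ x.1 * g x.1 ^ 2) * μ x.2
        = (∑ t ∈ I, μ t * g t ^ 2) * (∑ t ∈ I, μ t) := by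
      rw [Finset.sum_mul_sum, Finset.sum_product]
    have a3 : ∑ x ∈ I ×ˢ I, (μ x.1 * g x.1) * (μ x.2 * g x.2)
        = (∑ t ∈ I, μ t * g t) * (∑ t ∈ I, μ t * g t) := by
      rw [Finset.sum_mul_sum, Finset.sum_product]
    have a4 : ∑ x ∈ I ×ˢ I, μ x.1 * μ x.2 * (g x.1 - g x.2) ^ 2
        = ∑ x ∈ I ×ˢ I, μ x.1 * (μ x.2 * g x.2 ^ 2) + ∑ x ∈ I ×ˢ I, (μ x.1 * g x.1 ^ 2) * μ x.2
          - 2 * ∑ x ∈ I ×ˢ I, (μ x.1 * g x.1) * (μ x.2 * g x.2) := by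
      rw [Finset.mul_sum, ← Finset.sum_add_distrib, ← Finset.sum_sub_distrib]
      refine Finset.sum_congr rfl fun x _ => ?_
      ring
    rw [a4, a1, a2, a3]
    ring
  have e2 : ∑ x ∈ ({(t₁, t₂), (t₂, t₁)} : Finset (ℤ × ℤ)), μ x.1 * μ x.2 * (g x.1 - g x.2) ^ 2
      ≤ ∑ x ∈ I ×ˢ I, μ x.1 * μ x.2 * (g x.1 - g x.2) ^ 2 := by
    apply Finset.sum_le_sum_of_subset_of_nonneg
    · intro x hx
      simp only [Finset.mem_insert, Finset.mem_singleton] at hx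
      rcases hx with rfl | rfl <;> simp [h₁, h₂]
    · intro x _ _
      exact mul_nonneg (mul_nonneg (hμ _) (hμ _)) (sq_nonneg _)
  rw [Finset.sum_pair (by
    intro hh
    exact h (Prod.mk.inj hh).1), e1] at e2
  simp only at e2
  nlinarith [e2]

theorem var_ineq' (I : Finset ℤ) (μ g : ℤ → ℝ) (hμ : ∀ t, 0 ≤ μ t) :
    (∑ t ∈ I, μ t * g t) ^ 2 ≤ (∑ t ∈ I, μ t) * ∑ t ∈ I, μ t * g t ^ 2 := by
  have e1 : ∑ x ∈ I ×ˢ I, μ x.1 * μ x.2 * (g x.1 - g x.2) ^ 2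
      = 2 * ((∑ t ∈ I, μ t) * (∑ t ∈ I, μ t * g t ^ 2) - (∑ t ∈ I, μ t * g t) ^ 2) := by
    have a1 : ∑ x ∈ I ×ˢ I, μ x.1 * (μ x.2 * g x.2 ^ 2)
        = (∑ t ∈ I, μ t) * (∑ t ∈ I, μ t * g t ^ 2) := by
      rw [Finset.sum_mul_sum, Finset.sum_product]
    have a2 : ∑ x ∈ I ×ˢ I, (μ x.1 * g x.1 ^ 2) * μ x.2
        = (∑ t ∈ I, μ t * g t ^ 2) * (∑ t ∈ I, μ t) := by
      rw [Finset.sum_mul_sum, Finset.sum_product]
    have a3 : ∑ x ∈ I ×ˢ I, (μ x.1 * g x.1) * (μ x.2 * g x.2)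
        = (∑ t ∈ I, μ t * g t) * (∑ t ∈ I, μ t * g t) := by
      rw [Finset.sum_mul_sum, Finset.sum_product]
    have a4 : ∑ x ∈ I ×ˢ I, μ x.1 * μ x.2 * (g x.1 - g x.2) ^ 2
        = ∑ x ∈ I ×ˢ I, μ x.1 * (μ x.2 * g x.2 ^ 2) + ∑ x ∈ I ×ˢ I, (μ x.1 * g x.1 ^ 2) * μ x.2
          - 2 * ∑ x ∈ I ×ˢ I, (μ x.1 * g x.1) * (μ x.2 * g x.2) := by
      rw [Finset.mul_sum, ← Finset.sum_add_distrib, ← Finset.sum_sub_distrib]
      refine Finset.sum_congr rfl fun x _ => ?_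
      ring
    rw [a4, a1, a2, a3]
    ring
  have e2 : 0 ≤ ∑ x ∈ I ×ˢ I, μ x.1 * μ x.2 * (g x.1 - g x.2) ^ 2 :=
    Finset.sum_nonneg fun x _ => mul_nonneg (mul_nonneg (hμ _) (hμ _)) (sq_nonneg _)
  linarith

variable {p : ℕ} [hp : Fact p.Prime]

/-- One step: add `b * t`, `t` of weight `μ`. -/
def step (I : Finset ℤ) (μ : ℤ → ℝ) (c : ZMod p) (f : ZMod p → ℝ) (x : ZMod p) : ℝ :=
  ∑ t ∈ I, μ t * f (x - c * (t : ZMod p))

def Psi (f : ZMod p → ℝ) : ℝ := ∑ x, f x ^ 2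

theorem Psi_step_le (I : Finset ℤ) (μ : ℤ → ℝ) (hμ : ∀ t, 0 ≤ μ t) (hμ1 : ∑ t ∈ I, μ t ≤ 1)
    (c : ZMod p) (f : ZMod p → ℝ) : Psi (step I μ c f) ≤ Psi f := by
  have h0 : 0 ≤ ∑ t ∈ I, μ t := Finset.sum_nonneg fun t _ => hμ t
  have h1 : Psi (step I μ c f) ≤ ∑ x, (∑ t ∈ I, μ t) * ∑ t ∈ I, μ t * f (x - c * (t : ZMod p)) ^ 2 := by
    refine Finset.sum_le_sum fun x _ => ?_
    exact var_ineq' I μ (fun t => f (x - c * (t : ZMod p))) hμ
  have h2 : ∑ x, (∑ t ∈ I, μ t) * ∑ t ∈ I, μ t * f (x - c * (t : ZMod p)) ^ 2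
      = (∑ t ∈ I, μ t) * ((∑ t ∈ I, μ t) * Psi f) := by
    rw [← Finset.mul_sum, Finset.sum_comm]
    congr 1
    rw [Finset.sum_mul]
    refine Finset.sum_congr rfl fun t _ => ?_
    rw [← Finset.mul_sum]
    congr 1
    exact (Equiv.subRight (c * (t : ZMod p))).sum_comp (fun x => f x ^ 2)
  have h3 : 0 ≤ Psi f := Finset.sum_nonneg fun x _ => sq_nonneg _
  rw [h2] at h1
  calc Psi (step I μ c f) ≤ _ := h1
    _ ≤ 1 * (1 * Psi f) := by gcongr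
    _ = Psi f := by ring

theorem Psi_step_bal (I : Finset ℤ) (μ : ℤ → ℝ) (hμ : ∀ t, 0 ≤ μ t) (hμ1 : ∑ t ∈ I, μ t ≤ 1)
    (c : ZMod p) (f : ZMod p → ℝ) (t₁ t₂ : ℤ) (h₁ : t₁ ∈ I) (h₂ : t₂ ∈ I) (h : t₁ ≠ t₂) :
    Psi (step I μ c f) + μ t₁ * μ t₂ * ∑ x, (f (x - c * (t₁ : ZMod p)) - f (x - c * (t₂ : ZMod p))) ^ 2
      ≤ Psi f := by
  have h0 : 0 ≤ ∑ t ∈ I, μ t := Finset.sum_nonneg fun t _ => hμ t
  have h1 : Psi (step I μ c f) + μ t₁ * μ t₂ * ∑ x, (f (x - c * (t₁ : ZMod p)) - f (x - c * (t₂ : ZMod p))) ^ 2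
      ≤ ∑ x, (∑ t ∈ I, μ t) * ∑ t ∈ I, μ t * f (x - c * (t : ZMod p)) ^ 2 := by
    rw [Finset.mul_sum, Psi, ← Finset.sum_add_distrib]
    refine Finset.sum_le_sum fun x _ => ?_
    exact var_ineq I μ (fun t => f (x - c * (t : ZMod p))) hμ t₁ t₂ h₁ h₂ h
  have h2 : ∑ x, (∑ t ∈ I, μ t) * ∑ t ∈ I, μ t * f (x - c * (t : ZMod p)) ^ 2
      = (∑ t ∈ I, μ t) * ((∑ t ∈ I, μ t) * Psi f) := by
    rw [← Finset.mul_sum, Finset.sum_comm]
    congr 1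
    rw [Finset.sum_mul]
    refine Finset.sum_congr rfl fun t _ => ?_
    rw [← Finset.mul_sum]
    congr 1
    exact (Equiv.subRight (c * (t : ZMod p))).sum_comp (fun x => f x ^ 2)
  have h3 : 0 ≤ Psi f := Finset.sum_nonneg fun x _ => sq_nonneg _
  rw [h2] at h1
  calc _ ≤ _ := h1
    _ ≤ 1 * (1 * Psi f) := by gcongr
    _ = Psi f := by ring

/-- The walk lemma. -/
theorem walk (f : ZMod p → ℝ) (hf : ∀ x, 0 ≤ f x) (hf1 : ∑ x, f x ≤ 1) (h : ZMod p) (hh : h ≠ 0)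
    (Q : ℝ) (hQ : 0 < Q) (hQp : 2 < Q * p) (x₀ : ZMod p) (hx₀ : f x₀ = Q) :
    Q ^ 3 / 8 ≤ ∑ x, (f x - f (x + h)) ^ 2 := by
  -- injectivity of `i ↦ x₀ + i h` for `i < p`
  have inj : ∀ i j : ℕ, i < p → j < p → x₀ + (i : ZMod p) * h = x₀ + (j : ZMod p) * h → i = j := by
    intro i j hi hj hij
    have h1 : (i : ZMod p) * h = (j : ZMod p) * h := add_left_cancel hij
    have h2 : (i : ZMod p) = (j : ZMod p) := mul_right_cancel₀ hh h1
    have h3 := (ZMod.natCast_eq_natCast_iff' i j p).1 h2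
    rwa [Nat.mod_eq_of_lt hi, Nat.mod_eq_of_lt hj] at h3
  -- number of steps with large value
  have cnt : ∀ r : ℕ, r ≤ p → (∀ i < r, Q / 2 ≤ f (x₀ + (i : ZMod p) * h)) → r * (Q / 2) ≤ 1 := by
    intro r hr hi
    have h1 : ∑ i ∈ range r, f (x₀ + (i : ZMod p) * h) ≤ ∑ x, f x := by
      rw [← Finset.sum_image (s := range r) (g := fun i : ℕ => x₀ + (i : ZMod p) * h) (f := f)]
      · exact Finset.sum_le_sum_of_subset_of_nonneg (Finset.subset_univ _) fun x _ _ => hf x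
      · intro i hi' j hj' hij
        simp only [Finset.coe_range, Set.mem_Iio] at hi' hj'
        exact inj i j (lt_of_lt_of_le hi' hr) (lt_of_lt_of_le hj' hr) hij
    have h2 : ∑ i ∈ range r, (Q / 2) ≤ ∑ i ∈ range r, f (x₀ + (i : ZMod p) * h) :=
      Finset.sum_le_sum fun i hi' => hi i (Finset.mem_range.1 hi')
    rw [Finset.sum_const, Finset.card_range, nsmul_eq_mul] at h2
    linarith
  have ex : ∃ r : ℕ, r < p ∧ f (x₀ + (r : ZMod p) * h) < Q / 2 := by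
    by_contra hcon
    push Not at hcon
    have := cnt p le_rfl hcon
    nlinarith
  -- minimal one
  let r := Nat.find ex
  have hr : r < p ∧ f (x₀ + (r : ZMod p) * h) < Q / 2 := Nat.find_spec ex
  have hmin : ∀ i < r, Q / 2 ≤ f (x₀ + (i : ZMod p) * h) := by
    intro i hi
    have := Nat.find_min ex hi
    push Not at this
    exact this (lt_trans hi hr.1)
  have hrQ : (r : ℝ) * (Q / 2) ≤ 1 := cnt r hr.1.le hmin
  have hr0 : 0 < r := by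
    rcases Nat.eq_zero_or_pos r with h0 | h0
    · exfalso
      have := hr.2
      rw [h0] at this
      simp only [Nat.cast_zero, zero_mul, add_zero] at this
      rw [hx₀] at this
      linarith
    · exact h0
  have tel : ∑ i ∈ range r, (f (x₀ + (i : ZMod p) * h) - f (x₀ + ((i + 1 : ℕ) : ZMod p) * h))
      = f x₀ - f (x₀ + (r : ZMod p) * h) := by
    rw [Finset.sum_range_sub' (fun i : ℕ => f (x₀ + (i : ZMod p) * h))]
    simp
  have cs : (∑ i ∈ range r, (f (x₀ + (i : ZMod p) * h) - f (x₀ + ((i + 1 : ℕ) : ZMod p) * h))) ^ 2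
      ≤ r * ∑ i ∈ range r, (f (x₀ + (i : ZMod p) * h) - f (x₀ + ((i + 1 : ℕ) : ZMod p) * h)) ^ 2 := by
    have := sq_sum_le_card_mul_sum_sq (s := range r)
      (f := fun i : ℕ => (f (x₀ + (i : ZMod p) * h) - f (x₀ + ((i + 1 : ℕ) : ZMod p) * h)))
    simpa using this
  have sub : ∑ i ∈ range r, (f (x₀ + (i : ZMod p) * h) - f (x₀ + ((i + 1 : ℕ) : ZMod p) * h)) ^ 2
      ≤ ∑ x, (f x - f (x + h)) ^ 2 := by
    have h1 : ∑ i ∈ range r, (f (x₀ + (i : ZMod p) * h) - f (x₀ + ((i + 1 : ℕ) : ZMod p) * h)) ^ 2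
        = ∑ i ∈ range r, (fun x => (f x - f (x + h)) ^ 2) (x₀ + (i : ZMod p) * h) := by
      refine Finset.sum_congr rfl fun i _ => ?_
      simp only
      congr 3
      push_cast
      ring
    rw [h1, ← Finset.sum_image (s := range r) (g := fun i : ℕ => x₀ + (i : ZMod p) * h)
      (f := fun x => (f x - f (x + h)) ^ 2)]
    · exact Finset.sum_le_sum_of_subset_of_nonneg (Finset.subset_univ _) fun x _ _ => sq_nonneg _
    · intro i hi' j hj' hij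
      simp only [Finset.coe_range, Set.mem_Iio] at hi' hj'
      exact inj i j (lt_trans hi' hr.1) (lt_trans hj' hr.1) hij
  rw [tel, hx₀] at cs
  have h4 : Q / 2 < Q - f (x₀ + (r : ZMod p) * h) := by linarith [hr.2]
  have h5 : (Q / 2) ^ 2 ≤ r * ∑ x, (f x - f (x + h)) ^ 2 := by
    have hr0' : (0 : ℝ) ≤ r := Nat.cast_nonneg r
    calc (Q / 2) ^ 2 ≤ (Q - f (x₀ + (r : ZMod p) * h)) ^ 2 := by
          apply pow_le_pow_left₀ (by positivity) h4.le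
      _ ≤ _ := cs
      _ ≤ _ := mul_le_mul_of_nonneg_left sub hr0'
  have hS : 0 ≤ ∑ x, (f x - f (x + h)) ^ 2 := Finset.sum_nonneg fun x _ => sq_nonneg _
  -- multiply by Q/2
  have h6 : (Q / 2) ^ 2 * (Q / 2) ≤ (r * (Q / 2)) * ∑ x, (f x - f (x + h)) ^ 2 := by
    nlinarith
  nlinarith

theorem Psi_le_max (f : ZMod p → ℝ) (hf : ∀ x, 0 ≤ f x) (hf1 : ∑ x, f x ≤ 1) :
    ∃ x₀, Psi f ≤ f x₀ := by
  obtain ⟨x₀, -, hx₀⟩ := Finset.exists_max_image (univ : Finset (ZMod p)) f ⟨0, Finset.mem_univ _⟩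
  refine ⟨x₀, ?_⟩
  calc Psi f = ∑ x, f x * f x := by simp [Psi, sq]
    _ ≤ ∑ x, f x₀ * f x := by
        refine Finset.sum_le_sum fun x _ => mul_le_mul_of_nonneg_right (hx₀ x (Finset.mem_univ _)) (hf x)
    _ = f x₀ * ∑ x, f x := by rw [Finset.mul_sum]
    _ ≤ f x₀ * 1 := mul_le_mul_of_nonneg_left hf1 (hf x₀)
    _ = f x₀ := mul_one _

/-- Decrease at a balanced step. -/
theorem Psi_dec (I : Finset ℤ) (μ : ℤ → ℝ) (hμ : ∀ t, 0 ≤ μ t) (hμ1 : ∑ t ∈ I, μ t ≤ 1)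
    (c : ZMod p) (hc : c ≠ 0) (f : ZMod p → ℝ) (hf : ∀ x, 0 ≤ f x) (hf1 : ∑ x, f x ≤ 1)
    (t₁ t₂ : ℤ) (h₁ : t₁ ∈ I) (h₂ : t₂ ∈ I) (h : (t₁ : ZMod p) ≠ (t₂ : ZMod p)) (η : ℝ) (hη : 0 ≤ η)
    (m₁ : η ≤ μ t₁) (m₂ : η ≤ μ t₂) (δ : ℝ) (hδ : 0 < δ) (hδp : 2 < δ * p)
    (hΨ : δ ≤ Psi f) :
    Psi (step I μ c f) + η ^ 2 * (δ ^ 3 / 8) ≤ Psi f := by
  have hne : t₁ ≠ t₂ := fun e => h (by rw [e])
  have h1 := Psi_step_bal I μ hμ hμ1 c f t₁ t₂ h₁ h₂ hne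
  obtain ⟨x₀, hx₀⟩ := Psi_le_max f hf hf1
  have hQ : δ ≤ f x₀ := hΨ.trans hx₀
  have hp0 : (0 : ℝ) < p := by exact_mod_cast hp.out.pos
  have h2 := walk f hf hf1 (c * (t₁ : ZMod p) - c * (t₂ : ZMod p)) (by
    rw [← mul_sub]
    exact mul_ne_zero hc (sub_ne_zero.2 h)) (f x₀) (by linarith) (by nlinarith) x₀ rfl
  have h3 : ∑ x, (f (x - c * (t₁ : ZMod p)) - f (x - c * (t₂ : ZMod p))) ^ 2
      = ∑ x, (f x - f (x + (c * (t₁ : ZMod p) - c * (t₂ : ZMod p)))) ^ 2 := by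
    rw [← (Equiv.subRight (c * (t₁ : ZMod p))).sum_comp
      (fun x => (f x - f (x + (c * (t₁ : ZMod p) - c * (t₂ : ZMod p)))) ^ 2)]
    refine Finset.sum_congr rfl fun x _ => ?_
    simp only [Equiv.subRight_apply]
    congr 3
    ring
  rw [h3] at h1
  have h4 : δ ^ 3 / 8 ≤ (f x₀) ^ 3 / 8 := by
    have := pow_le_pow_left₀ hδ.le hQ 3
    linarith
  have h5 : η ^ 2 ≤ μ t₁ * μ t₂ := by
    rw [sq]
    exact mul_le_mul m₁ m₂ hη (hμ _)
  have h6 : η ^ 2 * (δ ^ 3 / 8) ≤ μ t₁ * μ t₂ * ∑ x, (f x - f (x + (c * (t₁ : ZMod p) - c * (t₂ : ZMod p)))) ^ 2 := by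
    apply mul_le_mul h5 (h4.trans h2) (by positivity)
    exact mul_nonneg (hμ _) (hμ _)
  linarith

/-- Law of the sum modulo `p`. -/
def law (I : Finset ℤ) {K : ℕ} (μ : Fin K → ℤ → ℝ) (b : Fin K → ℤ) (x : ZMod p) : ℝ :=
  ∑ t ∈ Fintype.piFinset fun _ : Fin K => I,
    if ∑ j, (b j : ZMod p) * (t j : ZMod p) = x then ∏ j, μ j (t j) else 0

theorem law_nonneg (I : Finset ℤ) {K : ℕ} (μ : Fin K → ℤ → ℝ) (hμ : ∀ j t, 0 ≤ μ j t)
    (b : Fin K → ℤ) (x : ZMod p) : 0 ≤ law I μ b x := by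
  refine Finset.sum_nonneg fun t _ => ?_
  split_ifs
  · exact Finset.prod_nonneg fun j _ => hμ j _
  · exact le_rfl

theorem law_sum (I : Finset ℤ) {K : ℕ} (μ : Fin K → ℤ → ℝ) (hμ : ∀ j t, 0 ≤ μ j t)
    (hμ1 : ∀ j, ∑ t ∈ I, μ j t ≤ 1) (b : Fin K → ℤ) : ∑ x : ZMod p, law I μ b x ≤ 1 := by
  unfold law
  rw [Finset.sum_comm]
  have : ∀ t ∈ Fintype.piFinset fun _ : Fin K => I,
      (∑ x : ZMod p, if ∑ j, (b j : ZMod p) * (t j : ZMod p) = x then ∏ j, μ j (t j) else 0)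
        = ∏ j, μ j (t j) := by
    intro t _
    rw [Finset.sum_ite_eq]
    simp
  rw [Finset.sum_congr rfl this, ← Finset.prod_univ_sum (fun _ : Fin K => I) (fun j t => μ j t)]
  exact Finset.prod_le_one (fun j _ => Finset.sum_nonneg fun t _ => hμ j t) fun j _ => hμ1 j

theorem sum_piFinset_succ (I : Finset ℤ) {K : ℕ} (F : (Fin (K + 1) → ℤ) → ℝ) :
    ∑ t ∈ Fintype.piFinset fun _ : Fin (K + 1) => I, F t
      = ∑ a ∈ I, ∑ t ∈ Fintype.piFinset fun _ : Fin K => I, F (Fin.cons a t) := by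
  rw [← Finset.sum_product']
  symm
  refine Finset.sum_bij' (fun x _ => Fin.cons x.1 x.2) (fun t _ => (t 0, Fin.tail t)) ?_ ?_ ?_ ?_ ?_
  · intro x hx
    rw [Finset.mem_product, Fintype.mem_piFinset] at hx
    rw [Fintype.mem_piFinset]
    intro i
    refine Fin.cases ?_ ?_ i
    · simpa using hx.1
    · intro j
      simpa using hx.2 j
  · intro t ht
    rw [Fintype.mem_piFinset] at ht
    rw [Finset.mem_product, Fintype.mem_piFinset]
    exact ⟨ht 0, fun j => ht j.succ⟩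
  · intro x _
    simp
  · intro t _
    simp
  · intro x _
    rfl

theorem law_succ (I : Finset ℤ) {K : ℕ} (μ : Fin (K + 1) → ℤ → ℝ) (b : Fin (K + 1) → ℤ) :
    law (p := p) I μ b = step I (μ 0) (b 0 : ZMod p) (law I (fun j => μ j.succ) (fun j => b j.succ)) := by
  funext x
  unfold law step
  rw [sum_piFinset_succ]
  refine Finset.sum_congr rfl fun a _ => ?_
  rw [Finset.mul_sum]
  refine Finset.sum_congr rfl fun t _ => ?_
  rw [Fin.sum_univ_succ, Fin.prod_univ_succ]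
  simp only [Fin.cons_zero, Fin.cons_succ]
  by_cases hx : ∑ j : Fin K, (b j.succ : ZMod p) * (t j : ZMod p) = x - (b 0 : ZMod p) * (a : ZMod p)
  · rw [if_pos hx, if_pos (by rw [hx]; ring)]
  · rw [if_neg hx, if_neg, mul_zero]
    intro h
    exact hx (by rw [← h]; ring)

/-- Main induction. -/
theorem main_ind (I : Finset ℤ) (η : ℝ) (hη : 0 ≤ η) (δ : ℝ) (hδ : 0 < δ) (hδp : 2 < δ * p)
    (hI : ∀ t₁ ∈ I, ∀ t₂ ∈ I, t₁ ≠ t₂ → (t₁ : ZMod p) ≠ (t₂ : ZMod p)) :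
    ∀ (K : ℕ) (μ : Fin K → ℤ → ℝ), (∀ j t, 0 ≤ μ j t) → (∀ j, ∑ t ∈ I, μ j t ≤ 1) →
      ∀ b : Fin K → ℤ, (∀ j, (b j : ZMod p) ≠ 0) →
      δ ≤ Psi (law (p := p) I μ b) →
      Psi (law (p := p) I μ b) + ((univ.filter fun j => ∃ t₁ ∈ I, ∃ t₂ ∈ I, t₁ ≠ t₂ ∧ η ≤ μ j t₁ ∧
        η ≤ μ j t₂).card : ℝ) * (η ^ 2 * (δ ^ 3 / 8)) ≤ 1 := by
  intro K
  induction K with
  | zero =>
    intro μ hμ hμ1 b hb hΨ
    have h0 : (univ.filter fun j : Fin 0 => ∃ t₁ ∈ I, ∃ t₂ ∈ I, t₁ ≠ t₂ ∧ η ≤ μ j t₁ ∧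
        η ≤ μ j t₂) = ∅ := by
      apply Finset.eq_empty_of_forall_notMem
      intro j
      exact j.elim0
    rw [h0]
    simp only [Finset.card_empty, Nat.cast_zero, zero_mul, add_zero]
    have h1 := law_sum (p := p) I μ hμ hμ1 b
    obtain ⟨x₀, hx₀⟩ := Psi_le_max (law (p := p) I μ b) (law_nonneg I μ hμ b) h1
    refine hx₀.trans (le_trans ?_ h1)
    exact Finset.single_le_sum (f := law (p := p) I μ b) (fun x _ => law_nonneg I μ hμ b x)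
      (Finset.mem_univ x₀)
  | succ K ih =>
    intro μ hμ hμ1 b hb hΨ
    set f := law (p := p) I (fun j => μ j.succ) (fun j => b j.succ) with hf
    have hs : law (p := p) I μ b = step I (μ 0) (b 0 : ZMod p) f := law_succ I μ b
    have hle : Psi (law (p := p) I μ b) ≤ Psi f := by
      rw [hs]
      exact Psi_step_le I (μ 0) (hμ 0) (hμ1 0) _ f
    have hΨf : δ ≤ Psi f := hΨ.trans hle
    have ih' := ih (fun j => μ j.succ) (fun j => hμ j.succ) (fun j => hμ1 j.succ)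
      (fun j => b j.succ) (fun j => hb j.succ) hΨf
    set P : Fin (K + 1) → Prop := fun j => ∃ t₁ ∈ I, ∃ t₂ ∈ I, t₁ ≠ t₂ ∧ η ≤ μ j t₁ ∧ η ≤ μ j t₂
      with hP
    have hcard : ((univ.filter P).card : ℝ) = (if P 0 then 1 else 0)
        + ((univ.filter fun j : Fin K => P j.succ).card : ℝ) := by
      rw [Fin.card_filter_univ_succ]
      split_ifs
      · push_cast
        ring
      · rw [zero_add]
    have hκ : 0 ≤ η ^ 2 * (δ ^ 3 / 8) := by positivity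
    by_cases hP0 : P 0
    · obtain ⟨t₁, h₁, t₂, h₂, hne, m₁, m₂⟩ := hP0
      have hdec := Psi_dec I (μ 0) (hμ 0) (hμ1 0) (b 0 : ZMod p) (hb 0) f
        (law_nonneg I _ (fun j => hμ j.succ) _) (law_sum I _ (fun j => hμ j.succ)
        (fun j => hμ1 j.succ) _) t₁ t₂ h₁ h₂ (hI t₁ h₁ t₂ h₂ hne) η hη m₁ m₂ δ hδ hδp hΨf
      rw [← hs] at hdec
      rw [hcard, if_pos ⟨t₁, h₁, t₂, h₂, hne, m₁, m₂⟩]
      change Psi f + ((univ.filter fun j : Fin K => P j.succ).card : ℝ) * _ ≤ 1 at ih'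
      linarith
    · rw [hcard, if_neg hP0]
      change Psi f + ((univ.filter fun j : Fin K => P j.succ).card : ℝ) * _ ≤ 1 at ih'
      linarith

end E2

open E2 in
theorem E2 : Stmt_E2 := by
  intro M γ hγ
  set s : ℝ := 2 * (M : ℝ) + 1 with hs
  have hs0 : 0 < s := by positivity
  set η : ℝ := (s ^ 2)⁻¹ with hη
  have hη0 : 0 < η := by positivity
  set δ : ℝ := γ ^ 2 with hδ
  have hδ0 : 0 < δ := by positivity
  set κ : ℝ := η ^ 2 * (δ ^ 3 / 8) with hκ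
  have hκ0 : 0 < κ := by positivity
  obtain ⟨K₀, hK₀⟩ := exists_nat_gt (2 / κ)
  refine ⟨K₀, ?_⟩
  intro K hK w hw b hb z hbal
  set I : Finset ℤ := Finset.Icc (-(M : ℤ)) M with hI
  set W : Fin K → ℝ := fun j => ∑ t ∈ I, w j t with hW
  have hW0 : ∀ j, 0 ≤ W j := fun j => Finset.sum_nonneg fun t _ => hw j t
  by_cases hz : ∃ j, W j = 0
  · obtain ⟨j, hj⟩ := hz
    have h1 : ∏ j, W j = 0 := Finset.prod_eq_zero (Finset.mem_univ j) hj
    have h2 : ∀ t ∈ I, w j t = 0 := by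
      have := (Finset.sum_eq_zero_iff_of_nonneg (fun t _ => hw j t)).1 hj
      exact this
    rw [h1, mul_zero]
    apply le_of_eq
    refine Finset.sum_eq_zero fun t ht => ?_
    rw [Finset.mem_filter, Fintype.mem_piFinset] at ht
    exact Finset.prod_eq_zero (Finset.mem_univ j) (h2 _ (ht.1 j))
  · push Not at hz
    have hWpos : ∀ j, 0 < W j := fun j => lt_of_le_of_ne (hW0 j) (Ne.symm (hz j))
    -- choose a big prime
    obtain ⟨B, hB⟩ : ∃ B : ℕ, ∀ j, (b j).natAbs ≤ B :=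
      ⟨∑ j, (b j).natAbs, fun j => Finset.single_le_sum (f := fun j => (b j).natAbs)
        (fun _ _ => Nat.zero_le _) (Finset.mem_univ j)⟩
    obtain ⟨R, hR⟩ := exists_nat_gt (2 / δ)
    obtain ⟨p, hpge, hpp⟩ := Nat.exists_infinite_primes (B + 2 * M + R + 1)
    have : Fact p.Prime := ⟨hpp⟩
    have hδp : 2 < δ * p := by
      have : (R : ℝ) ≤ p := by exact_mod_cast (by omega : R ≤ p)
      have h2 : 2 / δ < p := lt_of_lt_of_le hR this
      rw [div_lt_iff₀ hδ0] at h2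
      linarith
    have hIp : ∀ t₁ ∈ I, ∀ t₂ ∈ I, t₁ ≠ t₂ → (t₁ : ZMod p) ≠ (t₂ : ZMod p) := by
      intro t₁ h₁ t₂ h₂ hne heq
      rw [hI, Finset.mem_Icc] at h₁ h₂
      rw [ZMod.intCast_eq_intCast_iff_dvd_sub] at heq
      have h3 : p ∣ (t₂ - t₁).natAbs := Int.natCast_dvd.1 heq
      have h4 := Nat.le_of_dvd (Int.natAbs_pos.2 (by omega)) h3
      omega
    have hbp : ∀ j, (b j : ZMod p) ≠ 0 := by
      intro j h0
      rw [ZMod.intCast_zmod_eq_zero_iff_dvd] at h0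
      have h1 : p ∣ (b j).natAbs := Int.natCast_dvd.1 h0
      have h2 := Nat.le_of_dvd (Int.natAbs_pos.2 (hb j)) h1
      have h3 := hB j
      omega
    set μ : Fin K → ℤ → ℝ := fun j t => w j t / W j with hμ
    have hμ0 : ∀ j t, 0 ≤ μ j t := fun j t => div_nonneg (hw j t) (hW0 j)
    have hμ1 : ∀ j, ∑ t ∈ I, μ j t ≤ 1 := by
      intro j
      rw [hμ]
      simp only
      rw [← Finset.sum_div]
      exact (div_self (hWpos j).ne').le
    have key := main_ind (p := p) I η hη0.le δ hδ0 hδp hIp K μ hμ0 hμ1 b hbp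
    have hcardle : (univ.filter fun j => Bal M (w j)).card ≤ (univ.filter fun j => ∃ t₁ ∈ I,
        ∃ t₂ ∈ I, t₁ ≠ t₂ ∧ η ≤ μ j t₁ ∧ η ≤ μ j t₂).card := by
      apply Finset.card_le_card
      intro j hj
      rw [Finset.mem_filter] at hj ⊢
      refine ⟨hj.1, ?_⟩
      obtain ⟨t₁, h₁, t₂, h₂, hne, m₁, m₂⟩ := hj.2
      refine ⟨t₁, h₁, t₂, h₂, hne, ?_, ?_⟩
      · rw [hμ]
        simp only
        rw [le_div_iff₀ (hWpos j), hη, inv_mul_le_iff₀ (by positivity)]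
        exact m₁
      · rw [hμ]
        simp only
        rw [le_div_iff₀ (hWpos j), hη, inv_mul_le_iff₀ (by positivity)]
        exact m₂
    have hΨ : Psi (law (p := p) I μ b) < δ := by
      by_contra hcon
      push Not at hcon
      have h1 := key hcon
      have h2 : (K : ℝ) ≤ 2 * ((univ.filter fun j => ∃ t₁ ∈ I, ∃ t₂ ∈ I, t₁ ≠ t₂ ∧ η ≤ μ j t₁ ∧
        η ≤ μ j t₂).card : ℝ) := by
        exact_mod_cast hbal.trans (Nat.mul_le_mul_left 2 hcardle)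
      have h3 : (2 / κ) < K := lt_of_lt_of_le hK₀ (by exact_mod_cast hK)
      rw [div_lt_iff₀ hκ0] at h3
      have h4 : (K : ℝ) * κ ≤ 2 * ((univ.filter fun j => ∃ t₁ ∈ I, ∃ t₂ ∈ I, t₁ ≠ t₂ ∧ η ≤ μ j t₁ ∧
        η ≤ μ j t₂).card : ℝ) * κ := mul_le_mul_of_nonneg_right h2 hκ0.le
      rw [← hκ] at h1
      linarith
    have hlaw : law (p := p) I μ b (z : ZMod p) ≤ γ := by
      have h1 : law (p := p) I μ b (z : ZMod p) ^ 2 ≤ Psi (law (p := p) I μ b) :=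
        Finset.single_le_sum (f := fun x => law (p := p) I μ b x ^ 2) (fun x _ => sq_nonneg _)
          (Finset.mem_univ _)
      have h2 : law (p := p) I μ b (z : ZMod p) ^ 2 ≤ γ ^ 2 := by linarith
      exact (abs_le_of_sq_le_sq' h2 hγ.le).2
    have hmain : (∑ t ∈ (Fintype.piFinset fun _ : Fin K => I).filter
          fun t => ∑ j, b j * t j = z, ∏ j, w j (t j))
        ≤ (∏ j, W j) * law (p := p) I μ b (z : ZMod p) := by
      unfold law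
      rw [Finset.mul_sum, Finset.sum_filter]
      refine Finset.sum_le_sum fun t _ => ?_
      have hprod : ∏ j, w j (t j) = (∏ j, W j) * ∏ j, μ j (t j) := by
        rw [← Finset.prod_mul_distrib]
        refine Finset.prod_congr rfl fun j _ => ?_
        rw [hμ]
        simp only
        rw [mul_div_cancel₀ _ (hWpos j).ne']
      by_cases h : ∑ j, b j * t j = z
      · rw [if_pos h, if_pos, hprod]
        rw [← h]
        push_cast
        rfl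
      · rw [if_neg h]
        apply mul_nonneg (Finset.prod_nonneg fun j _ => hW0 j)
        split_ifs
        · exact Finset.prod_nonneg fun j _ => hμ0 j _
        · exact le_rfl
    calc _ ≤ _ := hmain
      _ ≤ (∏ j, W j) * γ := mul_le_mul_of_nonneg_left hlaw (Finset.prod_nonneg fun j _ => hW0 j)
      _ = _ := mul_comm _ _

end

end Pool.Agent.PFRElem
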