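import Pool.Agent.PFRElem.Defs

set_option autoImplicit false

namespace Pool.Agent.PFRElem

open Finset
open scoped Classical Pointwise

noncomputable section

namespace E3aux

/-- Fibre of `X` over the first coordinate `t`. -/
def fib {n : ℕ} (X : Finset (Fin (n + 1) → ℤ)) (t : ℤ) : Finset (Fin n → ℤ) :=
  (X.filter fun x => x 0 = t).image Fin.tail

lemma mem_fib {n : ℕ} (X : Finset (Fin (n + 1) → ℤ)) (t : ℤ) (x' : Fin n → ℤ) :
    x' ∈ fib X t ↔ (Fin.cons t x' : Fin (n + 1) → ℤ) ∈ X := by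
  unfold fib
  simp only [mem_image, mem_filter]
  constructor
  · rintro ⟨x, ⟨hx, h0⟩, rfl⟩
    rw [← h0, Fin.cons_self_tail]
    exact hx
  · intro h
    exact ⟨Fin.cons t x', ⟨h, by simp⟩, by simp⟩

lemma mem_box {n M : ℕ} (x : Fin n → ℤ) :
    x ∈ box n M ↔ ∀ i, x i ∈ Finset.Icc (-(M : ℤ)) M := by
  unfold box
  rw [Fintype.mem_piFinset]

lemma fib_subset {n M : ℕ} {X : Finset (Fin (n + 1) → ℤ)} (hX : X ⊆ box (n + 1) M) (t : ℤ) :
    fib X t ⊆ box n M := by
  intro x' hx'
  rw [mem_fib] at hx'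
  have h := hX hx'
  rw [mem_box] at h ⊢
  intro i
  have := h i.succ
  simpa using this

lemma head_mem {n M : ℕ} {X : Finset (Fin (n + 1) → ℤ)} (hX : X ⊆ box (n + 1) M)
    {x : Fin (n + 1) → ℤ} (hx : x ∈ X) : x 0 ∈ Finset.Icc (-(M : ℤ)) M := by
  have h := hX hx
  rw [mem_box] at h
  exact h 0

lemma sum_fib {n M : ℕ} {X : Finset (Fin (n + 1) → ℤ)} (hX : X ⊆ box (n + 1) M)
    (f : (Fin (n + 1) → ℤ) → ℝ) :
    ∑ x ∈ X, f x = ∑ t ∈ Finset.Icc (-(M : ℤ)) M, ∑ x' ∈ fib X t, f (Fin.cons t x') := by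
  rw [Finset.sum_sigma']
  refine Finset.sum_bij' (fun x _ => (⟨x 0, Fin.tail x⟩ : Σ _ : ℤ, (Fin n → ℤ)))
    (fun p _ => (Fin.cons p.1 p.2 : Fin (n + 1) → ℤ)) ?_ ?_ ?_ ?_ ?_
  · intro x hx
    rw [Finset.mem_sigma]
    refine ⟨head_mem hX hx, ?_⟩
    rw [mem_fib, Fin.cons_self_tail]
    exact hx
  · rintro ⟨t, x'⟩ hp
    rw [Finset.mem_sigma] at hp
    exact (mem_fib _ _ _).1 hp.2
  · intro x hx
    simp
  · rintro ⟨t, x'⟩ hp
    simp
  · intro x hx
    simp

lemma sum_fib_tuple {n M K : ℕ} {X : Fin K → Finset (Fin (n + 1) → ℤ)}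
    (hX : ∀ j, X j ⊆ box (n + 1) M) (f : (Fin K → Fin (n + 1) → ℤ) → ℝ) :
    ∑ x ∈ Fintype.piFinset X, f x =
      ∑ t ∈ Fintype.piFinset (fun _ : Fin K => Finset.Icc (-(M : ℤ)) M),
        ∑ x' ∈ Fintype.piFinset (fun j => fib (X j) (t j)), f (fun j => Fin.cons (t j) (x' j)) := by
  rw [Finset.sum_sigma']
  refine Finset.sum_bij'
    (fun x _ => (⟨fun j => x j 0, fun j => Fin.tail (x j)⟩ :
      Σ _ : (Fin K → ℤ), (Fin K → Fin n → ℤ)))
    (fun p _ => (fun j => (Fin.cons (p.1 j) (p.2 j) : Fin (n + 1) → ℤ))) ?_ ?_ ?_ ?_ ?_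
  · intro x hx
    rw [Fintype.mem_piFinset] at hx
    rw [Finset.mem_sigma]
    refine ⟨?_, ?_⟩
    · rw [Fintype.mem_piFinset]
      intro j
      exact head_mem (hX j) (hx j)
    · rw [Fintype.mem_piFinset]
      intro j
      rw [mem_fib, Fin.cons_self_tail]
      exact hx j
  · rintro ⟨t, x'⟩ hp
    rw [Finset.mem_sigma] at hp
    rw [Fintype.mem_piFinset]
    intro j
    have := hp.2
    rw [Fintype.mem_piFinset] at this
    exact (mem_fib _ _ _).1 (this j)
  · intro x hx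
    simp
  · rintro ⟨t, x'⟩ hp
    simp
  · intro x hx
    simp

/-- the fibre weights -/
def wt {n : ℕ} (X : Finset (Fin (n + 1) → ℤ)) (t : ℤ) : ℝ := ((fib X t).card : ℝ)

lemma sum_wt {n M : ℕ} {X : Finset (Fin (n + 1) → ℤ)} (hX : X ⊆ box (n + 1) M) :
    ∑ t ∈ Finset.Icc (-(M : ℤ)) M, wt X t = (X.card : ℝ) := by
  have := sum_fib hX (fun _ => (1 : ℝ))
  simp only [sum_const, nsmul_eq_mul, mul_one] at this
  rw [this]
  rfl

/-- number of unbalanced nodes -/
def U (M : ℕ) : (n : ℕ) → Finset (Fin n → ℤ) → (Fin n → ℤ) → ℕ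
  | 0, _, _ => 0
  | n + 1, X, x => (if Bal M (wt X) then 0 else 1) + U M n (fib X (x 0)) (Fin.tail x)

/-- number of levels with at least half of the nodes balanced -/
def G (M K : ℕ) : (n : ℕ) → (Fin K → Finset (Fin n → ℤ)) → (Fin K → Fin n → ℤ) → ℕ
  | 0, _, _ => 0
  | n + 1, X, x =>
    (if K ≤ 2 * (univ.filter fun j => Bal M (wt (X j))).card then 1 else 0) +
      G M K n (fun j => fib (X j) (x j 0)) (fun j => Fin.tail (x j))

lemma G_U {M K : ℕ} : ∀ (n : ℕ) (X : Fin K → Finset (Fin n → ℤ)) (x : Fin K → Fin n → ℤ),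
    K * n ≤ 2 * (∑ j, U M n (X j) (x j)) + K * G M K n X x := by
  intro n
  induction n with
  | zero => intro X x; simp
  | succ n ih =>
    intro X x
    have h := ih (fun j => fib (X j) (x j 0)) (fun j => Fin.tail (x j))
    simp only [U, G]
    rw [Finset.sum_add_distrib]
    have hun : ∑ j : Fin K, (if Bal M (wt (X j)) then 0 else 1) =
        (univ.filter fun j : Fin K => ¬ Bal M (wt (X j))).card := by
      rw [Finset.card_filter]
      apply Finset.sum_congr rfl
      intro j _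
      by_cases hb : Bal M (wt (X j)) <;> simp [hb]
    have hsplit : (univ.filter fun j : Fin K => Bal M (wt (X j))).card +
        (univ.filter fun j : Fin K => ¬ Bal M (wt (X j))).card = K := by
      rw [Finset.card_filter_add_card_filter_not]
      simp
    rw [hun]
    by_cases hg : K ≤ 2 * (univ.filter fun j => Bal M (wt (X j))).card
    · rw [if_pos hg]
      nlinarith
    · rw [if_neg hg, zero_add]
      rw [mul_add, mul_one]
      omega

lemma P1 {M : ℕ} (α : ℝ) (hα : α = Real.sqrt (2 * M + 1) / 2) (hα1 : 1 ≤ α) :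
    ∀ (n : ℕ) (X : Finset (Fin n → ℤ)), X ⊆ box n M →
      ∑ x ∈ X, α ^ (U M n X x) ≤ Real.sqrt ((X.card : ℝ) * (2 * (M : ℝ) + 1) ^ n) := by
  intro n
  induction n with
  | zero =>
    intro X hX
    have hc : X.card ≤ 1 := by
      calc X.card ≤ (box 0 M).card := Finset.card_le_card hX
        _ = 1 := by simp [box]
    have : ∑ x ∈ X, α ^ (U M 0 X x) = (X.card : ℝ) := by
      simp [U]
    rw [this]
    simp only [pow_zero, mul_one]
    rcases Nat.le_one_iff_eq_zero_or_eq_one.1 hc with h | h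
    · rw [h]; simp
    · rw [h]; simp
  | succ n ih =>
    intro X hX
    set s : ℝ := 2 * (M : ℝ) + 1 with hs
    have hs1 : 1 ≤ s := by
      have : (0 : ℝ) ≤ M := Nat.cast_nonneg M
      linarith
    rw [sum_fib hX]
    have hstep : ∀ t ∈ Finset.Icc (-(M : ℤ)) M,
        ∑ x' ∈ fib X t, α ^ (U M (n + 1) X (Fin.cons t x')) ≤
          α ^ (if Bal M (wt X) then 0 else 1) * (Real.sqrt (wt X t) * Real.sqrt (s ^ n)) := by
      intro t _
      have h1 : ∀ x' ∈ fib X t, α ^ (U M (n + 1) X (Fin.cons t x')) =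
          α ^ (if Bal M (wt X) then 0 else 1) * α ^ (U M n (fib X t) x') := by
        intro x' _
        simp only [U, Fin.cons_zero, Fin.tail_cons]
        rw [pow_add]
      rw [Finset.sum_congr rfl h1, ← Finset.mul_sum]
      apply mul_le_mul_of_nonneg_left _ (by positivity)
      have h2 := ih (fib X t) (fib_subset hX t)
      rw [Real.sqrt_mul (by positivity)] at h2
      exact h2
    refine (Finset.sum_le_sum hstep).trans ?_
    rw [← Finset.mul_sum, ← Finset.sum_mul]
    have hXcard : ∑ t ∈ Finset.Icc (-(M : ℤ)) M, wt X t = (X.card : ℝ) := sum_wt hX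
    have hwt0 : ∀ t, 0 ≤ wt X t := fun t => Nat.cast_nonneg _
    have hcard : ((Finset.Icc (-(M : ℤ)) M).card : ℝ) = s := by
      rw [Int.card_Icc]
      have : ((M : ℤ) + 1 - -(M : ℤ)).toNat = 2 * M + 1 := by omega
      rw [this, hs]; push_cast; ring
    have hgoal : Real.sqrt ((X.card : ℝ) * s ^ (n + 1)) =
        Real.sqrt (X.card : ℝ) * (Real.sqrt s * Real.sqrt (s ^ n)) := by
      rw [Real.sqrt_mul (by positivity), pow_succ, mul_comm (s ^ n) s,
        Real.sqrt_mul (by positivity)]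
    rw [hgoal]
    by_cases hb : Bal M (wt X)
    · rw [if_pos hb, pow_zero, one_mul]
      have hcs : ∑ t ∈ Finset.Icc (-(M : ℤ)) M, Real.sqrt (wt X t) ≤
          Real.sqrt (X.card : ℝ) * Real.sqrt s := by
        rw [← Real.sqrt_mul (by positivity)]
        apply Real.le_sqrt_of_sq_le
        have h3 := sq_sum_le_card_mul_sum_sq (s := Finset.Icc (-(M : ℤ)) M)
          (f := fun t => Real.sqrt (wt X t))
        rw [hcard] at h3
        have h4 : ∑ t ∈ Finset.Icc (-(M : ℤ)) M, Real.sqrt (wt X t) ^ 2 = (X.card : ℝ) := by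
          rw [← hXcard]
          apply Finset.sum_congr rfl
          intro t _
          exact Real.sq_sqrt (hwt0 t)
        rw [h4] at h3
        linarith
      calc (∑ t ∈ Finset.Icc (-(M : ℤ)) M, Real.sqrt (wt X t)) * Real.sqrt (s ^ n)
          ≤ (Real.sqrt (X.card : ℝ) * Real.sqrt s) * Real.sqrt (s ^ n) :=
            mul_le_mul_of_nonneg_right hcs (Real.sqrt_nonneg _)
        _ = _ := by ring
    · rw [if_neg hb, pow_one]
      have hub : ∑ t ∈ Finset.Icc (-(M : ℤ)) M, Real.sqrt (wt X t) ≤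
          2 * Real.sqrt (X.card : ℝ) := by
        -- at most one big fibre
        have hsmall : ∀ t₁ ∈ Finset.Icc (-(M : ℤ)) M, ∀ t₂ ∈ Finset.Icc (-(M : ℤ)) M, t₁ ≠ t₂ →
            (X.card : ℝ) ≤ s ^ 2 * wt X t₁ → s ^ 2 * wt X t₂ < (X.card : ℝ) := by
          intro t₁ h₁ t₂ h₂ hne hbig
          by_contra hcon
          push Not at hcon
          apply hb
          refine ⟨t₁, h₁, t₂, h₂, hne, ?_, ?_⟩
          · rw [hXcard]; exact hbig
          · rw [hXcard]; exact hcon
        have hsq : ∀ t, s ^ 2 * wt X t < (X.card : ℝ) →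
            Real.sqrt (wt X t) ≤ Real.sqrt (X.card : ℝ) / s := by
          intro t ht
          rw [le_div_iff₀ (by linarith)]
          have : Real.sqrt (wt X t) * s = Real.sqrt (s ^ 2 * wt X t) := by
            rw [Real.sqrt_mul (by positivity), Real.sqrt_sq (by linarith)]
            ring
          rw [this]
          exact Real.sqrt_le_sqrt ht.le
        by_cases hex : ∃ t₀ ∈ Finset.Icc (-(M : ℤ)) M, (X.card : ℝ) ≤ s ^ 2 * wt X t₀
        · obtain ⟨t₀, ht₀, hbig⟩ := hex
          rw [← Finset.add_sum_erase _ _ ht₀]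
          have h5 : ∑ t ∈ (Finset.Icc (-(M : ℤ)) M).erase t₀, Real.sqrt (wt X t) ≤
              ∑ t ∈ (Finset.Icc (-(M : ℤ)) M).erase t₀, Real.sqrt (X.card : ℝ) / s := by
            apply Finset.sum_le_sum
            intro t ht
            rw [Finset.mem_erase] at ht
            exact hsq t (hsmall t₀ ht₀ t ht.2 (Ne.symm ht.1) hbig)
          have h6 : ∑ t ∈ (Finset.Icc (-(M : ℤ)) M).erase t₀, Real.sqrt (X.card : ℝ) / s ≤
              Real.sqrt (X.card : ℝ) := by
            rw [Finset.sum_const, nsmul_eq_mul]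
            have h7 : (((Finset.Icc (-(M : ℤ)) M).erase t₀).card : ℝ) ≤ s := by
              rw [← hcard]
              exact_mod_cast Finset.card_erase_le
            calc (((Finset.Icc (-(M : ℤ)) M).erase t₀).card : ℝ) * (Real.sqrt (X.card : ℝ) / s)
                ≤ s * (Real.sqrt (X.card : ℝ) / s) :=
                  mul_le_mul_of_nonneg_right h7 (by positivity)
              _ = _ := by field_simp
          have h8 : Real.sqrt (wt X t₀) ≤ Real.sqrt (X.card : ℝ) := by
            apply Real.sqrt_le_sqrt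
            rw [← hXcard]
            exact Finset.single_le_sum (f := wt X) (fun t _ => hwt0 t) ht₀
          linarith
        · push Not at hex
          have h5 : ∑ t ∈ (Finset.Icc (-(M : ℤ)) M), Real.sqrt (wt X t) ≤
              ∑ t ∈ (Finset.Icc (-(M : ℤ)) M), Real.sqrt (X.card : ℝ) / s := by
            apply Finset.sum_le_sum
            intro t ht
            exact hsq t (hex t ht)
          have h6 : ∑ t ∈ (Finset.Icc (-(M : ℤ)) M), Real.sqrt (X.card : ℝ) / s =
              Real.sqrt (X.card : ℝ) := by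
            rw [Finset.sum_const, nsmul_eq_mul, hcard]
            field_simp
          have : 0 ≤ Real.sqrt (X.card : ℝ) := Real.sqrt_nonneg _
          linarith
      rw [hα]
      calc Real.sqrt (2 * (M : ℝ) + 1) / 2 *
            ((∑ t ∈ Finset.Icc (-(M : ℤ)) M, Real.sqrt (wt X t)) * Real.sqrt (s ^ n))
          ≤ Real.sqrt (2 * (M : ℝ) + 1) / 2 * ((2 * Real.sqrt (X.card : ℝ)) * Real.sqrt (s ^ n)) :=
            mul_le_mul_of_nonneg_left
              (mul_le_mul_of_nonneg_right hub (Real.sqrt_nonneg _)) (by positivity)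
        _ = _ := by rw [← hs]; ring

lemma algB (c ρ : ℝ) (hρ : 0 < ρ) (n K : ℕ) :
    ((2 * ρ) ^ (n * K))⁻¹ * (c * ρ ^ (n * K)) = ((1 / 2 : ℝ) ^ K) ^ n * c := by
  have h1 : (ρ ^ (n * K)) ≠ 0 := (pow_pos hρ _).ne'
  have h2 : ((1 / 2 : ℝ) ^ K) ^ n = (2 ^ (n * K))⁻¹ := by
    rw [← pow_mul, mul_comm K n, one_div, inv_pow]
  rw [h2, mul_pow, mul_inv]
  calc ((2 : ℝ) ^ (n * K))⁻¹ * (ρ ^ (n * K))⁻¹ * (c * ρ ^ (n * K))
      = ((2 : ℝ) ^ (n * K))⁻¹ * c * ((ρ ^ (n * K))⁻¹ * ρ ^ (n * K)) := by ring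
    _ = _ := by rw [inv_mul_cancel₀ h1, mul_one]

lemma P2 {M K : ℕ} (γ : ℝ) (hγ : 0 < γ)
    (hF : ∀ w : Fin K → ℤ → ℝ,
      (∀ j t, 0 ≤ w j t) → ∀ b : Fin K → ℤ, (∀ j, b j ≠ 0) → ∀ z : ℤ,
      K ≤ 2 * (univ.filter fun j => Bal M (w j)).card →
      (∑ t ∈ (Fintype.piFinset fun _ : Fin K => Finset.Icc (-(M : ℤ)) M).filter
          fun t => ∑ j, b j * t j = z, ∏ j, w j (t j))
        ≤ γ * ∏ j, ∑ t ∈ Finset.Icc (-(M : ℤ)) M, w j t)
    (b : Fin K → ℤ) (hb : ∀ j, b j ≠ 0) :
    ∀ (n : ℕ) (X : Fin K → Finset (Fin n → ℤ)), (∀ j, X j ⊆ box n M) → ∀ z : Fin n → ℤ,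
      ∑ x ∈ (Fintype.piFinset X).filter (fun x => ∑ j, b j • x j = z), (γ⁻¹) ^ (G M K n X x)
        ≤ ∏ j, ((X j).card : ℝ) := by
  intro n
  induction n with
  | zero =>
    intro X hX z
    simp only [G, pow_zero, sum_const, nsmul_eq_mul, mul_one]
    have : ((Fintype.piFinset X).filter (fun x => ∑ j, b j • x j = z)).card ≤
        (Fintype.piFinset X).card := Finset.card_filter_le _ _
    rw [Fintype.card_piFinset] at this
    exact_mod_cast this
  | succ n ih =>
    intro X hX z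
    rw [Finset.sum_filter, sum_fib_tuple hX]
    have hin : ∀ t ∈ Fintype.piFinset (fun _ : Fin K => Finset.Icc (-(M : ℤ)) M),
        (∑ x' ∈ Fintype.piFinset (fun j => fib (X j) (t j)),
          (if ∑ j, b j • (Fin.cons (t j) (x' j) : Fin (n + 1) → ℤ) = z then
            (γ⁻¹) ^ (G M K (n + 1) X (fun j => Fin.cons (t j) (x' j))) else 0)) ≤
        if ∑ j, b j * t j = z 0 then
          (γ⁻¹) ^ (if K ≤ 2 * (univ.filter fun j => Bal M (wt (X j))).card then 1 else 0) *
            ∏ j, wt (X j) (t j) else 0 := by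
      intro t _
      have hiff : ∀ x' : Fin K → Fin n → ℤ,
          (∑ j, b j • (Fin.cons (t j) (x' j) : Fin (n + 1) → ℤ) = z) ↔
            (∑ j, b j * t j = z 0 ∧ ∑ j, b j • x' j = Fin.tail z) := by
        intro x'
        constructor
        · intro h
          constructor
          · have := congrFun h 0
            simpa using this
          · funext i
            have := congrFun h i.succ
            simpa [Fin.tail] using this
        · rintro ⟨h1, h2⟩
          funext i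
          refine Fin.cases ?_ ?_ i
          · simpa using h1
          · intro i
            have := congrFun h2 i
            simpa [Fin.tail] using this
      by_cases h0 : ∑ j, b j * t j = z 0
      · rw [if_pos h0]
        have h1 : ∀ x' ∈ Fintype.piFinset (fun j => fib (X j) (t j)),
            (if ∑ j, b j • (Fin.cons (t j) (x' j) : Fin (n + 1) → ℤ) = z then
              (γ⁻¹) ^ (G M K (n + 1) X (fun j => Fin.cons (t j) (x' j))) else 0) =
            (γ⁻¹) ^ (if K ≤ 2 * (univ.filter fun j => Bal M (wt (X j))).card then 1 else 0) *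
            (if ∑ j, b j • x' j = Fin.tail z then
              (γ⁻¹) ^ (G M K n (fun j => fib (X j) (t j)) x') else 0) := by
          intro x' _
          by_cases h2 : ∑ j, b j • x' j = Fin.tail z
          · rw [if_pos h2, if_pos ((hiff x').2 ⟨h0, h2⟩)]
            simp only [G, Fin.cons_zero, Fin.tail_cons]
            rw [pow_add]
          · rw [if_neg h2, if_neg (fun h => h2 ((hiff x').1 h).2), mul_zero]
        rw [Finset.sum_congr rfl h1, ← Finset.mul_sum]
        apply mul_le_mul_of_nonneg_left _ (by positivity)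
        rw [← Finset.sum_filter]
        exact ih (fun j => fib (X j) (t j)) (fun j => fib_subset (hX j) (t j)) (Fin.tail z)
      · rw [if_neg h0]
        apply le_of_eq
        apply Finset.sum_eq_zero
        intro x' _
        rw [if_neg (fun h => h0 ((hiff x').1 h).1)]
    refine (Finset.sum_le_sum hin).trans ?_
    rw [← Finset.sum_filter, ← Finset.mul_sum]
    have hprod : ∏ j, ∑ t ∈ Finset.Icc (-(M : ℤ)) M, wt (X j) t = ∏ j, ((X j).card : ℝ) :=
      Finset.prod_congr rfl fun j _ => sum_wt (hX j)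
    have hw0 : ∀ j t, 0 ≤ wt (X j) t := fun j t => Nat.cast_nonneg _
    by_cases hg : K ≤ 2 * (univ.filter fun j => Bal M (wt (X j))).card
    · rw [if_pos hg, pow_one]
      have h3 := hF (fun j => wt (X j)) hw0 b hb (z 0) hg
      rw [hprod] at h3
      have h4 := mul_le_mul_of_nonneg_left h3 (inv_pos.2 hγ).le
      rw [inv_mul_cancel_left₀ hγ.ne'] at h4
      exact h4
    · rw [if_neg hg, pow_zero, one_mul, ← hprod]
      rw [Finset.prod_univ_sum]
      apply Finset.sum_le_sum_of_subset_of_nonneg (Finset.filter_subset _ _)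
      intro t _ _
      exact Finset.prod_nonneg fun j _ => hw0 j (t j)

end E3aux

open E3aux

theorem E3 (hE2 : Stmt_E2) : Stmt_E3 := by
  intro M D₀ hD θ hθ
  set θ' : ℝ := min θ 1 with hθ'
  have hθ'0 : 0 < θ' := lt_min hθ one_pos
  have hθ'1 : θ' ≤ 1 := min_le_right _ _
  obtain ⟨K₀, hK₀⟩ := hE2 M (θ' ^ 2) (by positivity)
  obtain ⟨K₁, hK₁⟩ := exists_pow_lt_of_lt_one hθ'0 (by norm_num : (1 / 2 : ℝ) < 1)
  obtain ⟨K, hKpos, hKK₀, hKK₁⟩ : ∃ K : ℕ, 0 < K ∧ K₀ ≤ K ∧ K₁ ≤ K :=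
    ⟨max K₀ K₁ + 1, Nat.succ_pos _, (le_max_left _ _).trans (Nat.le_succ _),
      (le_max_right _ _).trans (Nat.le_succ _)⟩
  refine ⟨K, hKpos, ?_⟩
  intro n X hX hdens b hb z
  have hKθ : (1 / 2 : ℝ) ^ K ≤ θ' :=
    (pow_le_pow_of_le_one (by norm_num) (by norm_num) hKK₁).trans hK₁.le
  rcases Nat.eq_zero_or_pos n with hn0 | hnpos
  · subst hn0
    have h1 : (((Fintype.piFinset fun _ : Fin K => X).filter
        fun x => ∑ j, b j • x j = z).card : ℝ) ≤ (X.card : ℝ) ^ K := by
      have : ((Fintype.piFinset fun _ : Fin K => X).filter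
        fun x => ∑ j, b j • x j = z).card ≤ (Fintype.piFinset fun _ : Fin K => X).card :=
        Finset.card_filter_le _ _
      rw [Fintype.card_piFinset] at this
      simp only [prod_const, card_univ, Fintype.card_fin] at this
      exact_mod_cast this
    have h2 : (0 : ℝ) ≤ (X.card : ℝ) ^ K := by positivity
    rw [pow_zero]
    linarith
  have hD1 : 1 ≤ D₀ := by
    rcases Nat.eq_zero_or_pos D₀ with h | h
    · exfalso
      rw [h, zero_pow hnpos.ne', zero_mul] at hdens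
      have : 0 < (2 * M + 1) ^ n := by positivity
      omega
    · exact h
  have hXpos : 0 < X.card := by
    rcases Nat.eq_zero_or_pos X.card with h | h
    · exfalso
      rw [h, mul_zero] at hdens
      have : 0 < (2 * M + 1) ^ n := by positivity
      omega
    · exact h
  set α : ℝ := Real.sqrt (2 * M + 1) / 2 with hα
  have hD1R : (1 : ℝ) ≤ D₀ := by exact_mod_cast hD1
  have hαD : 16 * (D₀ : ℝ) ^ 2 ≤ α := by
    rw [hα, le_div_iff₀ (by norm_num)]
    apply Real.le_sqrt_of_sq_le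
    have : (1024 * (D₀ : ℝ) ^ 4) ≤ 2 * M + 1 := by exact_mod_cast hD
    calc (16 * (D₀ : ℝ) ^ 2 * 2) ^ 2 = 1024 * (D₀ : ℝ) ^ 4 := by ring
      _ ≤ _ := this
  have hα1 : 1 ≤ α := by nlinarith
  set ρ : ℝ := Real.sqrt D₀ with hρ
  have hρ1 : 1 ≤ ρ := by
    rw [hρ]; exact Real.one_le_sqrt.2 hD1R
  have hρ2 : ρ ^ 2 = D₀ := Real.sq_sqrt (by positivity)
  -- bound for the sum of alpha^U
  have hP1 : ∑ x ∈ X, α ^ (U M n X x) ≤ (X.card : ℝ) * ρ ^ n := by
    refine (P1 α hα hα1 n X hX).trans ?_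
    apply Real.sqrt_le_iff.2
    refine ⟨by positivity, ?_⟩
    have h1 : (2 * (M : ℝ) + 1) ^ n ≤ (D₀ : ℝ) ^ n * X.card := by exact_mod_cast hdens
    have h2 : (ρ ^ n) ^ 2 = (D₀ : ℝ) ^ n := by rw [← hρ2]; ring
    rw [mul_pow, h2]
    have h3 : (0 : ℝ) ≤ X.card := by positivity
    nlinarith
  have hsumU : ∑ x ∈ Fintype.piFinset (fun _ : Fin K => X), α ^ (∑ j, U M n X (x j)) ≤
      (X.card : ℝ) ^ K * ρ ^ (n * K) := by
    have h1 : ∀ x ∈ Fintype.piFinset (fun _ : Fin K => X), α ^ (∑ j, U M n X (x j)) =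
        ∏ j, α ^ (U M n X (x j)) := fun x _ => (Finset.prod_pow_eq_pow_sum _ _ _).symm
    rw [Finset.sum_congr rfl h1]
    have h2 := Finset.prod_univ_sum (fun _ : Fin K => X)
      (fun (_ : Fin K) (y : Fin n → ℤ) => α ^ (U M n X y))
    rw [← h2, Finset.prod_const, Finset.card_univ, Fintype.card_fin]
    calc (∑ x ∈ X, α ^ (U M n X x)) ^ K ≤ ((X.card : ℝ) * ρ ^ n) ^ K :=
          pow_le_pow_left₀ (Finset.sum_nonneg fun x _ => by positivity) hP1 K
      _ = _ := by rw [mul_pow, ← pow_mul]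
  have hsumG := P2 (M := M) (K := K) (θ' ^ 2) (by positivity)
    (fun w hw b hb z h => hK₀ K hKK₀ w hw b hb z h) b hb n (fun _ => X) (fun _ => hX) z
  rw [Finset.prod_const, Finset.card_univ, Fintype.card_fin] at hsumG
  have hpt : ∀ x : Fin K → Fin n → ℤ, (1 : ℝ) ≤
      θ' ^ n * ((θ' ^ 2)⁻¹) ^ (G M K n (fun _ => X) x) +
        ((2 * ρ) ^ (n * K))⁻¹ * α ^ (∑ j, U M n X (x j)) := by
    intro x
    have hGU := G_U (M := M) (K := K) n (fun _ => X) x
    by_cases hc : n ≤ 2 * G M K n (fun _ => X) x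
    · have h1 : (1 : ℝ) ≤ θ' ^ n * ((θ' ^ 2)⁻¹) ^ (G M K n (fun _ => X) x) := by
        rw [inv_pow, ← div_eq_mul_inv, le_div_iff₀ (by positivity), one_mul, ← pow_mul]
        exact pow_le_pow_of_le_one hθ'0.le hθ'1 hc
      have h2 : 0 ≤ ((2 * ρ) ^ (n * K))⁻¹ * α ^ (∑ j, U M n X (x j)) := by positivity
      linarith
    · push Not at hc
      have h1 : (1 : ℝ) ≤ ((2 * ρ) ^ (n * K))⁻¹ * α ^ (∑ j, U M n X (x j)) := by
        rw [inv_mul_eq_div, le_div_iff₀ (by positivity), one_mul]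
        have h2 : n * K ≤ 4 * (∑ j, U M n X (x j)) := by
          nlinarith
        calc (2 * ρ) ^ (n * K) ≤ (2 * ρ) ^ (4 * (∑ j, U M n X (x j))) :=
              pow_le_pow_right₀ (by linarith) h2
          _ = (16 * (D₀ : ℝ) ^ 2) ^ (∑ j, U M n X (x j)) := by
              rw [pow_mul]
              congr 1
              rw [← hρ2]; ring
          _ ≤ _ := pow_le_pow_left₀ (by positivity) hαD _
      have h2 : 0 ≤ θ' ^ n * ((θ' ^ 2)⁻¹) ^ (G M K n (fun _ => X) x) := by positivity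
      linarith
  have hcount : (((Fintype.piFinset fun _ : Fin K => X).filter
      fun x => ∑ j, b j • x j = z).card : ℝ) ≤
      θ' ^ n * (∑ x ∈ (Fintype.piFinset fun _ : Fin K => X).filter
        (fun x => ∑ j, b j • x j = z), ((θ' ^ 2)⁻¹) ^ (G M K n (fun _ => X) x)) +
      ((2 * ρ) ^ (n * K))⁻¹ * (∑ x ∈ Fintype.piFinset (fun _ : Fin K => X),
        α ^ (∑ j, U M n X (x j))) := by
    calc (((Fintype.piFinset fun _ : Fin K => X).filter
        fun x => ∑ j, b j • x j = z).card : ℝ)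
        = ∑ x ∈ (Fintype.piFinset fun _ : Fin K => X).filter
            (fun x => ∑ j, b j • x j = z), (1 : ℝ) := by simp
      _ ≤ ∑ x ∈ (Fintype.piFinset fun _ : Fin K => X).filter
            (fun x => ∑ j, b j • x j = z),
          (θ' ^ n * ((θ' ^ 2)⁻¹) ^ (G M K n (fun _ => X) x) +
            ((2 * ρ) ^ (n * K))⁻¹ * α ^ (∑ j, U M n X (x j))) :=
          Finset.sum_le_sum fun x _ => hpt x
      _ = θ' ^ n * (∑ x ∈ (Fintype.piFinset fun _ : Fin K => X).filter
            (fun x => ∑ j, b j • x j = z), ((θ' ^ 2)⁻¹) ^ (G M K n (fun _ => X) x)) +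
          ((2 * ρ) ^ (n * K))⁻¹ * (∑ x ∈ (Fintype.piFinset fun _ : Fin K => X).filter
            (fun x => ∑ j, b j • x j = z), α ^ (∑ j, U M n X (x j))) := by
          rw [Finset.sum_add_distrib, Finset.mul_sum, Finset.mul_sum]
      _ ≤ _ := by
          gcongr
          exact Finset.filter_subset _ _
  refine hcount.trans ?_
  have hA : θ' ^ n * (∑ x ∈ (Fintype.piFinset fun _ : Fin K => X).filter
        (fun x => ∑ j, b j • x j = z), ((θ' ^ 2)⁻¹) ^ (G M K n (fun _ => X) x)) ≤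
      θ' ^ n * (X.card : ℝ) ^ K := mul_le_mul_of_nonneg_left hsumG (by positivity)
  have hB : ((2 * ρ) ^ (n * K))⁻¹ * (∑ x ∈ Fintype.piFinset (fun _ : Fin K => X),
        α ^ (∑ j, U M n X (x j))) ≤ θ' ^ n * (X.card : ℝ) ^ K := by
    calc ((2 * ρ) ^ (n * K))⁻¹ * (∑ x ∈ Fintype.piFinset (fun _ : Fin K => X),
        α ^ (∑ j, U M n X (x j)))
        ≤ ((2 * ρ) ^ (n * K))⁻¹ * ((X.card : ℝ) ^ K * ρ ^ (n * K)) :=
          mul_le_mul_of_nonneg_left hsumU (by positivity)
      _ = ((1 / 2 : ℝ) ^ K) ^ n * (X.card : ℝ) ^ K :=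
          algB _ ρ (by linarith) n K
      _ ≤ θ' ^ n * (X.card : ℝ) ^ K := by
          apply mul_le_mul_of_nonneg_right _ (by positivity)
          exact pow_le_pow_left₀ (by positivity) hKθ n
  have hθθ : θ' ^ n * (X.card : ℝ) ^ K ≤ θ ^ n * (X.card : ℝ) ^ K := by
    apply mul_le_mul_of_nonneg_right _ (by positivity)
    exact pow_le_pow_left₀ hθ'0.le (min_le_left _ _) n
  linarith

end

end Pool.Agent.PFRElem
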