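import Pool.Agent.PFRElem.Defs

/-!
# E4: most tuples of a dense subset of the box are dissociated
-/

set_option autoImplicit false

namespace Pool.Agent.PFRElem

open Finset
open scoped Classical Pointwise

namespace E4Aux

variable {n m K : ℕ}

/-- Counting solutions of a linear equation by fixing the coordinates outside the range of `J`. -/
theorem count_le (X : Finset (Fin n → ℤ)) (b : Fin m → ℤ) (J : Fin K ↪ Fin m) (B : ℝ)
    (hB : ∀ z : Fin n → ℤ, (((Fintype.piFinset fun _ : Fin K => X).filter
      fun y => ∑ k, b (J k) • y k = z).card : ℝ) ≤ B) :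
    (((Fintype.piFinset fun _ : Fin m => X).filter fun x => ∑ j, b j • x j = 0).card : ℝ) ≤
      (X.card : ℝ) ^ (m - K) * B := by
  set s := (Fintype.piFinset fun _ : Fin m => X).filter fun x => ∑ j, b j • x j = 0 with hs
  set C : Finset (Fin m) := univ \ (univ.map J) with hC
  have hCcard : C.card = m - K := by
    rw [hC, Finset.card_sdiff_of_subset (Finset.subset_univ _), Finset.card_map]
    simp
  let f : (Fin m → Fin n → ℤ) → ({j // j ∈ C} → Fin n → ℤ) := fun x j => x j
  set t : Finset ({j // j ∈ C} → Fin n → ℤ) := Fintype.piFinset fun _ => X with ht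
  have hmaps : ∀ x ∈ s, f x ∈ t := by
    intro x hx
    rw [hs, Finset.mem_filter, Fintype.mem_piFinset] at hx
    rw [ht, Fintype.mem_piFinset]
    intro j
    exact hx.1 j
  have htcard : t.card = X.card ^ (m - K) := by
    rw [ht, Fintype.card_piFinset, Finset.prod_const, Finset.card_univ, Fintype.card_coe, hCcard]
  have hcard := Finset.card_eq_sum_card_fiberwise hmaps
  rw [hcard]
  push_cast
  have hfib : ∀ w ∈ t, (((s.filter fun x => f x = w).card : ℕ) : ℝ) ≤ B := by
    intro w _
    refine le_trans ?_ (hB (-∑ j : {j // j ∈ C}, b j • w j))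
    have : (s.filter fun x => f x = w).card ≤ ((Fintype.piFinset fun _ : Fin K => X).filter
      fun y => ∑ k, b (J k) • y k = -∑ j : {j // j ∈ C}, b j • w j).card := by
      refine Finset.card_le_card_of_injOn (fun x k => x (J k)) ?_ ?_
      · intro x hx
        rw [Finset.mem_coe, Finset.mem_filter, hs, Finset.mem_filter, Fintype.mem_piFinset] at hx
        obtain ⟨⟨h1, h2⟩, h3⟩ := hx
        rw [Finset.mem_coe, Finset.mem_filter, Fintype.mem_piFinset]
        refine ⟨fun k => h1 (J k), ?_⟩
        have h4 : ∑ j, b j • x j = ∑ j ∈ C, b j • x j + ∑ j ∈ univ.map J, b j • x j := by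
          rw [hC]
          exact (Finset.sum_sdiff (Finset.subset_univ _)).symm
        rw [Finset.sum_map] at h4
        have h5 : ∑ j ∈ C, b j • x j = ∑ j : {j // j ∈ C}, b j • w j := by
          rw [← Finset.sum_coe_sort C]
          refine Finset.sum_congr rfl fun j _ => ?_
          rw [← h3]
        rw [h2, h5] at h4
        simp only
        rw [eq_neg_iff_add_eq_zero, add_comm]
        exact h4.symm
      · intro x hx x' hx' hxx
        rw [Finset.mem_coe, Finset.mem_filter] at hx hx'
        funext j
        by_cases hj : j ∈ C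
        · have h1 := congrFun hx.2 ⟨j, hj⟩
          have h2 := congrFun hx'.2 ⟨j, hj⟩
          exact h1.trans h2.symm
        · rw [hC, Finset.mem_sdiff, not_and_not_right] at hj
          have h1 := hj (Finset.mem_univ j)
          rw [Finset.mem_map] at h1
          obtain ⟨k, _, rfl⟩ := h1
          exact congrFun hxx k
    exact_mod_cast this
  refine (Finset.sum_le_sum hfib).trans ?_
  rw [Finset.sum_const, nsmul_eq_mul, htcard]
  push_cast
  exact le_rfl

/-- Number of coefficient vectors with small support. -/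
theorem card_supp_le {m L : ℕ} (hm : 1 ≤ m) (K : ℕ) :
    ((Fintype.piFinset fun _ : Fin m => Finset.Ioo (-(L : ℤ)) L).filter fun b =>
      (univ.filter fun j => b j ≠ 0).card ≤ K).card ≤ (m * (2 * L)) ^ K := by
  induction K with
  | zero =>
    rw [pow_zero, Finset.card_le_one]
    intro b hb b' hb'
    rw [Finset.mem_filter, Nat.le_zero, Finset.card_eq_zero, Finset.filter_eq_empty_iff] at hb hb'
    funext j
    have h1 := hb.2 (Finset.mem_univ j)
    have h2 := hb'.2 (Finset.mem_univ j)
    rw [not_not] at h1 h2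
    rw [h1, h2]
  | succ K ih =>
    rcases Nat.eq_zero_or_pos L with hL | hL
    · subst hL
      have : (Fintype.piFinset fun _ : Fin m => Finset.Ioo (-((0 : ℕ) : ℤ)) (0 : ℕ)) = ∅ := by
        rw [Finset.eq_empty_iff_forall_notMem]
        intro b hb
        rw [Fintype.mem_piFinset] at hb
        have := hb ⟨0, by omega⟩
        simp at this
      rw [this]
      simp
    set BK := (Fintype.piFinset fun _ : Fin m => Finset.Ioo (-(L : ℤ)) L).filter fun b =>
      (univ.filter fun j => b j ≠ 0).card ≤ K with hBK
    have hsub : ((Fintype.piFinset fun _ : Fin m => Finset.Ioo (-(L : ℤ)) L).filter fun b =>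
        (univ.filter fun j => b j ≠ 0).card ≤ K + 1) ⊆
        (BK ×ˢ ((univ : Finset (Fin m)) ×ˢ Finset.Ioo (-(L : ℤ)) L)).image
          fun p => Function.update p.1 p.2.1 p.2.2 := by
      intro b hb
      rw [Finset.mem_filter, Fintype.mem_piFinset] at hb
      obtain ⟨h1, h2⟩ := hb
      rw [Finset.mem_image]
      by_cases h0 : ∃ j, b j ≠ 0
      · obtain ⟨j, hj⟩ := h0
        refine ⟨(Function.update b j 0, j, b j), ?_, ?_⟩
        · rw [Finset.mem_product, Finset.mem_product]
          refine ⟨?_, Finset.mem_univ _, h1 j⟩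
          rw [hBK, Finset.mem_filter, Fintype.mem_piFinset]
          refine ⟨fun i => ?_, ?_⟩
          · by_cases hij : i = j
            · subst hij
              simp only [Function.update_self, Finset.mem_Ioo]
              omega
            · simp only [Function.update_of_ne hij]
              exact h1 i
          · have h3 : (univ.filter fun i => Function.update b j 0 i ≠ 0) =
                (univ.filter fun i => b i ≠ 0).erase j := by
              ext i
              rw [Finset.mem_erase, Finset.mem_filter, Finset.mem_filter]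
              by_cases hij : i = j
              · subst hij
                simp
              · simp [hij]
            simp only
            rw [h3, Finset.card_erase_of_mem (by simp [hj])]
            omega
        · simp only
          rw [Function.update_idem, Function.update_eq_self]
      · push Not at h0
        have hb0 : b = 0 := funext h0
        refine ⟨(0, ⟨0, by omega⟩, 0), ?_, ?_⟩
        · rw [Finset.mem_product, Finset.mem_product]
          refine ⟨?_, Finset.mem_univ _, by
            show (0 : ℤ) ∈ Finset.Ioo (-(L : ℤ)) L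
            rw [Finset.mem_Ioo]
            omega⟩
          rw [hBK, Finset.mem_filter, Fintype.mem_piFinset]
          refine ⟨fun i => ?_, by simp⟩
          rw [Finset.mem_Ioo]
          simp only [Pi.zero_apply]
          omega
        · simp only
          rw [hb0]
          exact Function.update_eq_self _ _
    refine (Finset.card_le_card hsub).trans (Finset.card_image_le.trans ?_)
    rw [Finset.card_product, Finset.card_product, Finset.card_univ, Fintype.card_fin, pow_succ]
    have h4 : (Finset.Ioo (-(L : ℤ)) L).card ≤ 2 * L := by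
      rw [Int.card_Ioo]
      omega
    exact Nat.mul_le_mul ih (Nat.mul_le_mul le_rfl h4)

end E4Aux

open E4Aux

theorem E4 (h3 : Stmt_E3) : Stmt_E4 := by
  intro M D₀ L τ hM hD hL
  rcases Nat.eq_zero_or_pos τ with hτ | hτ
  · subst hτ
    refine ⟨0, fun n _ X _ _ => ?_⟩
    have hm : 0 * n = 0 := Nat.zero_mul n
    have hE : IsEmpty (Fin (0 * n)) := by rw [hm]; infer_instance
    have : ((Fintype.piFinset fun _ : Fin (0 * n) => X).filter fun x => Dissoc L x) =
        Fintype.piFinset fun _ : Fin (0 * n) => X := by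
      apply Finset.filter_true_of_mem
      intro x _ b _ _
      exact Subsingleton.elim _ _
    rw [this, Fintype.card_piFinset, Finset.prod_const, Finset.card_univ, Fintype.card_fin]
    omega
  set θ : ℝ := 1 / (16 * (2 * L) ^ τ) with hθ
  have hL0 : (0 : ℝ) < L := by exact_mod_cast hL
  have hθ0 : 0 < θ := by positivity
  obtain ⟨K, hK0, hK⟩ := h3 M D₀ hM θ hθ0
  -- asymptotics
  have hlim := tendsto_pow_const_div_const_pow_of_one_lt K (show (1 : ℝ) < 1024 by norm_num)
  have hε : (0 : ℝ) < 1 / (4 * (τ * (2 * L)) ^ K) := by positivity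
  obtain ⟨n₁, hn₁⟩ := Filter.eventually_atTop.1 (hlim.eventually (gt_mem_nhds hε))
  refine ⟨max n₁ 1, fun n hn X hX hXd => ?_⟩
  have hn1 : 1 ≤ n := (le_max_right _ _).trans hn
  have hnn₁ : n₁ ≤ n := (le_max_left _ _).trans hn
  set m := τ * n with hm
  have hm1 : 1 ≤ m := Nat.mul_pos hτ hn1
  -- size of `X`
  have hXcard : (1024 : ℝ) ^ n ≤ X.card := by
    have h1 : (1024 * D₀) ^ n ≤ (2 * M + 1) ^ n := by
      apply Nat.pow_le_pow_left
      refine le_trans ?_ hM
      have : D₀ ≤ D₀ ^ 4 := Nat.le_self_pow (by norm_num) _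
      omega
    have h2 : (1024 * D₀) ^ n ≤ D₀ ^ n * X.card := h1.trans hXd
    rw [mul_pow, mul_comm] at h2
    have h3 : 0 < D₀ ^ n := Nat.pow_pos hD
    have h4 := Nat.le_of_mul_le_mul_left h2 h3
    exact_mod_cast h4
  have hX0 : (0 : ℝ) < X.card := lt_of_lt_of_le (by positivity) hXcard
  have hpoly : 4 * ((m * (2 * L) : ℕ) : ℝ) ^ K ≤ X.card := by
    refine le_trans ?_ hXcard
    have h1 := hn₁ n hnn₁
    rw [div_lt_div_iff₀ (by positivity) (by positivity)] at h1
    have e : 4 * ((m * (2 * L) : ℕ) : ℝ) ^ K = (n : ℝ) ^ K * (4 * (τ * (2 * L)) ^ K) := by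
      rw [hm]
      push_cast
      rw [show (τ : ℝ) * n * (2 * L) = n * (τ * (2 * L)) by ring, mul_pow]
      ring
    rw [e]
    linarith
  -- the bad tuples
  set Bs : Finset (Fin m → ℤ) := (Fintype.piFinset fun _ : Fin m => Finset.Ioo (-(L : ℤ)) L).filter
    fun b => b ≠ 0 with hBs
  set cnt : (Fin m → ℤ) → ℕ := fun b =>
    ((Fintype.piFinset fun _ : Fin m => X).filter fun x => ∑ j, b j • x j = 0).card with hcnt
  have hbad : ((Fintype.piFinset fun _ : Fin m => X).filter fun x => ¬ Dissoc L x).card ≤
      ∑ b ∈ Bs, cnt b := by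
    refine le_trans (Finset.card_le_card ?_) Finset.card_biUnion_le
    intro x hx
    rw [Finset.mem_filter] at hx
    obtain ⟨h1, h2⟩ := hx
    unfold Dissoc at h2
    push Not at h2
    obtain ⟨b, hb1, hb2, hb3⟩ := h2
    rw [Finset.mem_biUnion]
    refine ⟨b, ?_, ?_⟩
    · rw [hBs, Finset.mem_filter, Fintype.mem_piFinset]
      refine ⟨fun j => ?_, hb3⟩
      have := hb1 j
      rw [abs_lt] at this
      rw [Finset.mem_Ioo]
      exact this
    · rw [Finset.mem_filter]
      exact ⟨h1, hb2⟩
  -- large support
  have hlarge : ∀ b ∈ Bs, K ≤ (univ.filter fun j => b j ≠ 0).card →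
      (cnt b : ℝ) ≤ 2 * θ ^ n * (X.card : ℝ) ^ m := by
    intro b _ hsupp
    obtain ⟨T, hT, hTK⟩ := Finset.exists_subset_card_eq hsupp
    set J : Fin K ↪ Fin m := (T.orderEmbOfFin hTK).toEmbedding with hJ
    have hJ0 : ∀ k, b (J k) ≠ 0 := by
      intro k
      have := hT (T.orderEmbOfFin_mem hTK k)
      exact (Finset.mem_filter.1 this).2
    have h1 := count_le X b J _ (fun z => hK n X hX hXd (fun k => b (J k)) hJ0 z)
    refine h1.trans (le_of_eq ?_)
    have hKm : K ≤ m := by
      have := Fintype.card_le_of_embedding J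
      simpa using this
    calc _ = 2 * θ ^ n * ((X.card : ℝ) ^ (m - K) * (X.card : ℝ) ^ K) := by ring
      _ = _ := by rw [← pow_add, Nat.sub_add_cancel hKm]
  -- small support
  have hsmall : ∀ b ∈ Bs, (cnt b : ℝ) ≤ (X.card : ℝ) ^ (m - 1) := by
    intro b hb
    rw [hBs, Finset.mem_filter] at hb
    obtain ⟨j₀, hj₀⟩ := Function.ne_iff.1 hb.2
    have hj₀' : b j₀ ≠ 0 := hj₀
    let J : Fin 1 ↪ Fin m := ⟨fun _ => j₀, fun a b _ => Subsingleton.elim a b⟩
    have h1 := count_le X b J 1 (fun z => by
      have : ((Fintype.piFinset fun _ : Fin 1 => X).filter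
          fun y => ∑ k, b (J k) • y k = z).card ≤ 1 := by
        rw [Finset.card_le_one]
        intro y hy y' hy'
        rw [Finset.mem_filter] at hy hy'
        have e1 : b j₀ • y 0 = z := by
          have := hy.2
          rw [Fin.sum_univ_one] at this
          exact this
        have e2 : b j₀ • y' 0 = z := by
          have := hy'.2
          rw [Fin.sum_univ_one] at this
          exact this
        funext k
        have hk : k = 0 := Subsingleton.elim _ _
        subst hk
        funext i
        have e3 := congrFun (e1.trans e2.symm) i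
        simp only [Pi.smul_apply, smul_eq_mul] at e3
        exact mul_left_cancel₀ hj₀' e3
      exact_mod_cast this)
    rwa [mul_one] at h1
  -- union bound
  have hsum : ((∑ b ∈ Bs, cnt b : ℕ) : ℝ) ≤ (2 * L : ℝ) ^ m * (2 * θ ^ n * (X.card : ℝ) ^ m) +
      ((m * (2 * L) : ℕ) : ℝ) ^ K * (X.card : ℝ) ^ (m - 1) := by
    rw [← Finset.sum_filter_add_sum_filter_not Bs
      (fun b => K ≤ (univ.filter fun j => b j ≠ 0).card)]
    push_cast
    refine add_le_add ?_ ?_
    · refine (Finset.sum_le_sum fun b hb => hlarge b (Finset.mem_filter.1 hb).1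
        (Finset.mem_filter.1 hb).2).trans ?_
      rw [Finset.sum_const, nsmul_eq_mul]
      refine mul_le_mul_of_nonneg_right ?_ (by positivity)
      have h1 : (Bs.filter fun b => K ≤ (univ.filter fun j => b j ≠ 0).card).card ≤
          (2 * L) ^ m := by
        refine (Finset.card_le_card ((Finset.filter_subset _ _).trans
          (Finset.filter_subset _ _))).trans ?_
        rw [Fintype.card_piFinset, Finset.prod_const, Finset.card_univ, Fintype.card_fin,
          Int.card_Ioo]
        apply Nat.pow_le_pow_left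
        omega
      exact_mod_cast h1
    · refine (Finset.sum_le_sum fun b hb => hsmall b (Finset.mem_filter.1 hb).1).trans ?_
      rw [Finset.sum_const, nsmul_eq_mul]
      refine mul_le_mul_of_nonneg_right ?_ (by positivity)
      have h1 : (Bs.filter fun b => ¬ K ≤ (univ.filter fun j => b j ≠ 0).card).card ≤
          (m * (2 * L)) ^ K := by
        refine (Finset.card_le_card ?_).trans (card_supp_le (L := L) hm1 K)
        intro b hb
        rw [Finset.mem_filter, hBs, Finset.mem_filter] at hb
        rw [Finset.mem_filter]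
        exact ⟨hb.1.1, by omega⟩
      exact_mod_cast h1
  have hfirst : (2 * L : ℝ) ^ m * (2 * θ ^ n * (X.card : ℝ) ^ m) ≤ (X.card : ℝ) ^ m / 8 := by
    have e : (2 * L : ℝ) ^ m * θ ^ n = (1 / 16) ^ n := by
      rw [hm, pow_mul, ← mul_pow, hθ]
      congr 1
      field_simp
    have h1 : (1 / 16 : ℝ) ^ n ≤ 1 / 16 := by
      calc (1 / 16 : ℝ) ^ n ≤ (1 / 16) ^ 1 := pow_le_pow_of_le_one (by norm_num) (by norm_num) hn1
        _ = 1 / 16 := pow_one _
    have h2 : (0 : ℝ) ≤ (X.card : ℝ) ^ m := by positivity
    calc _ = 2 * ((2 * L : ℝ) ^ m * θ ^ n) * (X.card : ℝ) ^ m := by ring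
      _ = 2 * (1 / 16) ^ n * (X.card : ℝ) ^ m := by rw [e]
      _ ≤ 2 * (1 / 16) * (X.card : ℝ) ^ m := by gcongr
      _ = _ := by ring
  have hsecond : ((m * (2 * L) : ℕ) : ℝ) ^ K * (X.card : ℝ) ^ (m - 1) ≤
      (X.card : ℝ) ^ m / 4 := by
    have h2 : (0 : ℝ) ≤ (X.card : ℝ) ^ (m - 1) := by positivity
    have e : (X.card : ℝ) ^ m = X.card * (X.card : ℝ) ^ (m - 1) := by
      rw [← pow_succ']
      congr 1
      omega
    rw [e]
    nlinarith
  -- conclusion
  have htot : ((Fintype.piFinset fun _ : Fin m => X).filter fun x => Dissoc L x).card +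
      ((Fintype.piFinset fun _ : Fin m => X).filter fun x => ¬ Dissoc L x).card =
      X.card ^ m := by
    rw [Finset.card_filter_add_card_filter_not, Fintype.card_piFinset, Finset.prod_const,
      Finset.card_univ, Fintype.card_fin]
  have hfin : (X.card : ℝ) ^ m ≤
      2 * (((Fintype.piFinset fun _ : Fin m => X).filter fun x => Dissoc L x).card : ℝ) := by
    have h1 : ((((Fintype.piFinset fun _ : Fin m => X).filter fun x => ¬ Dissoc L x).card : ℕ) : ℝ)
        ≤ (X.card : ℝ) ^ m / 8 + (X.card : ℝ) ^ m / 4 := by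
      calc _ ≤ ((∑ b ∈ Bs, cnt b : ℕ) : ℝ) := by exact_mod_cast hbad
        _ ≤ _ := hsum
        _ ≤ _ := add_le_add hfirst hsecond
    have h2 : ((((Fintype.piFinset fun _ : Fin m => X).filter fun x => Dissoc L x).card : ℕ) : ℝ) +
        ((((Fintype.piFinset fun _ : Fin m => X).filter fun x => ¬ Dissoc L x).card : ℕ) : ℝ) =
        (X.card : ℝ) ^ m := by exact_mod_cast htot
    have h3 : (0 : ℝ) ≤ (X.card : ℝ) ^ m := by positivity
    linarith
  exact_mod_cast hfin

end Pool.Agent.PFRElem
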