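import Pool.Agent.PFRElem.Defs

/-!
# E5a, E5b, E5c: size, doubling and average size of the Bohr sets
-/

set_option autoImplicit false

namespace Pool.Agent.PFRElem

open Finset
open scoped Classical Pointwise

namespace E5Aux

theorem small_of_int {q L : ℕ} [NeZero q] {t : ZMod q} {y : ℤ} (h : (y : ZMod q) = t)
    (hy : 6 * (L : ℤ) * |y| ≤ q) : small q L t := by
  unfold small
  refine le_trans ?_ hy
  refine mul_le_mul_of_nonneg_left ?_ (by positivity)
  have h1 := ZMod.natAbs_min_of_le_div_two q t.valMinAbs y (by rw [ZMod.coe_valMinAbs, h])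
    (ZMod.natAbs_valMinAbs_le t)
  rw [Int.abs_eq_natAbs, Int.abs_eq_natAbs]
  exact_mod_cast h1

theorem dot_sub {n q : ℕ} (φ : Fin n → ZMod q) (x y : Fin n → ℤ) :
    dot q φ (x - y) = dot q φ x - dot q φ y := by
  unfold dot
  rw [← Finset.sum_sub_distrib]
  refine Finset.sum_congr rfl fun k _ => ?_
  rw [Pi.sub_apply]
  push_cast
  ring

theorem dot_add {n q : ℕ} (φ : Fin n → ZMod q) (x y : Fin n → ℤ) :
    dot q φ (x + y) = dot q φ x + dot q φ y := by
  unfold dot
  rw [← Finset.sum_add_distrib]
  refine Finset.sum_congr rfl fun k _ => ?_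
  rw [Pi.add_apply]
  push_cast
  ring

/-- Two integers with the same quotient by `q > 0` are at distance `< q`. -/
theorem abs_sub_lt_of_ediv {q a b : ℤ} (hq : 0 < q) (h : a / q = b / q) : |a - b| < q := by
  have h1 := Int.emod_add_mul_ediv a q
  have h2 := Int.emod_add_mul_ediv b q
  have h3 := Int.emod_nonneg a hq.ne'
  have h4 := Int.emod_nonneg b hq.ne'
  have h5 := Int.emod_lt_of_pos a hq
  have h6 := Int.emod_lt_of_pos b hq
  rw [h] at h1
  rw [abs_lt]
  constructor <;> linarith

theorem mem_box {n M : ℕ} {x : Fin n → ℤ} : x ∈ box n M ↔ ∀ i, |x i| ≤ M := by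
  unfold box
  rw [Fintype.mem_piFinset]
  simp only [Finset.mem_Icc, abs_le]

end E5Aux

open E5Aux

theorem E5a : Stmt_E5a := by
  intro n M q L _ Φ hL
  have hq : (0 : ℤ) < q := by exact_mod_cast Nat.pos_of_ne_zero (NeZero.ne q)
  set s : Finset (Fin n → ℤ) := Fintype.piFinset fun _ => Finset.Icc (0 : ℤ) M with hs
  set t : Finset (Fin n → ℤ) := Fintype.piFinset fun _ => Finset.Ico (0 : ℤ) (6 * L : ℕ) with ht
  let f : (Fin n → ℤ) → (Fin n → ℤ) := fun x i => 6 * (L : ℤ) * ((dot q (Φ i) x).val : ℤ) / q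
  have hscard : s.card = (M + 1) ^ n := by
    rw [hs, Fintype.card_piFinset, Finset.prod_const, Finset.card_univ, Fintype.card_fin,
      Int.card_Icc]
    congr 1
  have htcard : t.card = (6 * L) ^ n := by
    rw [ht, Fintype.card_piFinset, Finset.prod_const, Finset.card_univ, Fintype.card_fin,
      Int.card_Ico]
    congr 1
  rw [← hscard, ← htcard, mul_comm]
  refine Finset.card_le_mul_card_image_of_maps_to (f := f) ?_ _ ?_
  · intro x _
    rw [ht, Fintype.mem_piFinset]
    intro i
    rw [Finset.mem_Ico]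
    have h1 : (((dot q (Φ i) x).val : ℕ) : ℤ) < q := by exact_mod_cast ZMod.val_lt _
    have h2 : (0 : ℤ) ≤ ((dot q (Φ i) x).val : ℤ) := by positivity
    have hL0 : (0 : ℤ) < 6 * L := by exact_mod_cast (by omega : 0 < 6 * L)
    constructor
    · apply Int.ediv_nonneg _ hq.le
      positivity
    · rw [Int.ediv_lt_iff_lt_mul hq]
      push_cast
      nlinarith
  · intro c _
    by_cases hne : (s.filter fun x => f x = c).Nonempty
    · obtain ⟨x₀, hx₀⟩ := hne
      rw [Finset.mem_filter, hs, Fintype.mem_piFinset] at hx₀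
      refine Finset.card_le_card_of_injOn (fun x => x - x₀) ?_ ?_
      · intro x hx
        rw [Finset.mem_coe, Finset.mem_filter, hs, Fintype.mem_piFinset] at hx
        rw [Finset.mem_coe]
        unfold Bohr
        rw [Finset.mem_filter, mem_box]
        refine ⟨fun i => ?_, fun i => ?_⟩
        · have h1 := hx.1 i
          have h2 := hx₀.1 i
          rw [Finset.mem_Icc] at h1 h2
          change |x i - x₀ i| ≤ M
          rw [abs_le]
          constructor <;> linarith [h1.1, h1.2, h2.1, h2.2]
        · rw [dot_sub]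
          apply small_of_int (y := ((dot q (Φ i) x).val : ℤ) - ((dot q (Φ i) x₀).val : ℤ))
          · push_cast
            rw [ZMod.natCast_zmod_val, ZMod.natCast_zmod_val]
          · have h1 : 6 * (L : ℤ) * ((dot q (Φ i) x).val : ℤ) / q =
                6 * (L : ℤ) * ((dot q (Φ i) x₀).val : ℤ) / q :=
              (congrFun hx.2 i).trans (congrFun hx₀.2 i).symm
            have h2 := abs_sub_lt_of_ediv hq h1
            rw [← mul_sub, abs_mul, abs_of_nonneg (by positivity)] at h2
            exact h2.le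
      · intro x _ y _ hxy
        exact sub_left_injective hxy
    · rw [Finset.not_nonempty_iff_eq_empty] at hne
      rw [hne]
      simp

theorem E5b : Stmt_E5b := by
  intro n M q L _ Φ hL
  have hq : (0 : ℤ) < q := by exact_mod_cast Nat.pos_of_ne_zero (NeZero.ne q)
  set A := Bohr n M q L Φ with hA
  have hchoose : ∀ z ∈ A + A, ∃ t : Fin n → ℤ, ∀ i, ((t i : ℤ) : ZMod q) = dot q (Φ i) z ∧
      6 * (L : ℤ) * |t i| ≤ 2 * q := by
    intro z hz
    rw [Finset.mem_add] at hz
    obtain ⟨x, hx, y, hy, rfl⟩ := hz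
    rw [hA] at hx hy
    unfold Bohr at hx hy
    rw [Finset.mem_filter] at hx hy
    refine ⟨fun i => (dot q (Φ i) x).valMinAbs + (dot q (Φ i) y).valMinAbs, fun i => ⟨?_, ?_⟩⟩
    · rw [dot_add, Int.cast_add, ZMod.coe_valMinAbs, ZMod.coe_valMinAbs]
    · have h1 := hx.2 i
      have h2 := hy.2 i
      unfold small at h1 h2
      have h3 := abs_add_le (dot q (Φ i) x).valMinAbs (dot q (Φ i) y).valMinAbs
      have h4 : 6 * (L : ℤ) * |(dot q (Φ i) x).valMinAbs + (dot q (Φ i) y).valMinAbs| ≤
          6 * (L : ℤ) * (|(dot q (Φ i) x).valMinAbs| + |(dot q (Φ i) y).valMinAbs|) :=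
        mul_le_mul_of_nonneg_left h3 (by positivity)
      linarith
  choose! T hT using hchoose
  have hbox2 : ∀ z ∈ A + A, ∀ i, |z i| ≤ 2 * M := by
    intro z hz i
    rw [Finset.mem_add] at hz
    obtain ⟨x, hx, y, hy, rfl⟩ := hz
    rw [hA] at hx hy
    unfold Bohr at hx hy
    rw [Finset.mem_filter, mem_box] at hx hy
    have h1 := hx.1 i
    have h2 := hy.1 i
    rw [Pi.add_apply]
    exact (abs_add_le _ _).trans (by linarith)
  set t : Finset (Fin n → ℤ × ℤ) := Fintype.piFinset fun _ =>
    Finset.Icc (0 : ℤ) 3 ×ˢ Finset.Icc (-2 : ℤ) 2 with ht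
  let f : (Fin n → ℤ) → (Fin n → ℤ × ℤ) := fun z i =>
    ((z i + 2 * M) / (M + 1), 6 * (L : ℤ) * T z i / q)
  have htcard : t.card = 20 ^ n := by
    rw [ht, Fintype.card_piFinset, Finset.prod_const, Finset.card_univ, Fintype.card_fin,
      Finset.card_product, Int.card_Icc, Int.card_Icc]
    rfl
  rw [← htcard, mul_comm]
  have hM1 : (0 : ℤ) < M + 1 := by positivity
  refine Finset.card_le_mul_card_image_of_maps_to (f := f) ?_ _ ?_
  · intro z hz
    rw [ht, Fintype.mem_piFinset]
    intro i
    rw [Finset.mem_product, Finset.mem_Icc, Finset.mem_Icc]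
    have h1 := hbox2 z hz i
    have h2 := (hT z hz i).2
    rw [abs_le] at h1
    have h3 : |6 * (L : ℤ) * T z i| ≤ 2 * q := by
      rw [abs_mul, abs_of_nonneg (show (0 : ℤ) ≤ 6 * L by positivity)]
      exact h2
    rw [abs_le] at h3
    refine ⟨⟨?_, ?_⟩, ?_, ?_⟩
    · exact Int.ediv_nonneg (by linarith [h1.1]) hM1.le
    · have : (z i + 2 * M) / ((M : ℤ) + 1) < 4 := by
        rw [Int.ediv_lt_iff_lt_mul hM1]
        linarith [h1.2]
      change (z i + 2 * M) / ((M : ℤ) + 1) ≤ 3
      omega
    · change -2 ≤ 6 * (L : ℤ) * T z i / q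
      rw [Int.le_ediv_iff_mul_le hq]
      linarith [h3.1]
    · have : 6 * (L : ℤ) * T z i / q < 3 := by
        rw [Int.ediv_lt_iff_lt_mul hq]
        linarith [h3.2]
      change 6 * (L : ℤ) * T z i / q ≤ 2
      omega
  · intro c _
    by_cases hne : ((A + A).filter fun z => f z = c).Nonempty
    · obtain ⟨z₀, hz₀⟩ := hne
      rw [Finset.mem_filter] at hz₀
      refine Finset.card_le_card_of_injOn (fun z => z - z₀) ?_ ?_
      · intro z hz
        rw [Finset.mem_coe, Finset.mem_filter] at hz
        rw [Finset.mem_coe, hA]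
        unfold Bohr
        rw [Finset.mem_filter, mem_box]
        refine ⟨fun i => ?_, fun i => ?_⟩
        · have h1 : (z i + 2 * M) / ((M : ℤ) + 1) = (z₀ i + 2 * M) / ((M : ℤ) + 1) :=
            congrArg Prod.fst ((congrFun hz.2 i).trans (congrFun hz₀.2 i).symm)
          have h2 := abs_sub_lt_of_ediv hM1 h1
          change |z i - z₀ i| ≤ M
          have e : z i + 2 * (M : ℤ) - (z₀ i + 2 * M) = z i - z₀ i := by ring
          rw [e] at h2
          omega
        · rw [dot_sub]
          apply small_of_int (y := T z i - T z₀ i)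
          · push_cast
            rw [(hT z hz.1 i).1, (hT z₀ hz₀.1 i).1]
          · have h1 : 6 * (L : ℤ) * T z i / q = 6 * (L : ℤ) * T z₀ i / q :=
              congrArg Prod.snd ((congrFun hz.2 i).trans (congrFun hz₀.2 i).symm)
            have h2 := abs_sub_lt_of_ediv hq h1
            rw [← mul_sub, abs_mul, abs_of_nonneg (by positivity)] at h2
            exact h2.le
      · intro x _ y _ hxy
        exact sub_left_injective hxy
    · rw [Finset.not_nonempty_iff_eq_empty] at hne
      rw [hne]
      simp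

namespace E5Aux

/-- Number of small residues. -/
theorem card_small {q L : ℕ} [NeZero q] (hL : 1 ≤ L) (hLq : 3 * L ≤ q) :
    (univ.filter fun t : ZMod q => small q L t).card * (3 * L) ≤ 2 * q := by
  have hL0 : (0 : ℤ) < 6 * L := by exact_mod_cast (by omega : 0 < 6 * L)
  have h1 : (univ.filter fun t : ZMod q => small q L t).card ≤
      (Finset.Icc (-((q : ℤ) / (6 * L))) ((q : ℤ) / (6 * L))).card := by
    refine Finset.card_le_card_of_injOn (fun t => t.valMinAbs) ?_ ?_
    · intro t ht
      rw [Finset.mem_coe, Finset.mem_filter] at ht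
      have h2 := ht.2
      unfold small at h2
      rw [Finset.mem_coe, Finset.mem_Icc, ← abs_le, Int.le_ediv_iff_mul_le hL0]
      linarith
    · intro t _ t' _ h
      exact ZMod.injective_valMinAbs h
  rw [Int.card_Icc] at h1
  have h2 : (q : ℤ) / (6 * L) * (6 * L) ≤ q := Int.ediv_mul_le _ hL0.ne'
  have h3 : (0 : ℤ) ≤ (q : ℤ) / (6 * L) := Int.ediv_nonneg (by positivity) hL0.le
  set u := (q : ℤ) / (6 * L) with hu
  have h4 : ((univ.filter fun t : ZMod q => small q L t).card : ℤ) ≤ 2 * u + 1 := by omega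
  have h5 : ((univ.filter fun t : ZMod q => small q L t).card : ℤ) * (3 * L) ≤ 2 * q := by
    have h6 : ((univ.filter fun t : ZMod q => small q L t).card : ℤ) * (3 * L) ≤
        (2 * u + 1) * (3 * L) := mul_le_mul_of_nonneg_right h4 (by positivity)
    have h7 : (3 : ℤ) * L ≤ q := by exact_mod_cast hLq
    nlinarith
  exact_mod_cast h5

/-- Number of small constraint vectors for a nonzero vector. -/
theorem card_row {n M q L : ℕ} [Fact q.Prime] (hL : 1 ≤ L) (hM : M < q) (hLq : 3 * L ≤ q)
    {x : Fin n → ℤ} (hx : x ∈ box n M) (hx0 : x ≠ 0) :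
    (univ.filter fun φ : Fin n → ZMod q => small q L (dot q φ x)).card * (3 * L) ≤
      2 * q ^ n := by
  have hq : 0 < q := (Fact.out : q.Prime).pos
  obtain ⟨k, hk⟩ := Function.ne_iff.1 hx0
  have hxk : (x k : ZMod q) ≠ 0 := by
    intro h
    rw [ZMod.intCast_zmod_eq_zero_iff_dvd] at h
    have h1 := (mem_box.1 hx) k
    apply hk
    apply Int.eq_zero_of_abs_lt_dvd h
    have : (M : ℤ) < q := by exact_mod_cast hM
    linarith
  -- fibres
  set N : ZMod q → ℕ := fun t => (univ.filter fun φ : Fin n → ZMod q => dot q φ x = t).card with hN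
  have hNt : ∀ t, N t = N 0 := by
    intro t
    have hadd : ∀ (φ : Fin n → ZMod q) (c : ZMod q),
        dot q (φ + Pi.single k c) x = dot q φ x + c * (x k : ZMod q) := by
      intro φ c
      unfold dot
      simp only [Pi.add_apply, add_mul, Finset.sum_add_distrib]
      congr 1
      rw [Finset.sum_eq_single k]
      · rw [Pi.single_eq_same]
      · intro j _ hj
        rw [Pi.single_eq_of_ne hj, zero_mul]
      · intro h
        exact absurd (Finset.mem_univ k) h
    refine Finset.card_nbij' (fun φ => φ + Pi.single k (-t * (x k : ZMod q)⁻¹))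
      (fun φ => φ + Pi.single k (t * (x k : ZMod q)⁻¹)) ?_ ?_ ?_ ?_
    · intro φ hφ
      rw [Finset.mem_coe, Finset.mem_filter] at hφ ⊢
      refine ⟨Finset.mem_univ _, ?_⟩
      rw [hadd, hφ.2, mul_assoc, inv_mul_cancel₀ hxk]
      ring
    · intro φ hφ
      rw [Finset.mem_coe, Finset.mem_filter] at hφ ⊢
      refine ⟨Finset.mem_univ _, ?_⟩
      rw [hadd, hφ.2, mul_assoc, inv_mul_cancel₀ hxk]
      ring
    · intro φ _
      simp only
      rw [add_assoc, ← Pi.single_add]
      have : -t * (x k : ZMod q)⁻¹ + t * (x k : ZMod q)⁻¹ = 0 := by ring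
      rw [this, Pi.single_zero, add_zero]
    · intro φ _
      simp only
      rw [add_assoc, ← Pi.single_add]
      have : t * (x k : ZMod q)⁻¹ + -t * (x k : ZMod q)⁻¹ = 0 := by ring
      rw [this, Pi.single_zero, add_zero]
  have htot : q ^ n = q * N 0 := by
    have h1 := Finset.card_eq_sum_card_fiberwise (f := fun φ : Fin n → ZMod q => dot q φ x)
      (s := (univ : Finset (Fin n → ZMod q))) (t := (univ : Finset (ZMod q)))
      (fun _ _ => Finset.mem_univ _)
    have h2 : (∑ t : ZMod q, N t) = q * N 0 := by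
      simp only [hNt]
      rw [Finset.sum_const, Finset.card_univ, ZMod.card, smul_eq_mul]
    rw [← h2, ← h1, Finset.card_univ, Fintype.card_fun, ZMod.card, Fintype.card_fin]
  have hcnt : (univ.filter fun φ : Fin n → ZMod q => small q L (dot q φ x)).card =
      (univ.filter fun t : ZMod q => small q L t).card * N 0 := by
    have h1 := Finset.card_eq_sum_card_fiberwise (f := fun φ : Fin n → ZMod q => dot q φ x)
      (s := (univ.filter fun φ : Fin n → ZMod q => small q L (dot q φ x)))
      (t := (univ.filter fun t : ZMod q => small q L t))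
      (fun φ hφ => by
        rw [Finset.mem_coe, Finset.mem_filter] at hφ ⊢
        exact ⟨Finset.mem_univ _, hφ.2⟩)
    rw [h1]
    have h2 : ∀ t ∈ (univ.filter fun t : ZMod q => small q L t),
        ((univ.filter fun φ : Fin n → ZMod q => small q L (dot q φ x)).filter
          fun φ => dot q φ x = t).card = N 0 := by
      intro t ht
      rw [← hNt t]
      congr 1
      ext φ
      rw [Finset.mem_filter, Finset.mem_filter, Finset.mem_filter]
      constructor
      · rintro ⟨⟨_, _⟩, h⟩
        exact ⟨Finset.mem_univ _, h⟩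
      · rintro ⟨_, h⟩
        refine ⟨⟨Finset.mem_univ _, ?_⟩, h⟩
        rw [h]
        exact (Finset.mem_filter.1 ht).2
    rw [Finset.sum_congr rfl h2, Finset.sum_const, smul_eq_mul]
  have : NeZero q := ⟨hq.ne'⟩
  have hs := card_small (q := q) hL hLq
  have h1 : q * ((univ.filter fun φ : Fin n → ZMod q => small q L (dot q φ x)).card * (3 * L)) ≤
      q * (2 * q ^ n) := by
    rw [hcnt]
    calc _ = ((univ.filter fun t : ZMod q => small q L t).card * (3 * L)) * (q * N 0) := by ring
      _ = ((univ.filter fun t : ZMod q => small q L t).card * (3 * L)) * q ^ n := by rw [← htot]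
      _ ≤ (2 * q) * q ^ n := Nat.mul_le_mul_right _ hs
      _ = _ := by ring
  exact Nat.le_of_mul_le_mul_left h1 hq

end E5Aux

theorem E5c : Stmt_E5c := by
  intro n M q L _ hL hM hLq
  have hq : 0 < q := (Fact.out : q.Prime).pos
  have : NeZero q := ⟨hq.ne'⟩
  -- exchange the sums
  have h1 : (∑ Φ : Fin n → Fin n → ZMod q, (Bohr n M q L Φ).card) =
      ∑ x ∈ box n M, (univ.filter fun φ : Fin n → ZMod q => small q L (dot q φ x)).card ^ n := by
    have h2 : ∀ Φ : Fin n → Fin n → ZMod q, (Bohr n M q L Φ).card =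
        ∑ x ∈ box n M, if (∀ i, small q L (dot q (Φ i) x)) then 1 else 0 := by
      intro Φ
      unfold Bohr
      rw [Finset.card_filter]
    simp only [h2]
    rw [Finset.sum_comm]
    refine Finset.sum_congr rfl fun x _ => ?_
    rw [← Finset.card_filter]
    have e : (univ.filter fun Φ : Fin n → Fin n → ZMod q => ∀ i, small q L (dot q (Φ i) x)) =
        Fintype.piFinset fun _ : Fin n =>
          (univ.filter fun φ : Fin n → ZMod q => small q L (dot q φ x)) := by
      ext Φ
      rw [Fintype.mem_piFinset]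
      simp only [Finset.mem_filter, Finset.mem_univ, true_and]
    rw [e, Fintype.card_piFinset, Finset.prod_const, Finset.card_univ, Fintype.card_fin]
  rw [h1, Finset.sum_mul]
  have h0 : (0 : Fin n → ℤ) ∈ box n M := by
    rw [mem_box]
    intro i
    simp
  rw [← Finset.add_sum_erase _ _ h0]
  have hbox : (box n M).card = (2 * M + 1) ^ n := by
    unfold box
    rw [Fintype.card_piFinset, Finset.prod_const, Finset.card_univ, Fintype.card_fin, Int.card_Icc]
    congr 1
    omega
  have hfirst : (univ.filter fun φ : Fin n → ZMod q => small q L (dot q φ 0)).card ^ n *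
      (3 * L) ^ n ≤ q ^ (n * n) * (3 * L) ^ n := by
    refine Nat.mul_le_mul_right _ ?_
    rw [pow_mul]
    apply Nat.pow_le_pow_left
    refine (Finset.card_le_univ _).trans ?_
    rw [Fintype.card_fun, ZMod.card, Fintype.card_fin]
  have hrest : ∑ x ∈ (box n M).erase 0,
      (univ.filter fun φ : Fin n → ZMod q => small q L (dot q φ x)).card ^ n * (3 * L) ^ n ≤
      q ^ (n * n) * (2 * (2 * M + 1)) ^ n := by
    have h3 : ∀ x ∈ (box n M).erase 0,
        (univ.filter fun φ : Fin n → ZMod q => small q L (dot q φ x)).card ^ n * (3 * L) ^ n ≤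
        (2 * q ^ n) ^ n := by
      intro x hx
      rw [Finset.mem_erase] at hx
      rw [← mul_pow]
      exact Nat.pow_le_pow_left (card_row hL hM hLq hx.2 hx.1) n
    refine (Finset.sum_le_sum h3).trans ?_
    rw [Finset.sum_const, smul_eq_mul]
    calc _ ≤ (box n M).card * (2 * q ^ n) ^ n :=
          Nat.mul_le_mul_right _ (Finset.card_le_card (Finset.erase_subset _ _))
      _ = (2 * M + 1) ^ n * (2 * q ^ n) ^ n := by rw [hbox]
      _ = _ := by
        rw [mul_pow, mul_pow, ← pow_mul]
        ring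
  calc _ ≤ q ^ (n * n) * (3 * L) ^ n + q ^ (n * n) * (2 * (2 * M + 1)) ^ n :=
        Nat.add_le_add hfirst hrest
    _ = _ := by ring

end Pool.Agent.PFRElem
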