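import Pool.Agent.PFRElem.Defs
import Pool.Agent.PFRNeg.M4

/-!
# E6a: deletion-contraction (from `PFRNeg.M4`, helper34)
-/

set_option autoImplicit false

namespace Pool.Agent.PFRElem

open Finset
open scoped Classical Pointwise

theorem E6a : Stmt_E6a := by
  intro n ι _ u
  have h := Pool.Agent.PFRNeg.M4Aux.indF_le_fsF _ ι (Fin n → ℚ) univ u rfl
  have h1 : Pool.Agent.PFRNeg.M4Aux.indF univ u =
      univ.filter (fun S : Finset ι => LinearIndependent ℚ fun i : S => u i) := by
    ext T
    rw [Pool.Agent.PFRNeg.M4Aux.mem_indF, mem_filter]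
    simp only [subset_univ, true_and, mem_univ]
    rfl
  have h2 : Pool.Agent.PFRNeg.M4Aux.fsF univ u = FS u := by
    ext x
    simp only [Pool.Agent.PFRNeg.M4Aux.fsF, FS, mem_image, mem_powerset, subset_univ, true_and,
      mem_univ]
  rw [← h1, ← h2]
  exact h

end Pool.Agent.PFRElem
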