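import Pool.Agent.PFRElem.Defs

set_option autoImplicit false

namespace Pool.Agent.PFRElem

open Finset
open scoped Classical Pointwise

/-- Number of linearly independent ordered `k`-tuples is at least `N ^ k` for `k ≤ d`. -/
theorem E6b_tuples {n : ℕ} {ι : Type} [Fintype ι] (u : ι → Fin n → ℚ) (d N : ℕ)
    (H : ∀ W : Submodule ℚ (Fin n → ℚ), Module.finrank ℚ W < d →
      N ≤ (univ.filter fun i => u i ∉ W).card) :
    ∀ k ≤ d, N ^ k ≤
      (univ.filter fun t : Fin k → ι => LinearIndependent ℚ (u ∘ t)).card := by
  intro k
  induction k with
  | zero =>
    intro _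
    rw [pow_zero]
    apply Nat.one_le_iff_ne_zero.mpr
    apply Finset.card_ne_zero_of_mem (a := Fin.elim0)
    simp only [Finset.mem_filter, Finset.mem_univ, true_and]
    exact linearIndependent_empty_type
  | succ k ih =>
    intro hk
    have ih' := ih (by omega)
    -- pairs
    let T : Finset (Fin k → ι) := univ.filter fun t : Fin k → ι => LinearIndependent ℚ (u ∘ t)
    let S : Finset (Σ _ : Fin k → ι, ι) :=
      T.sigma fun t => univ.filter fun i => u i ∉ Submodule.span ℚ (Set.range (u ∘ t))
    have hS : N ^ (k + 1) ≤ S.card := by
      rw [Finset.card_sigma, pow_succ]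
      calc N ^ k * N ≤ T.card * N := Nat.mul_le_mul_right _ ih'
        _ = ∑ _t ∈ T, N := by rw [Finset.sum_const, smul_eq_mul]
        _ ≤ _ := by
          apply Finset.sum_le_sum
          intro t ht
          apply H
          have hli : LinearIndependent ℚ (u ∘ t) := (Finset.mem_filter.mp ht).2
          rw [finrank_span_eq_card hli]
          simp
          omega
    refine hS.trans ?_
    apply Finset.card_le_card_of_injOn (fun p => (Fin.snoc p.1 p.2 : Fin (k + 1) → ι))
    · intro p hp
      rw [Finset.mem_coe, Finset.mem_sigma] at hp
      simp only [Finset.mem_coe, Finset.mem_filter, Finset.mem_univ, true_and]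
      have h1 : LinearIndependent ℚ (u ∘ p.1) := (Finset.mem_filter.mp hp.1).2
      have h2 : u p.2 ∉ Submodule.span ℚ (Set.range (u ∘ p.1)) := (Finset.mem_filter.mp hp.2).2
      have h3 : u ∘ (Fin.snoc p.1 p.2 : Fin (k + 1) → ι) =
          (Fin.snoc (u ∘ p.1) (u p.2) : Fin (k + 1) → Fin n → ℚ) := by
        funext j
        refine Fin.lastCases ?_ ?_ j
        · simp
        · intro i
          simp
      rw [h3]
      exact linearIndependent_finSnoc.mpr ⟨h1, h2⟩
    · intro p _ p' _ hpp
      simp only at hpp
      have h1 : p.1 = p'.1 := by
        funext j
        have := congrFun hpp j.castSucc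
        simpa using this
      have h2 : p.2 = p'.2 := by
        have := congrFun hpp (Fin.last k)
        simpa using this
      exact Sigma.ext h1 (heq_of_eq h2)

theorem E6b (h : Stmt_E6a) : Stmt_E6b := by
  intro n ι _ u d N hlt
  by_contra hcon
  push Not at hcon
  have htup := E6b_tuples u d N (fun W hW => hcon W hW) d le_rfl
  have hFS := h n ι u
  let T : Finset (Fin d → ι) := univ.filter fun t : Fin d → ι => LinearIndependent ℚ (u ∘ t)
  let I : Finset (Finset ι) := univ.filter fun S : Finset ι => LinearIndependent ℚ fun i : S => u i
  have hTI : T.card ≤ I.card * d ^ d := by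
    have hmaps : ∀ t ∈ T, (univ.image t : Finset ι) ∈ I := by
      intro t ht
      have hli : LinearIndependent ℚ (u ∘ t) := (Finset.mem_filter.mp ht).2
      simp only [I, Finset.mem_filter, Finset.mem_univ, true_and]
      have htinj : Function.Injective t := hli.injective.of_comp
      have h1 : LinearIndepOn ℚ u (Set.range t) := (linearIndepOn_range_iff htinj u).mpr hli
      have hr : (Set.range t : Set ι) = ((univ.image t : Finset ι) : Set ι) := by simp
      rw [hr] at h1
      exact h1
    rw [Finset.card_eq_sum_card_fiberwise hmaps]
    calc ∑ S ∈ I, (T.filter fun t => univ.image t = S).card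
        ≤ ∑ _S ∈ I, d ^ d := by
          apply Finset.sum_le_sum
          intro S _
          by_cases hSd : S.card ≤ d
          · calc (T.filter fun t => univ.image t = S).card
                ≤ (Fintype.piFinset fun _ : Fin d => S).card := by
                  apply Finset.card_le_card
                  intro t ht
                  rw [Fintype.mem_piFinset]
                  intro i
                  rw [← (Finset.mem_filter.mp ht).2]
                  exact Finset.mem_image_of_mem t (Finset.mem_univ i)
              _ = S.card ^ d := by rw [Fintype.card_piFinset]; simp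
              _ ≤ d ^ d := Nat.pow_le_pow_left hSd d
          · have : (T.filter fun t => univ.image t = S) = ∅ := by
              rw [Finset.filter_eq_empty_iff]
              intro t _ hS
              apply hSd
              rw [← hS]
              exact Finset.card_image_le.trans (by simp)
            rw [this]
            simp
      _ = I.card * d ^ d := by rw [Finset.sum_const, smul_eq_mul]
  have hfin : N ^ d ≤ (FS u).card * d ^ d :=
    (htup.trans hTI).trans (Nat.mul_le_mul_right _ hFS)
  omega

end Pool.Agent.PFRElem
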