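import Pool.Agent.PFRElem.Defs

set_option autoImplicit false

namespace Pool.Agent.PFRElem

open Finset
open scoped Classical Pointwise

theorem E6c : Stmt_E6c := by
  intro n M W y
  let f : Fin n → Module.Dual ℚ W := fun j => (LinearMap.proj j).comp W.subtype
  obtain ⟨κ, a, ha, hspan, hli⟩ := exists_linearIndependent' ℚ f
  haveI : Finite κ := hli.finite
  haveI : Fintype κ := Fintype.ofFinite κ
  have hcard : Fintype.card κ ≤ Module.finrank ℚ W := by
    have h := hli.fintype_card_le_finrank
    rwa [Subspace.dual_finrank_eq] at h
  have hinj : ∀ w ∈ W, (∀ k, w (a k) = 0) → w = 0 := by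
    intro w hw h0
    funext j
    have hj : f j ∈ Submodule.span ℚ (Set.range (f ∘ a)) := by
      rw [hspan]
      exact Submodule.subset_span ⟨j, rfl⟩
    have : ∀ g ∈ Submodule.span ℚ (Set.range (f ∘ a)), g ⟨w, hw⟩ = 0 := by
      intro g hg
      induction hg using Submodule.span_induction with
      | mem x hx =>
        obtain ⟨k, rfl⟩ := hx
        exact h0 k
      | zero => rfl
      | add x z _ _ hx hz => simp [hx, hz]
      | smul c x _ hx => simp [hx]
    exact this _ hj
  let g : (Fin n → ℤ) → (κ → ℤ) := fun x k => x (a k)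
  have hmaps : ∀ x ∈ ((box n M).filter fun x => (fun j => (x j : ℚ)) - y ∈ W),
      g x ∈ Fintype.piFinset fun _ : κ => Finset.Icc (-(M : ℤ)) M := by
    intro x hx
    rw [Finset.mem_filter] at hx
    have := hx.1
    unfold box at this
    rw [Fintype.mem_piFinset] at this ⊢
    intro k
    exact this (a k)
  have hinjOn : Set.InjOn g ((box n M).filter fun x => (fun j => (x j : ℚ)) - y ∈ W) := by
    intro x hx x' hx' hg
    rw [Finset.mem_coe, Finset.mem_filter] at hx hx'
    have hsub : (fun j => (x j : ℚ)) - (fun j => (x' j : ℚ)) ∈ W := by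
      have := W.sub_mem hx.2 hx'.2
      simpa using this
    have h0 := hinj _ hsub (by
      intro k
      have := congrFun hg k
      simp only [g] at this
      simp [this])
    funext j
    have := congrFun h0 j
    simp only [Pi.sub_apply, Pi.zero_apply] at this
    have h2 : (x j : ℚ) = x' j := by linarith
    exact_mod_cast h2
  calc ((box n M).filter fun x => (fun j => (x j : ℚ)) - y ∈ W).card
      ≤ (Fintype.piFinset fun _ : κ => Finset.Icc (-(M : ℤ)) M).card :=
        Finset.card_le_card_of_injOn g hmaps hinjOn
    _ = (2 * M + 1) ^ Fintype.card κ := by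
        rw [Fintype.card_piFinset]
        simp only [Int.card_Icc, Finset.prod_const, Finset.card_univ]
        congr 1
        omega
    _ ≤ (2 * M + 1) ^ Module.finrank ℚ W := Nat.pow_le_pow_right (by omega) hcard

end Pool.Agent.PFRElem
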