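import Pool.Agent.PFRElem.Defs

/-!
# E6d: progressions as subset sums; E6: assembly of the structure theorem
-/

set_option autoImplicit false

namespace Pool.Agent.PFRElem

open Finset
open scoped Classical Pointwise

theorem E6d : Stmt_E6d := by
  intro n r a v K hK
  refine ⟨(Σ i : Fin r, Fin (K i - 1)), inferInstance, fun p => v p.1, ?_⟩
  ext x
  simp only [Set.mem_ofPred_eq]
  constructor
  · rintro ⟨k, hk, rfl⟩
    refine ⟨univ.sigma fun i => univ.filter fun j : Fin (K i - 1) => (j : ℕ) < k i, ?_⟩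
    congr 1
    rw [sum_sigma]
    refine sum_congr rfl fun i _ => ?_
    dsimp only
    rw [sum_const]
    congr 1
    rw [Fin.card_filter_val_lt]
    have := hk i
    omega
  · rintro ⟨S, rfl⟩
    refine ⟨fun i => (univ.filter fun j : Fin (K i - 1) => (⟨i, j⟩ : Σ i : Fin r, Fin (K i - 1)) ∈ S).card,
      ?_, ?_⟩
    · intro i
      have h1 := card_filter_le (univ : Finset (Fin (K i - 1)))
        (fun j => (⟨i, j⟩ : Σ i : Fin r, Fin (K i - 1)) ∈ S)
      rw [card_univ, Fintype.card_fin] at h1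
      have := hK i
      dsimp only
      omega
    · congr 1
      have h1 : S = univ.sigma fun i => univ.filter fun j : Fin (K i - 1) =>
          (⟨i, j⟩ : Σ i : Fin r, Fin (K i - 1)) ∈ S := by
        ext ⟨i, j⟩
        simp
      conv_lhs => rw [h1]
      rw [sum_sigma]
      refine sum_congr rfl fun i _ => ?_
      dsimp only
      rw [sum_const]

/-- Cast of an integer vector. -/
def cq {n : ℕ} (x : Fin n → ℤ) : Fin n → ℚ := fun j => (x j : ℚ)

lemma cq_sum {n : ℕ} {ι : Type} (S : Finset ι) (u : ι → Fin n → ℤ) :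
    cq (∑ i ∈ S, u i) = ∑ i ∈ S, cq (u i) := by
  funext j
  simp [cq, Finset.sum_apply]

lemma cq_add {n : ℕ} (x y : Fin n → ℤ) : cq (x + y) = cq x + cq y := by
  funext j
  simp [cq]

theorem E6 (hb : Stmt_E6b) (hc : Stmt_E6c) (hd : Stmt_E6d) (he : Stmt_E6e) : Stmt_E6 := by
  intro n M N d r a v K P hP hcard hne
  have hK : ∀ i, 0 < K i := by
    obtain ⟨x, hx, -⟩ := hne
    rw [hP] at hx
    obtain ⟨k, hk, -⟩ := hx
    intro i
    exact lt_of_le_of_lt (Nat.zero_le _) (hk i)
  obtain ⟨ι, _, u, hu⟩ := hd n r a v K hK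
  have hPu : P = {x : Fin n → ℤ | ∃ S : Finset ι, x = a + ∑ i ∈ S, u i} := hP.trans hu
  -- finiteness and cardinality
  have hPfin : P = (((univ : Finset (Finset ι)).image fun S => a + ∑ i ∈ S, u i :
      Finset (Fin n → ℤ)) : Set (Fin n → ℤ)) := by
    rw [hPu]
    ext x
    simp only [Set.mem_ofPred_eq, coe_image, coe_univ, Set.image_univ, Set.mem_range]
    constructor
    · rintro ⟨S, rfl⟩; exact ⟨S, rfl⟩
    · rintro ⟨S, rfl⟩; exact ⟨S, rfl⟩
  set PF : Finset (Fin n → ℤ) := (univ : Finset (Finset ι)).image fun S => a + ∑ i ∈ S, u i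
    with hPF
  have hPc : P.ncard = PF.card := by rw [hPfin, Set.ncard_coe_finset]
  have hFS : (FS fun i => cq (u i)).card ≤ PF.card := by
    have h1 : (FS fun i => cq (u i)) = PF.image fun x => cq x - cq a := by
      ext y
      simp only [FS, hPF, mem_image, mem_univ, true_and]
      constructor
      · rintro ⟨S, rfl⟩
        refine ⟨_, ⟨S, rfl⟩, ?_⟩
        rw [cq_add, cq_sum]
        abel
      · rintro ⟨_, ⟨S, rfl⟩, rfl⟩
        refine ⟨S, ?_⟩
        rw [cq_add, cq_sum]
        abel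
    rw [h1]
    exact card_image_le
  obtain ⟨W, hW1, hW2⟩ := hb n ι (fun i => cq (u i)) d N
    (lt_of_le_of_lt (Nat.mul_le_mul_right _ (hFS.trans hPc.ge)) hcard)
  set U : Finset ι := univ.filter fun i => cq (u i) ∉ W with hU
  -- embedding of U into Fin N
  have hUN : Fintype.card U ≤ Fintype.card (Fin N) := by
    rw [Fintype.card_coe, Fintype.card_fin]
    exact hW2.le
  obtain ⟨f⟩ := Function.Embedding.nonempty_of_card_le hUN
  set w : Fin N → Fin n → ℚ := fun j => ∑ i : U, if f i = j then cq (u i) else 0 with hw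
  have hsum : ∀ ε : Fin N → Bool, (∑ j, (if ε j then (1 : ℚ) else 0) • w j) =
      ∑ i ∈ U.filter (fun i => ∃ h : i ∈ U, ε (f ⟨i, h⟩) = true), cq (u i) := by
    intro ε
    have h1 : (∑ j, (if ε j then (1 : ℚ) else 0) • w j) =
        ∑ i : U, if ε (f i) then cq (u i) else 0 := by
      simp only [hw, smul_sum]
      rw [sum_comm]
      refine sum_congr rfl fun i _ => ?_
      rw [sum_eq_single (f i)]
      · simp
      · intro j _ hj
        rw [if_neg (Ne.symm hj), smul_zero]
      · intro h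
        exact absurd (mem_univ _) h
    rw [h1, sum_filter]
    rw [← sum_coe_sort U (fun i => if ∃ h : i ∈ U, ε (f ⟨i, h⟩) = true then cq (u i) else 0)]
    refine sum_congr rfl fun i _ => ?_
    by_cases h : ε (f i) = true
    · rw [if_pos h, if_pos ⟨i.2, h⟩]
    · rw [if_neg h, if_neg]
      rintro ⟨h', h''⟩
      exact h h''
  set Y : Finset (Fin n → ℤ) := (box n M).filter fun x => ∃ ε : Fin N → Bool,
      (fun j => (x j : ℚ)) - cq a - (∑ i, (if ε i then (1 : ℚ) else 0) • w i) ∈ W with hY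
  have hsub : P ∩ (box n M : Set (Fin n → ℤ)) ⊆ (Y : Set (Fin n → ℤ)) := by
    rintro x ⟨hxP, hxb⟩
    rw [hPu] at hxP
    obtain ⟨S, rfl⟩ := hxP
    rw [mem_coe, hY, mem_filter]
    refine ⟨hxb, fun j => decide (∃ i : U, f i = j ∧ (i : ι) ∈ S), ?_⟩
    have h1 : (fun j => (((a + ∑ i ∈ S, u i) j : ℤ) : ℚ)) = cq a + ∑ i ∈ S, cq (u i) := by
      rw [← cq_sum, ← cq_add]
      rfl
    rw [h1, hsum]
    have h2 : (U.filter fun i => ∃ h : i ∈ U,
        (decide (∃ i' : U, f i' = f ⟨i, h⟩ ∧ (i' : ι) ∈ S)) = true) = S.filter (fun i => i ∈ U) := by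
      ext i
      simp only [mem_filter, decide_eq_true_eq]
      constructor
      · rintro ⟨h3, h4, i', h5, h6⟩
        have := f.injective h5
        subst this
        exact ⟨h6, h3⟩
      · rintro ⟨h3, h4⟩
        exact ⟨h4, h4, ⟨i, h4⟩, rfl, h3⟩
    rw [h2, ← sum_filter_add_sum_filter_not S (fun i => i ∈ U)]
    have h3 : cq a + (∑ i ∈ S.filter (fun i => i ∈ U), cq (u i) +
        ∑ i ∈ S.filter (fun i => i ∉ U), cq (u i)) - cq a -
        ∑ i ∈ S.filter (fun i => i ∈ U), cq (u i) =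
        ∑ i ∈ S.filter (fun i => i ∉ U), cq (u i) := by abel
    rw [h3]
    refine W.sum_mem fun i hi => ?_
    rw [mem_filter] at hi
    by_contra h4
    exact hi.2 (by rw [hU, mem_filter]; exact ⟨mem_univ _, h4⟩)
  have hYne : Y.Nonempty := by
    obtain ⟨x, hx⟩ := hne
    exact ⟨x, hsub hx⟩
  obtain ⟨T, hT1, hT2⟩ := he n M N W (cq a) w hYne
  refine ⟨T, hT1, ?_, ?_⟩
  · rw [hT2]; exact hsub
  · rw [hT2, hPc]
    have h1 : Y ⊆ PF.biUnion fun p => (box n M).filter fun x => (fun j => (x j : ℚ)) - cq p ∈ W := by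
      intro x hx
      rw [hY, mem_filter] at hx
      obtain ⟨hxb, ε, hε⟩ := hx
      rw [hsum] at hε
      rw [mem_biUnion]
      refine ⟨a + ∑ i ∈ U.filter (fun i => ∃ h : i ∈ U, ε (f ⟨i, h⟩) = true), u i, ?_, ?_⟩
      · rw [hPF, mem_image]
        exact ⟨_, mem_univ _, rfl⟩
      · rw [mem_filter]
        refine ⟨hxb, ?_⟩
        rw [cq_add, cq_sum, ← sub_sub]
        exact hε
    refine (card_le_card h1).trans (card_biUnion_le.trans ?_)
    refine (sum_le_card_nsmul _ _ ((2 * M + 1) ^ d) ?_).trans (by rw [smul_eq_mul])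
    intro p _
    refine (hc n M W (cq p)).trans ?_
    exact Nat.pow_le_pow_right (by omega) hW1.le

end Pool.Agent.PFRElem
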