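import Pool.Agent.PFRElem.Defs

/-!
# E6e: encoding of the trace on the box of `a + FS(u) + W`
-/

set_option autoImplicit false

namespace Pool.Agent.PFRElem

open Finset
open scoped Classical Pointwise

theorem E6e : Stmt_E6e := by
  intro n M N W a u hne
  -- the linear map `(l, e, x) ↦ x - l a - ∑ e_i u_i`
  let φ : (ℚ × (Fin N → ℚ) × (Fin n → ℚ)) →ₗ[ℚ] (Fin n → ℚ) :=
    { toFun := fun v => v.2.2 - v.1 • a - ∑ i, v.2.1 i • u i
      map_add' := by
        intro v w
        simp only [Prod.snd_add, Prod.fst_add, Pi.add_apply, add_smul, Finset.sum_add_distrib]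
        abel
      map_smul' := by
        intro c v
        simp only [Prod.smul_snd, Prod.smul_fst, Pi.smul_apply, smul_eq_mul, mul_smul,
          RingHom.id_apply, smul_sub, Finset.smul_sum] }
  have hφ : ∀ (ε : Fin N → Bool) (x : Fin n → ℤ), φ (vec (ε, x)) =
      (fun j => (x j : ℚ)) - a - (∑ i, (if ε i then (1 : ℚ) else 0) • u i) := by
    intro ε x
    simp [φ, vec]
  let S : Set ((Fin N → Bool) × (Fin n → ℤ)) := {p | p.2 ∈ box n M ∧ φ (vec p) ∈ W}
  have hSne : S.Nonempty := by
    obtain ⟨x, hx⟩ := hne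
    rw [Finset.mem_filter] at hx
    obtain ⟨hx, ε, hε⟩ := hx
    exact ⟨(ε, x), hx, by rw [hφ]; exact hε⟩
  obtain ⟨b, hbS, hbspan, hbli⟩ := exists_linearIndependent ℚ (vec '' S)
  have hfin : Module.finrank ℚ (ℚ × (Fin N → ℚ) × (Fin n → ℚ)) = 1 + N + n := by
    rw [Module.finrank_prod, Module.finrank_prod, Module.finrank_self]
    simp [add_assoc]
  have hbfin : b.Finite := hbli.setFinite
  have : Fintype b := hbfin.fintype
  have hbcard : Fintype.card b ≤ 1 + N + n := by
    rw [← hfin]
    exact hbli.fintype_card_le_finrank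
  have hbne : b.Nonempty := by
    by_contra hb
    rw [Set.not_nonempty_iff_eq_empty] at hb
    rw [hb, Submodule.span_empty] at hbspan
    obtain ⟨p, hp⟩ := hSne
    have h1 : vec p ∈ Submodule.span ℚ (vec '' S) := Submodule.subset_span ⟨p, hp, rfl⟩
    rw [← hbspan, Submodule.mem_bot] at h1
    have h2 := congrArg Prod.fst h1
    simp [vec] at h2
  have : Nonempty b := hbne.to_subtype
  obtain ⟨f⟩ : Nonempty (b ↪ Fin (1 + N + n)) :=
    Function.Embedding.nonempty_of_card_le (by simpa using hbcard)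
  have hg : Function.Surjective (Function.invFun f) := Function.invFun_surjective f.injective
  choose T hTS hT using fun i : Fin (1 + N + n) => hbS (Function.invFun f i).2
  have hspan : Submodule.span ℚ (Set.range fun i => vec (T i)) = Submodule.span ℚ (vec '' S) := by
    apply le_antisymm
    · rw [Submodule.span_le]
      rintro _ ⟨i, rfl⟩
      exact Submodule.subset_span ⟨T i, hTS i, rfl⟩
    · rw [← hbspan, Submodule.span_le]
      intro v hv
      obtain ⟨i, hi⟩ := hg ⟨v, hv⟩
      apply Submodule.subset_span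
      refine ⟨i, ?_⟩
      simp only [hT i, hi]
  refine ⟨T, fun i => (hTS i).1, ?_⟩
  unfold Yset
  apply Finset.filter_congr
  intro x hx
  rw [hspan]
  constructor
  · rintro ⟨ε, hε⟩
    refine ⟨ε, ?_⟩
    rw [← hφ]
    have hle : Submodule.span ℚ (vec '' S) ≤ W.comap φ := by
      rw [Submodule.span_le]
      rintro _ ⟨p, hp, rfl⟩
      exact hp.2
    exact hle hε
  · rintro ⟨ε, hε⟩
    refine ⟨ε, Submodule.subset_span ⟨(ε, x), ⟨hx, ?_⟩, rfl⟩⟩
    rw [hφ]
    exact hε

end Pool.Agent.PFRElem
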