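import Pool.Agent.PFRElem.Defs

set_option autoImplicit false

namespace Pool.Agent.PFRElem

open Finset
open scoped Classical Pointwise

theorem box_card (n M : ℕ) : (box n M).card = (2 * M + 1) ^ n := by
  unfold box
  rw [Fintype.card_piFinset_const, Int.card_Icc]
  congr 1
  omega

/-- Counting of the `Φ` with a too large Bohr set. -/
theorem bad1 (h5c : Stmt_E5c) (n M q L : ℕ) [Fact q.Prime] (hn : 1 ≤ n) (hL : 1 ≤ L) (hM : M < q)
    (hLq : 3 * L ≤ q) (hLs : 3 * L ≤ 2 * (2 * M + 1)) :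
    2 * (univ.filter fun Φ : Fin n → Fin n → ZMod q =>
      4 * (2 * M + 1) ^ n < (Bohr n M q L Φ).card * L ^ n).card < q ^ (n * n) := by
  have h := h5c n M q L hL hM hLq
  set s := 2 * M + 1 with hs
  have hspos : 0 < s := by omega
  set B := univ.filter fun Φ : Fin n → Fin n → ZMod q =>
      4 * s ^ n < (Bohr n M q L Φ).card * L ^ n with hB
  have h1 : B.card * (4 * (3 * s) ^ n) ≤
      (∑ Φ : Fin n → Fin n → ZMod q, (Bohr n M q L Φ).card) * (3 * L) ^ n := by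
    calc B.card * (4 * (3 * s) ^ n) = ∑ _Φ ∈ B, 4 * (3 * s) ^ n := by rw [sum_const, smul_eq_mul]
      _ ≤ ∑ Φ ∈ B, (Bohr n M q L Φ).card * (3 * L) ^ n := by
          refine sum_le_sum fun Φ hΦ => ?_
          have hlt := (mem_filter.1 hΦ).2
          calc 4 * (3 * s) ^ n = 3 ^ n * (4 * s ^ n) := by rw [mul_pow]; ring
            _ ≤ 3 ^ n * ((Bohr n M q L Φ).card * L ^ n) := Nat.mul_le_mul_left _ hlt.le
            _ = _ := by rw [mul_pow]; ring
      _ ≤ ∑ Φ : Fin n → Fin n → ZMod q, (Bohr n M q L Φ).card * (3 * L) ^ n :=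
          sum_le_sum_of_subset (subset_univ _)
      _ = _ := by rw [sum_mul]
  have h2 : (3 * L) ^ n + (2 * s) ^ n ≤ 2 * (2 * s) ^ n := by
    have := Nat.pow_le_pow_left hLs n
    omega
  have h3 : B.card * (4 * (3 * s) ^ n) ≤ q ^ (n * n) * (2 * (2 * s) ^ n) :=
    h1.trans (h.trans (Nat.mul_le_mul_left _ h2))
  have h4 : (2 * s) ^ n < (3 * s) ^ n := Nat.pow_lt_pow_left (by omega) (by omega)
  have hq : 0 < q ^ (n * n) := pow_pos (Fact.out : q.Prime).pos _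
  have h5 : (2 * B.card) * (2 * (3 * s) ^ n) < q ^ (n * n) * (2 * (3 * s) ^ n) := by
    calc (2 * B.card) * (2 * (3 * s) ^ n) = B.card * (4 * (3 * s) ^ n) := by ring
      _ ≤ q ^ (n * n) * (2 * (2 * s) ^ n) := h3
      _ < q ^ (n * n) * (2 * (3 * s) ^ n) := by
          apply Nat.mul_lt_mul_of_pos_left _ hq
          omega
  exact lt_of_mul_lt_mul_right h5 (Nat.zero_le _)

/-- All possible codes. -/
noncomputable def codes (n M N : ℕ) : Finset (Fin (1 + N + n) → (Fin N → Bool) × (Fin n → ℤ)) :=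
  Fintype.piFinset fun _ => (univ : Finset (Fin N → Bool)) ×ˢ box n M

theorem codes_card (n M N : ℕ) :
    (codes n M N).card = (2 ^ N * (2 * M + 1) ^ n) ^ (1 + N + n) := by
  unfold codes
  rw [Fintype.card_piFinset_const, card_product, box_card]
  simp

theorem codes_card_le (n M N d D g : ℕ) (hn : n = D * d) (hD : 1 ≤ D) (hn1 : 1 ≤ n) (hN : N = g * d)
    (hs : 2 * M + 1 ≤ 2 ^ D) :
    (codes n M N).card ≤ 2 ^ (n * n * ((g + D) * (g + 2))) := by
  rw [codes_card]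
  have hdn : d ≤ n := by rw [hn]; exact Nat.le_mul_of_pos_left d hD
  have hNn : N ≤ g * n := by rw [hN]; exact Nat.mul_le_mul_left _ hdn
  have h1 : 2 ^ N * (2 * M + 1) ^ n ≤ 2 ^ (n * (g + D)) := by
    calc 2 ^ N * (2 * M + 1) ^ n ≤ 2 ^ (g * n) * (2 ^ D) ^ n :=
          Nat.mul_le_mul (Nat.pow_le_pow_right (by norm_num) hNn) (Nat.pow_le_pow_left hs n)
      _ = 2 ^ (n * (g + D)) := by rw [← pow_mul, ← pow_add]; congr 1; ring
  calc (2 ^ N * (2 * M + 1) ^ n) ^ (1 + N + n) ≤ (2 ^ (n * (g + D))) ^ (1 + N + n) :=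
        Nat.pow_le_pow_left h1 _
    _ ≤ (2 ^ (n * (g + D))) ^ (n * (g + 2)) := by
        refine Nat.pow_le_pow_right (by positivity) ?_
        nlinarith
    _ = _ := by rw [← pow_mul]; congr 1; ring

/-- Union bound over one code. -/
theorem bad_one (E n M H L τ q : ℕ) (hE : 1 ≤ E) (hn1 : 1 ≤ n) (hH : 1 ≤ H) (hL : L = 768 * E ^ 2)
    (hsH : 2 * M + 1 ≤ 12 * L * E * H) (y b : ℕ)
    (hy : y * L ^ n ≤ 4 * (2 * E * (2 * M + 1)) ^ n)
    (hb : b * (H ^ n) ^ (τ * n) * L ^ (τ * n * n) ≤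
      2 * y ^ (τ * n) * 4 ^ (τ * n * n) * q ^ (n * n)) :
    b * 2 ^ (τ * n * n) ≤ 2 * q ^ (n * n) := by
  have hLpos : 0 < L := by rw [hL]; positivity
  have hy1 : y ≤ 4 * (24 * E ^ 2 * H) ^ n := by
    have h1 : y * L ^ n ≤ 4 * (24 * E ^ 2 * H) ^ n * L ^ n := by
      calc y * L ^ n ≤ 4 * (2 * E * (2 * M + 1)) ^ n := hy
        _ ≤ 4 * (2 * E * (12 * L * E * H)) ^ n :=
            Nat.mul_le_mul_left _ (Nat.pow_le_pow_left (Nat.mul_le_mul_left _ hsH) _)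
        _ = 4 * (24 * E ^ 2 * H) ^ n * L ^ n := by rw [mul_assoc 4, ← mul_pow]; congr 2; ring
    exact le_of_mul_le_mul_right h1 (pow_pos hLpos n)
  set m := τ * n with hm
  have hpos : 0 < (96 * E ^ 2 * H) ^ (m * n) := by positivity
  have h2 : b * 8 ^ (m * n) * (96 * E ^ 2 * H) ^ (m * n) ≤
      2 * 4 ^ (m * n) * q ^ (n * n) * (96 * E ^ 2 * H) ^ (m * n) := by
    calc b * 8 ^ (m * n) * (96 * E ^ 2 * H) ^ (m * n)
        = b * (H ^ n) ^ m * L ^ (m * n) := by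
          rw [hL, mul_assoc, ← mul_pow, mul_assoc b, ← pow_mul, mul_comm n m, ← mul_pow]
          congr 2; ring
      _ ≤ 2 * y ^ m * 4 ^ (m * n) * q ^ (n * n) := hb
      _ ≤ 2 * (4 * (24 * E ^ 2 * H) ^ n) ^ m * 4 ^ (m * n) * q ^ (n * n) := by gcongr
      _ = 2 * 4 ^ m * q ^ (n * n) * (96 * E ^ 2 * H) ^ (m * n) := by
          rw [mul_pow 4, ← pow_mul, mul_comm n m]
          have : (96 * E ^ 2 * H) ^ (m * n) = (24 * E ^ 2 * H) ^ (m * n) * 4 ^ (m * n) := by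
            rw [← mul_pow]; congr 1; ring
          rw [this]; ring
      _ ≤ _ := by
          gcongr
          · norm_num
          · exact Nat.le_mul_of_pos_right m hn1
  have h3 := le_of_mul_le_mul_right h2 hpos
  have h4 : b * 2 ^ (m * n) * 4 ^ (m * n) ≤ 2 * q ^ (n * n) * 4 ^ (m * n) := by
    calc b * 2 ^ (m * n) * 4 ^ (m * n) = b * 8 ^ (m * n) := by
          rw [mul_assoc, ← mul_pow]; norm_num
      _ ≤ _ := h3
      _ = _ := by ring
  exact le_of_mul_le_mul_right h4 (by positivity)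

theorem E7 (h5a : Stmt_E5a) (h5b : Stmt_E5b) (h5c : Stmt_E5c) (h6 : Stmt_E6) (h7a : Stmt_E7a) :
    Stmt_E7 := by
  intro E hE
  obtain ⟨L, hL⟩ : ∃ L, L = 768 * E ^ 2 := ⟨_, rfl⟩
  obtain ⟨D₀, hD₀⟩ : ∃ D₀, D₀ = 12 * L * E := ⟨_, rfl⟩
  obtain ⟨H, hH⟩ : ∃ H, H = 1024 * D₀ ^ 4 := ⟨_, rfl⟩
  obtain ⟨M, hM⟩ : ∃ M, M = 6 * L * E * H - 1 := ⟨_, rfl⟩
  have hLpos : 1 ≤ L := by rw [hL]; exact Nat.succ_le_of_lt (by positivity)
  have hLE : 1 ≤ L * E := Nat.mul_pos hLpos hE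
  have hD₀pos : 1 ≤ D₀ := by rw [hD₀]; exact Nat.succ_le_of_lt (by positivity)
  have hHpos : 1 ≤ H := by rw [hH]; exact Nat.succ_le_of_lt (by positivity)
  have hMpos : 1 ≤ 6 * L * E * H := Nat.succ_le_of_lt (by positivity)
  have hM1 : M + 1 = 6 * L * E * H := by omega
  have hs : 2 * M + 1 + 1 = 12 * L * E * H := by
    have : 12 * L * E * H = 2 * (6 * L * E * H) := by ring
    omega
  have hLEH : 1 ≤ L * E * H := Nat.mul_pos hLE hHpos
  have hsH : H ≤ 2 * M + 1 := by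
    have h1 : 12 * L * E * H = 12 * (L * E) * H := by ring
    have h2 : H ≤ L * E * H := Nat.le_mul_of_pos_left H hLE
    have h3 : 12 * (L * E) * H = 12 * (L * E * H) := by ring
    omega
  have hsD : 2 * M + 1 ≤ D₀ * H := by rw [hD₀]; omega
  have hsL : 3 * L ≤ 2 * (2 * M + 1) := by
    have h1 : L ≤ L * (E * H) := Nat.le_mul_of_pos_right L (Nat.mul_pos hE hHpos)
    have h2 : 12 * L * E * H = 12 * (L * (E * H)) := by ring
    omega
  obtain ⟨D, hD1, hD⟩ : ∃ D, 1 ≤ D ∧ 2 * M + 1 ≤ 2 ^ D :=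
    ⟨2 * M + 1, by omega, (Nat.lt_two_pow_self).le⟩
  obtain ⟨g, hg⟩ : ∃ g, g = (E * (2 * M + 1)) ^ D + 1 := ⟨_, rfl⟩
  obtain ⟨τ, hτ⟩ : ∃ τ, τ = (g + D) * (g + 2) + 2 := ⟨_, rfl⟩
  obtain ⟨n₀, hn₀⟩ := h7a M D₀ H L τ (by rw [← hH]; exact hsH) hD₀pos hLpos hsD
  obtain ⟨d, hd⟩ : ∃ d, d = n₀ + 1 := ⟨_, rfl⟩
  obtain ⟨n, hn⟩ : ∃ n, n = D * d := ⟨_, rfl⟩
  obtain ⟨N, hN⟩ : ∃ N, N = g * d := ⟨_, rfl⟩
  have hd1 : 1 ≤ d := by omega
  have hdn : d ≤ n := by rw [hn]; exact Nat.le_mul_of_pos_left d hD1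
  have hn1 : 1 ≤ n := hd1.trans hdn
  have hn₀n : n₀ ≤ n := by omega
  obtain ⟨q, hqge, hqp⟩ := Nat.exists_infinite_primes (τ * n * L * M + M + 3 * L + 1)
  have : Fact q.Prime := ⟨hqp⟩
  have hb1 := bad1 h5c n M q L hn1 hLpos (by omega) (by omega) hsL
  set B1 := univ.filter fun Φ : Fin n → Fin n → ZMod q =>
      4 * (2 * M + 1) ^ n < (Bohr n M q L Φ).card * L ^ n with hB1
  -- codes with small Y
  set 𝒯 := (codes n M N).filter fun T =>
    (Yset n M N T).card * L ^ n ≤ 4 * (2 * E * (2 * M + 1)) ^ n with h𝒯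
  set B2 := 𝒯.biUnion fun T => univ.filter fun Φ : Fin n → Fin n → ZMod q =>
    H ^ n ≤ (Bohr n M q L Φ ∩ Yset n M N T).card with hB2
  have hb2 : 2 * B2.card ≤ q ^ (n * n) := by
    have hT : ∀ T ∈ 𝒯, (univ.filter fun Φ : Fin n → Fin n → ZMod q =>
        H ^ n ≤ (Bohr n M q L Φ ∩ Yset n M N T).card).card * 2 ^ (τ * n * n) ≤ 2 * q ^ (n * n) := by
      intro T hT
      have hT2 := (mem_filter.1 hT).2
      refine bad_one E n M H L τ q hE hn1 hHpos hL (by omega) _ _ hT2 ?_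
      exact hn₀ n hn₀n q (by omega) (Yset n M N T) (filter_subset _ _)
    have h1 : B2.card * 2 ^ (τ * n * n) ≤ 2 ^ (n * n * ((g + D) * (g + 2))) * (2 * q ^ (n * n)) := by
      calc B2.card * 2 ^ (τ * n * n) ≤ (∑ T ∈ 𝒯, (univ.filter fun Φ : Fin n → Fin n → ZMod q =>
            H ^ n ≤ (Bohr n M q L Φ ∩ Yset n M N T).card).card) * 2 ^ (τ * n * n) :=
            Nat.mul_le_mul_right _ card_biUnion_le
        _ = ∑ T ∈ 𝒯, (univ.filter fun Φ : Fin n → Fin n → ZMod q =>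
            H ^ n ≤ (Bohr n M q L Φ ∩ Yset n M N T).card).card * 2 ^ (τ * n * n) := sum_mul ..
        _ ≤ ∑ _T ∈ 𝒯, 2 * q ^ (n * n) := sum_le_sum hT
        _ = 𝒯.card * (2 * q ^ (n * n)) := by rw [sum_const, smul_eq_mul]
        _ ≤ _ := Nat.mul_le_mul_right _ ((card_filter_le _ _).trans
            (codes_card_le n M N d D g hn hD1 hn1 hN hD))
    have h2 : τ * n * n = n * n * ((g + D) * (g + 2)) + 2 * (n * n) := by rw [hτ]; ring
    rw [h2, pow_add] at h1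
    have h3 : 4 ≤ 2 ^ (2 * (n * n)) := by
      calc 4 = 2 ^ 2 := by norm_num
        _ ≤ 2 ^ (2 * (n * n)) := Nat.pow_le_pow_right (by norm_num) (by nlinarith)
    have h4 : 2 ^ (n * n * ((g + D) * (g + 2))) * (B2.card * 2 ^ (2 * (n * n))) ≤
        2 ^ (n * n * ((g + D) * (g + 2))) * (2 * q ^ (n * n)) := by
      calc _ = B2.card * (2 ^ (n * n * ((g + D) * (g + 2))) * 2 ^ (2 * (n * n))) := by ring
        _ ≤ _ := h1
    have h5 := le_of_mul_le_mul_left h4 (by positivity)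
    have h6 : B2.card * 4 ≤ B2.card * 2 ^ (2 * (n * n)) := Nat.mul_le_mul_left _ h3
    omega
  -- a good Φ
  have hcard : (univ : Finset (Fin n → Fin n → ZMod q)).card = q ^ (n * n) := by
    rw [card_univ]
    simp [ZMod.card, ← pow_mul]
  obtain ⟨Φ, hΦ⟩ : ∃ Φ : Fin n → Fin n → ZMod q, Φ ∉ B1 ∪ B2 := by
    by_contra hcon
    push Not at hcon
    have : (univ : Finset (Fin n → Fin n → ZMod q)) ⊆ B1 ∪ B2 := fun Φ _ => hcon Φ
    have h1 := (card_le_card this).trans (card_union_le _ _)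
    omega
  rw [mem_union, not_or] at hΦ
  obtain ⟨hΦ1, hΦ2⟩ := hΦ
  have hsize : (Bohr n M q L Φ).card * L ^ n ≤ 4 * (2 * M + 1) ^ n := by
    by_contra hcon
    exact hΦ1 (mem_filter.2 ⟨mem_univ _, not_le.1 hcon⟩)
  have hlow := h5a n M q L Φ hLpos
  have hlow2 : (E * H) ^ n ≤ (Bohr n M q L Φ).card := by
    have h1 : (6 * L) ^ n * (E * H) ^ n ≤ (6 * L) ^ n * (Bohr n M q L Φ).card := by
      calc (6 * L) ^ n * (E * H) ^ n = (M + 1) ^ n := by rw [← mul_pow, hM1]; congr 1; ring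
        _ ≤ _ := hlow
    exact le_of_mul_le_mul_left h1 (by positivity)
  refine ⟨n, hn1, Bohr n M q L Φ, ?_, h5b n M q L Φ hLpos, ?_⟩
  · rw [← card_pos]
    exact lt_of_lt_of_le (by positivity) hlow2
  intro r a v K P hP hPcard hAP
  have hAbox : Bohr n M q L Φ ⊆ box n M := filter_subset _ _
  have hAcard : (Bohr n M q L Φ).card ≤ (2 * M + 1) ^ n := by
    rw [← box_card]; exact card_le_card hAbox
  have hHn : H ^ n ≤ ((Bohr n M q L Φ : Set (Fin n → ℤ)) ∩ P).ncard := by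
    have h1 : E ^ n * H ^ n ≤ E ^ n * ((Bohr n M q L Φ : Set (Fin n → ℤ)) ∩ P).ncard := by
      rw [← mul_pow]; exact hlow2.trans hAP
    exact le_of_mul_le_mul_left h1 (by positivity)
  have hfin : ((Bohr n M q L Φ : Set (Fin n → ℤ)) ∩ P).Finite :=
    (Bohr n M q L Φ).finite_toSet.subset Set.inter_subset_left
  have hne : (P ∩ (box n M : Set (Fin n → ℤ))).Nonempty := by
    have : ((Bohr n M q L Φ : Set (Fin n → ℤ)) ∩ P).Nonempty := by
      rw [← Set.ncard_pos hfin]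
      exact lt_of_lt_of_le (by positivity) hHn
    obtain ⟨x, hx1, hx2⟩ := this
    exact ⟨x, hx2, hAbox hx1⟩
  have hPd : P.ncard * d ^ d < N ^ d := by
    have h1 : P.ncard < g ^ d := by
      calc P.ncard ≤ E ^ n * (Bohr n M q L Φ).card := hPcard
        _ ≤ E ^ n * (2 * M + 1) ^ n := Nat.mul_le_mul_left _ hAcard
        _ = ((E * (2 * M + 1)) ^ D) ^ d := by rw [← mul_pow, ← pow_mul, hn]
        _ < g ^ d := Nat.pow_lt_pow_left (by rw [hg]; exact Nat.lt_succ_self _) (by omega)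
    calc P.ncard * d ^ d < g ^ d * d ^ d := Nat.mul_lt_mul_of_pos_right h1 (by positivity)
      _ = N ^ d := by rw [hN, mul_pow]
  obtain ⟨T, hT1, hT2, hT3⟩ := h6 n M N d r a v K P hP hPd hne
  apply hΦ2
  rw [hB2, mem_biUnion]
  refine ⟨T, ?_, ?_⟩
  · rw [h𝒯, mem_filter]
    refine ⟨?_, ?_⟩
    · unfold codes
      rw [Fintype.mem_piFinset]
      intro i
      rw [mem_product]
      exact ⟨mem_univ _, hT1 i⟩
    · calc (Yset n M N T).card * L ^ n ≤ (P.ncard * (2 * M + 1) ^ d) * L ^ n :=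
            Nat.mul_le_mul_right _ hT3
        _ ≤ (E ^ n * (Bohr n M q L Φ).card * (2 ^ D) ^ d) * L ^ n := by gcongr
        _ = E ^ n * 2 ^ n * ((Bohr n M q L Φ).card * L ^ n) := by rw [← pow_mul, ← hn]; ring
        _ ≤ E ^ n * 2 ^ n * (4 * (2 * M + 1) ^ n) := Nat.mul_le_mul_left _ hsize
        _ = 4 * (2 * E * (2 * M + 1)) ^ n := by rw [mul_pow, mul_pow]; ring
  · rw [mem_filter]
    refine ⟨mem_univ _, hHn.trans ?_⟩
    rw [← Set.ncard_coe_finset, coe_inter]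
    refine Set.ncard_le_ncard ?_ ?_
    · intro x hx
      exact ⟨hx.1, hT2 ⟨hx.2, hAbox hx.1⟩⟩
    · exact (Bohr n M q L Φ).finite_toSet.subset Set.inter_subset_left

end Pool.Agent.PFRElem
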