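import Pool.Agent.PFRElem.Defs

set_option autoImplicit false

namespace Pool.Agent.PFRElem

open Finset
open scoped Classical Pointwise

theorem E7a (h1 : Stmt_E1b) (h4 : Stmt_E4) : Stmt_E7a := by
  intro M D₀ H L τ hD hD0 hL hMH
  obtain ⟨n₀, hn₀⟩ := h4 M D₀ L τ hD hD0 hL
  refine ⟨n₀, fun n hn q _ hq Y hY => ?_⟩
  set m := τ * n with hm
  set B := univ.filter fun Φ : Fin n → Fin n → ZMod q => H ^ n ≤ (Bohr n M q L Φ ∩ Y).card with hB
  have key1 : ∀ Φ ∈ B, (H ^ n) ^ m ≤ 2 * ((Fintype.piFinset fun _ : Fin m => Y).filter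
      fun x => Dissoc L x ∧ ∀ j, x j ∈ Bohr n M q L Φ).card := by
    intro Φ hΦ
    have hX : H ^ n ≤ (Bohr n M q L Φ ∩ Y).card := (mem_filter.1 hΦ).2
    have h := hn₀ n hn (Bohr n M q L Φ ∩ Y) (fun x hx => hY (mem_inter.1 hx).2) (by
      calc (2 * M + 1) ^ n ≤ (D₀ * H) ^ n := Nat.pow_le_pow_left hMH n
        _ = D₀ ^ n * H ^ n := mul_pow _ _ _
        _ ≤ _ := Nat.mul_le_mul_left _ hX)
    calc (H ^ n) ^ m ≤ (Bohr n M q L Φ ∩ Y).card ^ m := Nat.pow_le_pow_left hX m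
      _ ≤ _ := h
      _ ≤ _ := by
        refine Nat.mul_le_mul_left _ (card_le_card ?_)
        intro x hx
        rw [mem_filter, Fintype.mem_piFinset] at hx ⊢
        exact ⟨fun j => (mem_inter.1 (hx.1 j)).2, hx.2, fun j => (mem_inter.1 (hx.1 j)).1⟩
  have key2 : B.card * (H ^ n) ^ m ≤ ∑ Φ : Fin n → Fin n → ZMod q,
      2 * ((Fintype.piFinset fun _ : Fin m => Y).filter
      fun x => Dissoc L x ∧ ∀ j, x j ∈ Bohr n M q L Φ).card := by
    calc B.card * (H ^ n) ^ m = ∑ _Φ ∈ B, (H ^ n) ^ m := by rw [sum_const, smul_eq_mul]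
      _ ≤ ∑ Φ ∈ B, _ := sum_le_sum key1
      _ ≤ _ := sum_le_sum_of_subset (subset_univ _)
  have key3 : ∑ Φ : Fin n → Fin n → ZMod q, ((Fintype.piFinset fun _ : Fin m => Y).filter
      fun x => Dissoc L x ∧ ∀ j, x j ∈ Bohr n M q L Φ).card =
      ∑ x ∈ (Fintype.piFinset fun _ : Fin m => Y).filter fun x => Dissoc L x,
        (univ.filter fun Φ : Fin n → Fin n → ZMod q => ∀ j, x j ∈ Bohr n M q L Φ).card := by
    simp_rw [card_filter]
    rw [sum_comm, sum_filter]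
    refine sum_congr rfl fun x _ => ?_
    by_cases hx : Dissoc L x
    · simp [hx]
    · simp [hx]
  have key4 : ∀ x ∈ (Fintype.piFinset fun _ : Fin m => Y).filter (fun x => Dissoc L x),
      (univ.filter fun Φ : Fin n → Fin n → ZMod q => ∀ j, x j ∈ Bohr n M q L Φ).card * L ^ (m * n)
        ≤ 4 ^ (m * n) * q ^ (n * n) := by
    intro x hx
    rw [mem_filter, Fintype.mem_piFinset] at hx
    exact h1 n m M q L hL hq x (fun j => hY (hx.1 j)) hx.2
  calc B.card * (H ^ n) ^ m * L ^ (m * n)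
      ≤ (∑ Φ : Fin n → Fin n → ZMod q,
      2 * ((Fintype.piFinset fun _ : Fin m => Y).filter
      fun x => Dissoc L x ∧ ∀ j, x j ∈ Bohr n M q L Φ).card) * L ^ (m * n) :=
        Nat.mul_le_mul_right _ key2
    _ = 2 * ∑ x ∈ (Fintype.piFinset fun _ : Fin m => Y).filter (fun x => Dissoc L x),
        ((univ.filter fun Φ : Fin n → Fin n → ZMod q => ∀ j, x j ∈ Bohr n M q L Φ).card
          * L ^ (m * n)) := by
        rw [← mul_sum, key3, mul_assoc, sum_mul]
    _ ≤ 2 * ∑ x ∈ (Fintype.piFinset fun _ : Fin m => Y).filter (fun x => Dissoc L x),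
        4 ^ (m * n) * q ^ (n * n) := Nat.mul_le_mul_left _ (sum_le_sum key4)
    _ = 2 * (((Fintype.piFinset fun _ : Fin m => Y).filter (fun x => Dissoc L x)).card *
        (4 ^ (m * n) * q ^ (n * n))) := by rw [sum_const, smul_eq_mul]
    _ ≤ 2 * (Y.card ^ m * (4 ^ (m * n) * q ^ (n * n))) := by
        refine Nat.mul_le_mul_left _ (Nat.mul_le_mul_right _ ?_)
        calc _ ≤ (Fintype.piFinset fun _ : Fin m => Y).card := card_filter_le _ _
          _ = Y.card ^ m := by simp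
    _ = 2 * Y.card ^ m * 4 ^ (m * n) * q ^ (n * n) := by ring

end Pool.Agent.PFRElem
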