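import Pool.Agent.PFRElem.Defs

set_option autoImplicit false

namespace Pool.Agent.PFRElem

open Finset
open scoped Pointwise

theorem exists_E (C c : ℝ) : ∃ E : ℕ, 1 ≤ E ∧ ∀ n : ℕ, 1 ≤ n →
    C * ((20 : ℝ) ^ n) ^ c ≤ (E : ℝ) ^ n := by
  have h20 : (0 : ℝ) < 20 ^ c := Real.rpow_pos_of_pos (by norm_num) c
  have hmax : (1 : ℝ) ≤ max C 1 := le_max_right _ _
  refine ⟨⌈max C 1 * (20 : ℝ) ^ c⌉₊, ?_, fun n hn => ?_⟩
  · exact Nat.one_le_ceil_iff.2 (by positivity)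
  · have h1 : ((20 : ℝ) ^ n) ^ c = ((20 : ℝ) ^ c) ^ n := by
      rw [← Real.rpow_natCast, ← Real.rpow_mul (by norm_num), mul_comm, Real.rpow_mul (by norm_num),
        Real.rpow_natCast]
    rw [h1]
    calc C * ((20 : ℝ) ^ c) ^ n ≤ max C 1 * ((20 : ℝ) ^ c) ^ n := by
          gcongr; exact le_max_left _ _
      _ ≤ (max C 1) ^ n * ((20 : ℝ) ^ c) ^ n := by
          gcongr
          exact le_self_pow₀ hmax (by omega)
      _ = (max C 1 * (20 : ℝ) ^ c) ^ n := by rw [mul_pow]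
      _ ≤ _ := by
          gcongr
          exact Nat.le_ceil _

theorem final (h7 : Stmt_E7) :
    ¬ (∃ C : ℝ, 0 < C ∧ ∃ c : ℝ, 0 < c ∧
  ∀ (G : Type) [AddCommGroup G],
    (∀ (n : ℕ) (x : G), n ≠ 0 → n • x = 0 → x = 0) →
    ∀ (A : Set G) (K : ℝ), A.Finite → A.Nonempty →
      ((A + A).ncard : ℝ) ≤ K * (A.ncard : ℝ) →
      ∃ (d : ℕ) (a : G) (v : Fin d → G) (N : Fin d → ℕ) (P : Set G),
        P = {x : G | ∃ k : Fin d → ℕ, (∀ i, k i < N i) ∧ x = a + ∑ i, k i • v i} ∧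
        (d : ℝ) ≤ C * K ^ c ∧
        (P.ncard : ℝ) ≤ C * K ^ c * (A.ncard : ℝ) ∧
        C⁻¹ * K ^ (-c) * (A.ncard : ℝ) ≤ ((A ∩ P).ncard : ℝ)) := by
  rintro ⟨C, hC, c, hc, h⟩
  obtain ⟨E, hE1, hE⟩ := exists_E C c
  obtain ⟨n, hn, A, hne, hdoub, hno⟩ := h7 E hE1
  have hEn := hE n hn
  have htf : ∀ (m : ℕ) (x : Fin n → ℤ), m ≠ 0 → m • x = 0 → x = 0 := by
    intro m x hm hx
    exact (smul_eq_zero.1 hx).resolve_left hm
  have hd : ((((A : Set (Fin n → ℤ)) + (A : Set (Fin n → ℤ))).ncard : ℕ) : ℝ) ≤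
      (20 : ℝ) ^ n * (((A : Set (Fin n → ℤ)).ncard : ℕ) : ℝ) := by
    rw [← Finset.coe_add, Set.ncard_coe_finset, Set.ncard_coe_finset]
    exact_mod_cast hdoub
  obtain ⟨r, a, v, N, P, hP, -, hPc, hAP⟩ := h (Fin n → ℤ) htf (A : Set (Fin n → ℤ)) ((20 : ℝ) ^ n)
    A.finite_toSet (by exact_mod_cast hne) hd
  rw [Set.ncard_coe_finset] at hPc hAP
  have hK : (0 : ℝ) < (20 : ℝ) ^ n := by positivity
  have hKc : 0 < ((20 : ℝ) ^ n) ^ c := Real.rpow_pos_of_pos hK c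
  refine hno r a v N P hP ?_ ?_
  · have h1 : (P.ncard : ℝ) ≤ (E : ℝ) ^ n * (A.card : ℝ) :=
      hPc.trans (mul_le_mul_of_nonneg_right hEn (Nat.cast_nonneg _))
    exact_mod_cast h1
  · have h2 : (A.card : ℝ) ≤ C * ((20 : ℝ) ^ n) ^ c * (((A : Set (Fin n → ℤ)) ∩ P).ncard : ℝ) := by
      rw [Real.rpow_neg hK.le] at hAP
      have h3 := mul_le_mul_of_nonneg_left hAP (mul_pos hC hKc).le
      calc (A.card : ℝ) = C * ((20 : ℝ) ^ n) ^ c * (C⁻¹ * (((20 : ℝ) ^ n) ^ c)⁻¹ * (A.card : ℝ)) := by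
            field_simp
        _ ≤ _ := h3
    have h3 : (A.card : ℝ) ≤ (E : ℝ) ^ n * (((A : Set (Fin n → ℤ)) ∩ P).ncard : ℝ) :=
      h2.trans (mul_le_mul_of_nonneg_right hEn (Nat.cast_nonneg _))
    exact_mod_cast h3

end Pool.Agent.PFRElem
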